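import Mathlib

open CategoryTheory CategoryTheory.Limits CategoryTheory.MonoidalCategory

namespace Pool.Agent.Results.MP_7857a6_al.BraidedUnitary

set_option linter.unusedSectionVars false
set_option linter.unusedVariables false

noncomputable section

universe v u

section Defs

variable (C : Type u) [Category.{v} C] [Abelian C] [Linear ℂ C] [HasFiniteBiproducts C]
  [MonoidalCategory C] [MonoidalPreadditive C] [MonoidalLinear ℂ C] [RigidCategory C]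

/-- A fusion category over the complex numbers. -/
structure IsFusionCategory : Prop where
  finiteDimensional_hom : ∀ X Y : C, FiniteDimensional ℂ (X ⟶ Y)
  simple_unit : Simple (𝟙_ C)
  semisimple : ∀ X : C, ∃ (m : ℕ) (f : Fin m → C), (∀ k, Simple (f k)) ∧ Nonempty (X ≅ ⨁ f)
  finitely_many_simples : ∃ (m : ℕ) (S : Fin m → C), ∀ X : C, Simple X → ∃ i, Nonempty (X ≅ S i)

variable {C}

/-- S lists the simple objects, each isomorphism class exactly once. -/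
structure ListsSimples {r : ℕ} (S : Fin r → C) : Prop where
  simple : ∀ i, Simple (S i)
  injective : ∀ i j, Nonempty (S i ≅ S j) → i = j
  complete : ∀ X : C, Simple X → ∃ i, Nonempty (X ≅ S i)

end Defs

section Struct

/-- The structure of a C*-tensor category on a C-linear monoidal category D: a conjugate-linear
involution dag reversing composition, complete norms on the morphism spaces satisfying the
C*-identity, positivity of dag f composed with f in the algebra End X, compatibility of dag with the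
tensor product, and unitarity of the associator and of the unit constraints. -/
structure CStarTensorStructure (D : Type u) [Category.{v} D] [Preadditive D] [Linear ℂ D]
    [MonoidalCategory D] where
  dag : ∀ {X Y : D}, (X ⟶ Y) → (Y ⟶ X)
  dag_dag : ∀ {X Y : D} (f : X ⟶ Y), dag (dag f) = f
  dag_comp : ∀ {X Y Z : D} (f : X ⟶ Y) (g : Y ⟶ Z), dag (f ≫ g) = dag g ≫ dag f
  dag_add : ∀ {X Y : D} (f g : X ⟶ Y), dag (f + g) = dag f + dag g
  dag_smul : ∀ {X Y : D} (z : ℂ) (f : X ⟶ Y), dag (z • f) = (starRingEnd ℂ z) • dag f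
  nrm : ∀ {X Y : D}, (X ⟶ Y) → ℝ
  nrm_nonneg : ∀ {X Y : D} (f : X ⟶ Y), 0 ≤ nrm f
  nrm_eq_zero : ∀ {X Y : D} (f : X ⟶ Y), nrm f = 0 → f = 0
  nrm_add : ∀ {X Y : D} (f g : X ⟶ Y), nrm (f + g) ≤ nrm f + nrm g
  nrm_smul : ∀ {X Y : D} (z : ℂ) (f : X ⟶ Y), nrm (z • f) = ‖z‖ * nrm f
  nrm_comp : ∀ {X Y Z : D} (f : X ⟶ Y) (g : Y ⟶ Z), nrm (f ≫ g) ≤ nrm f * nrm g
  complete : ∀ {X Y : D} (w : ℕ → (X ⟶ Y)),
    (∀ ε : ℝ, 0 < ε → ∃ K : ℕ, ∀ m n : ℕ, K ≤ m → K ≤ n → nrm (w m - w n) < ε) →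
    ∃ f : X ⟶ Y, ∀ ε : ℝ, 0 < ε → ∃ K : ℕ, ∀ n : ℕ, K ≤ n → nrm (w n - f) < ε
  nrm_comp_dag : ∀ {X Y : D} (f : X ⟶ Y), nrm (f ≫ dag f) = nrm f ^ 2
  positive : ∀ {X Y : D} (f : X ⟶ Y), ∃ g : X ⟶ X, f ≫ dag f = g ≫ dag g
  dag_tensor : ∀ {X Y X' Y' : D} (f : X ⟶ X') (g : Y ⟶ Y'), dag (f ⊗ₘ g) = dag f ⊗ₘ dag g
  dag_associator : ∀ X Y Z : D, dag (α_ X Y Z).hom = (α_ X Y Z).inv
  dag_leftUnitor : ∀ X : D, dag (λ_ X).hom = (λ_ X).inv
  dag_rightUnitor : ∀ X : D, dag (ρ_ X).hom = (ρ_ X).inv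

end Struct

/-- The braided category C is unitary: it is equivalent, by a C-linear braided monoidal equivalence
F, to a braided C*-tensor category D (with unitary associator, unit constraints and braiding). -/
def IsUnitaryBraided (C : Type u) [Category.{v} C] [Preadditive C] [Linear ℂ C]
    [MonoidalCategory C] [BraidedCategory C] : Prop :=
  ∃ (D : Type (max (max 1 u) v)) (_ : Category.{v} D) (_ : Preadditive D) (_ : Linear ℂ D)
    (_ : MonoidalCategory D) (_ : MonoidalPreadditive D) (_ : MonoidalLinear ℂ D)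
    (_ : BraidedCategory D) (s : CStarTensorStructure D) (F : D ⥤ C) (_ : F.Braided),
    (∀ X Y : D, s.dag (β_ X Y).hom = (β_ X Y).inv) ∧
      F.Additive ∧ F.Linear ℂ ∧ F.IsEquivalence

section GaugeSec

variable {C : Type u} [Category.{v} C] [Preadditive C] [Linear ℂ C] [MonoidalCategory C] {r : ℕ}

/-- A gauge: a basis of every space Hom (S c, S a ⊗ S b). -/
abbrev Gauge (S : Fin r → C) : Type v :=
  ∀ a b c : Fin r, Module.Basis (Fin (Module.finrank ℂ (S c ⟶ S a ⊗ S b))) ℂ (S c ⟶ S a ⊗ S b)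

/-- Indices of the product basis of the sum over e of V^{ab}_e ⊗ V^{ec}_d. -/
abbrev LeftIx (S : Fin r → C) (a b c d : Fin r) : Type :=
  Σ e : Fin r, Fin (Module.finrank ℂ (S e ⟶ S a ⊗ S b)) ×
    Fin (Module.finrank ℂ (S d ⟶ S e ⊗ S c))

/-- Indices of the product basis of the sum over f of V^{bc}_f ⊗ V^{af}_d. -/
abbrev RightIx (S : Fin r → C) (a b c d : Fin r) : Type :=
  Σ f : Fin r, Fin (Module.finrank ℂ (S f ⟶ S b ⊗ S c)) ×
    Fin (Module.finrank ℂ (S d ⟶ S a ⊗ S f))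

/-- The product basis vector, seen as a morphism S d ⟶ (S a ⊗ S b) ⊗ S c. -/
def leftVec (S : Fin r → C) (B : Gauge S) (a b c d : Fin r) (y : LeftIx S a b c d) :
    S d ⟶ (S a ⊗ S b) ⊗ S c :=
  B y.1 c d y.2.2 ≫ (B a b y.1 y.2.1 ▷ S c)

/-- The product basis vector, seen as a morphism S d ⟶ S a ⊗ (S b ⊗ S c). -/
def rightVec (S : Fin r → C) (B : Gauge S) (a b c d : Fin r) (x : RightIx S a b c d) :
    S d ⟶ S a ⊗ (S b ⊗ S c) :=
  B a x.1 d x.2.2 ≫ (S a ◁ B b c x.1 x.2.1)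

/-- M is the F-matrix F^{abc}_d in the gauge B: the matrix, in the product bases, of composition
with the associator. -/
def IsFMatrix (S : Fin r → C) (B : Gauge S) (a b c d : Fin r)
    (M : Matrix (RightIx S a b c d) (LeftIx S a b c d) ℂ) : Prop :=
  ∀ y, leftVec S B a b c d y ≫ (α_ (S a) (S b) (S c)).hom =
    ∑ x, M x y • rightVec S B a b c d x

/-- All F-matrices are unitary in the gauge B. -/
def UnitaryFMatrices (S : Fin r → C) (B : Gauge S) : Prop :=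
  ∀ a b c d : Fin r, ∃ M : Matrix (RightIx S a b c d) (LeftIx S a b c d) ℂ,
    IsFMatrix S B a b c d M ∧ M.conjTranspose * M = 1 ∧ M * M.conjTranspose = 1

end GaugeSec

section Schur

variable {C : Type u} [Category.{v} C] [Preadditive C] [Linear ℂ C] {r : ℕ}

/-- Schur property of the family of simples -/
structure Sch (S : Fin r → C) : Prop where
  hid : ∀ i (f : S i ⟶ S i), ∃ z : ℂ, f = z • 𝟙 (S i)
  hne : ∀ i, 𝟙 (S i) ≠ 0
  hor : ∀ i j, i ≠ j → ∀ f : S i ⟶ S j, f = 0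

variable {S : Fin r → C} (hS : Sch S)

/-- scalar of an endomorphism of a simple -/
def scal {i : Fin r} (f : S i ⟶ S i) : ℂ := by
  classical
  exact if h : ∃ z : ℂ, f = z • 𝟙 (S i) then h.choose else 0

include hS

lemma scal_spec {i : Fin r} (f : S i ⟶ S i) : f = scal f • 𝟙 (S i) := by
  have h := hS.hid i f
  unfold scal
  rw [dif_pos h]
  exact h.choose_spec

lemma smul_id_inj {i : Fin r} {z w : ℂ} (h : z • 𝟙 (S i) = w • 𝟙 (S i)) : z = w := by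
  by_contra hne
  have h1 : (z - w) • 𝟙 (S i) = 0 := by rw [sub_smul, h, sub_self]
  rcases smul_eq_zero.1 h1 with h2 | h2
  · exact hne (sub_eq_zero.1 h2)
  · exact hS.hne i h2

lemma scal_smul_id {i : Fin r} (z : ℂ) : scal (z • 𝟙 (S i)) = z :=
  smul_id_inj hS (scal_spec hS _).symm

lemma scal_id {i : Fin r} : scal (𝟙 (S i)) = 1 := by
  have := scal_smul_id hS (i := i) 1
  rwa [one_smul] at this

lemma scal_zero {i : Fin r} : scal (0 : S i ⟶ S i) = 0 := by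
  have := scal_smul_id hS (i := i) 0
  rwa [zero_smul] at this

lemma scal_add {i : Fin r} (f g : S i ⟶ S i) : scal (f + g) = scal f + scal g := by
  apply smul_id_inj hS (i := i)
  rw [← scal_spec hS, add_smul, ← scal_spec hS, ← scal_spec hS]

lemma scal_smul {i : Fin r} (z : ℂ) (f : S i ⟶ S i) : scal (z • f) = z * scal f := by
  apply smul_id_inj hS (i := i)
  rw [← scal_spec hS, mul_smul, ← scal_spec hS]

lemma scal_comp {i : Fin r} (f g : S i ⟶ S i) : scal (f ≫ g) = scal f * scal g := by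
  apply smul_id_inj hS (i := i)
  rw [← scal_spec hS, mul_smul, ← scal_spec hS]
  conv_lhs => rw [scal_spec hS f]
  rw [Linear.smul_comp, Category.id_comp]

lemma scal_sum {i : Fin r} {J : Type} (s : Finset J) (f : J → (S i ⟶ S i)) :
    scal (∑ j ∈ s, f j) = ∑ j ∈ s, scal (f j) := by
  classical
  induction s using Finset.induction_on with
  | empty => simpa using scal_zero hS
  | insert a s ha ih => rw [Finset.sum_insert ha, Finset.sum_insert ha, scal_add hS, ih]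

end Schur

section Res

variable {C : Type u} [Category.{v} C] [Preadditive C] [Linear ℂ C] {r : ℕ}

/-- an object with orthonormal bases of the spaces `Hom (S i) X` -/
structure Res (S : Fin r → C) where
  X : C
  ι : Fin r → Type
  [fin : ∀ i, Fintype (ι i)]
  [dec : ∀ i, DecidableEq (ι i)]
  b : ∀ i, ι i → (S i ⟶ X)
  p : ∀ i, ι i → (X ⟶ S i)
  bp : ∀ i m n, b i m ≫ p i n = if m = n then 𝟙 (S i) else 0
  pb : ∑ i, ∑ m, p i m ≫ b i m = 𝟙 X

attribute [instance] Res.fin Res.dec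

variable {S : Fin r → C}

/-- coefficient matrices -/
def cf (X Y : Res S) (f : X.X ⟶ Y.X) (i : Fin r) : Matrix (Y.ι i) (X.ι i) ℂ :=
  fun n m => scal (X.b i m ≫ f ≫ Y.p i n)

/-- the morphism with given coefficient matrices -/
def mk (X Y : Res S) (M : ∀ i, Matrix (Y.ι i) (X.ι i) ℂ) : X.X ⟶ Y.X :=
  ∑ i, ∑ n, ∑ m, M i n m • (X.p i m ≫ Y.b i n)

variable (hS : Sch S)
include hS

lemma b_p_ne (X : Res S) {i j : Fin r} (h : i ≠ j) (m : X.ι i) (n : X.ι j) :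
    X.b i m ≫ X.p j n = 0 := hS.hor i j h _

lemma vec_expand (Y : Res S) {i : Fin r} (g : S i ⟶ Y.X) :
    g = ∑ n, scal (g ≫ Y.p i n) • Y.b i n := by
  have h1 : g = ∑ j, ∑ n, (g ≫ Y.p j n) ≫ Y.b j n := by
    have h0 : g = g ≫ ∑ j, ∑ n, Y.p j n ≫ Y.b j n := by rw [Y.pb, Category.comp_id]
    conv_lhs => rw [h0]
    simp only [Preadditive.comp_sum, Category.assoc]
  rw [Finset.sum_eq_single i] at h1
  · conv_lhs => rw [h1]
    refine Finset.sum_congr rfl (fun n _ => ?_)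
    conv_lhs => rw [scal_spec hS (g ≫ Y.p i n)]
    rw [Linear.smul_comp, Category.id_comp]
  · intro j _ hj
    refine Finset.sum_eq_zero (fun n _ => ?_)
    rw [hS.hor i j (Ne.symm hj) (g ≫ Y.p j n), zero_comp]
  · simp

lemma b_comp (X Y : Res S) (f : X.X ⟶ Y.X) (i : Fin r) (m : X.ι i) :
    X.b i m ≫ f = ∑ n, cf X Y f i n m • Y.b i n := by
  have := vec_expand hS Y (X.b i m ≫ f)
  simp only [Category.assoc] at this
  exact this

lemma expand (X Y : Res S) (f : X.X ⟶ Y.X) :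
    f = ∑ i, ∑ n, ∑ m, cf X Y f i n m • (X.p i m ≫ Y.b i n) := by
  have h1 : f = ∑ i, ∑ m, X.p i m ≫ (X.b i m ≫ f) := by
    have h0 : f = (∑ i, ∑ m, X.p i m ≫ X.b i m) ≫ f := by rw [X.pb, Category.id_comp]
    conv_lhs => rw [h0]
    simp only [Preadditive.sum_comp, Category.assoc]
  conv_lhs => rw [h1]
  refine Finset.sum_congr rfl (fun i _ => ?_)
  rw [Finset.sum_comm]
  refine Finset.sum_congr rfl (fun m _ => ?_)
  rw [b_comp hS X Y f i m, Preadditive.comp_sum]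
  simp only [Linear.comp_smul]

lemma cf_ext (X Y : Res S) {f g : X.X ⟶ Y.X} (h : ∀ i, cf X Y f i = cf X Y g i) : f = g := by
  rw [expand hS X Y f, expand hS X Y g]
  simp only [h]

lemma cf_mk (X Y : Res S) (M : ∀ i, Matrix (Y.ι i) (X.ι i) ℂ) (i : Fin r) :
    cf X Y (mk X Y M) i = M i := by
  ext n m
  have h1 : X.b i m ≫ mk X Y M = ∑ n, M i n m • Y.b i n := by
    unfold mk
    simp only [Preadditive.comp_sum, Linear.comp_smul]
    rw [Finset.sum_eq_single i]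
    · refine Finset.sum_congr rfl (fun n _ => ?_)
      rw [Finset.sum_eq_single m]
      · rw [← Category.assoc, X.bp, if_pos rfl, Category.id_comp]
      · intro m' _ hm'
        rw [← Category.assoc, X.bp, if_neg (Ne.symm hm'), zero_comp, smul_zero]
      · simp
    · intro j _ hj
      refine Finset.sum_eq_zero (fun n _ => Finset.sum_eq_zero (fun m' _ => ?_))
      rw [← Category.assoc, hS.hor i j (Ne.symm hj) (X.b i m ≫ X.p j m'), zero_comp, smul_zero]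
    · simp
  unfold cf
  rw [← Category.assoc, h1, Preadditive.sum_comp, scal_sum hS, Finset.sum_eq_single n]
  · rw [Linear.smul_comp, Y.bp, if_pos rfl, scal_smul_id hS]
  · intro n' _ hn'
    rw [Linear.smul_comp, Y.bp, if_neg hn', smul_zero, scal_zero hS]
  · simp

lemma cf_comp (X Y Z : Res S) (f : X.X ⟶ Y.X) (g : Y.X ⟶ Z.X) (i : Fin r) :
    cf X Z (f ≫ g) i = cf Y Z g i * cf X Y f i := by
  ext l m
  rw [Matrix.mul_apply]
  change scal (X.b i m ≫ (f ≫ g) ≫ Z.p i l) = _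
  have : X.b i m ≫ (f ≫ g) ≫ Z.p i l = ∑ n, cf X Y f i n m • (Y.b i n ≫ g ≫ Z.p i l) := by
    have h := congrArg (fun t => t ≫ g ≫ Z.p i l) (b_comp hS X Y f i m)
    simp only [Category.assoc, Preadditive.sum_comp, Linear.smul_comp] at h ⊢
    exact h
  rw [this, scal_sum hS]
  refine Finset.sum_congr rfl (fun n _ => ?_)
  rw [scal_smul hS, mul_comm]
  rfl

lemma cf_id (X : Res S) (i : Fin r) : cf X X (𝟙 X.X) i = 1 := by
  ext n m
  unfold cf
  rw [Category.id_comp, X.bp, Matrix.one_apply]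
  by_cases h : m = n
  · rw [if_pos h, if_pos h.symm, scal_id hS]
  · rw [if_neg h, if_neg (Ne.symm h), scal_zero hS]

lemma cf_add (X Y : Res S) (f g : X.X ⟶ Y.X) (i : Fin r) :
    cf X Y (f + g) i = cf X Y f i + cf X Y g i := by
  ext n m
  simp only [cf, Preadditive.add_comp, Preadditive.comp_add, scal_add hS, Matrix.add_apply]

lemma cf_smul (X Y : Res S) (z : ℂ) (f : X.X ⟶ Y.X) (i : Fin r) :
    cf X Y (z • f) i = z • cf X Y f i := by
  ext n m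
  simp only [cf, Linear.smul_comp, Linear.comp_smul, scal_smul hS, Matrix.smul_apply, smul_eq_mul]

omit hS in
/-- the dagger -/
def dag (X Y : Res S) (f : X.X ⟶ Y.X) : Y.X ⟶ X.X :=
  mk Y X (fun i => (cf X Y f i).conjTranspose)

lemma cf_dag (X Y : Res S) (f : X.X ⟶ Y.X) (i : Fin r) :
    cf Y X (dag X Y f) i = (cf X Y f i).conjTranspose := by
  unfold dag; rw [cf_mk hS]

lemma dag_dag (X Y : Res S) (f : X.X ⟶ Y.X) : dag Y X (dag X Y f) = f :=
  cf_ext hS X Y (fun i => by rw [cf_dag hS, cf_dag hS, Matrix.conjTranspose_conjTranspose])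

lemma dag_comp (X Y Z : Res S) (f : X.X ⟶ Y.X) (g : Y.X ⟶ Z.X) :
    dag X Z (f ≫ g) = dag Y Z g ≫ dag X Y f :=
  cf_ext hS Z X (fun i => by
    rw [cf_dag hS, cf_comp hS X Y Z, cf_comp hS Z Y X, cf_dag hS, cf_dag hS,
      Matrix.conjTranspose_mul])

lemma dag_add (X Y : Res S) (f g : X.X ⟶ Y.X) : dag X Y (f + g) = dag X Y f + dag X Y g :=
  cf_ext hS Y X (fun i => by
    rw [cf_dag hS, cf_add hS, cf_add hS, cf_dag hS, cf_dag hS, Matrix.conjTranspose_add])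

lemma dag_smul (X Y : Res S) (z : ℂ) (f : X.X ⟶ Y.X) :
    dag X Y (z • f) = (starRingEnd ℂ z) • dag X Y f :=
  cf_ext hS Y X (fun i => by
    rw [cf_dag hS, cf_smul hS, cf_smul hS, cf_dag hS, Matrix.conjTranspose_smul]; rfl)

open scoped ComplexOrder MatrixOrder in
/-- positivity -/
lemma dag_pos (X Y : Res S) (f : X.X ⟶ Y.X) :
    ∃ g : X.X ⟶ X.X, f ≫ dag X Y f = g ≫ dag X X g := by
  have h : ∀ i, ∃ Q : Matrix (X.ι i) (X.ι i) ℂ,
      (cf X Y f i).conjTranspose * cf X Y f i = Q.conjTranspose * Q := by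
    intro i
    have h1 := Matrix.posSemidef_conjTranspose_mul_self (cf X Y f i)
    exact CStarAlgebra.nonneg_iff_eq_star_mul_self.mp h1.nonneg
  choose Q hQ using h
  refine ⟨mk X X Q, cf_ext hS X X (fun i => ?_)⟩
  rw [cf_comp hS X Y X, cf_comp hS X X X, cf_dag hS, cf_dag hS, cf_mk hS, hQ]

open scoped Matrix.Norms.L2Operator in
omit hS in
/-- the norm -/
def nrm (X Y : Res S) (f : X.X ⟶ Y.X) : ℝ := ‖(fun i => ‖cf X Y f i‖ : Fin r → ℝ)‖

open scoped Matrix.Norms.L2Operator in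
lemma le_nrm (X Y : Res S) (f : X.X ⟶ Y.X) (i : Fin r) : ‖cf X Y f i‖ ≤ nrm X Y f := by
  have := norm_le_pi_norm (fun i => ‖cf X Y f i‖ : Fin r → ℝ) i
  rw [Real.norm_of_nonneg (norm_nonneg _)] at this
  exact this

open scoped Matrix.Norms.L2Operator in
lemma nrm_le (X Y : Res S) (f : X.X ⟶ Y.X) {c : ℝ} (hc : 0 ≤ c) (h : ∀ i, ‖cf X Y f i‖ ≤ c) :
    nrm X Y f ≤ c := by
  refine (pi_norm_le_iff_of_nonneg hc).2 (fun i => ?_)
  simpa using h i

omit hS in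
lemma nrm_nonneg (X Y : Res S) (f : X.X ⟶ Y.X) : 0 ≤ nrm X Y f := norm_nonneg _

open scoped Matrix.Norms.L2Operator in
lemma nrm_add (X Y : Res S) (f g : X.X ⟶ Y.X) : nrm X Y (f + g) ≤ nrm X Y f + nrm X Y g := by
  refine nrm_le hS X Y _ (add_nonneg (nrm_nonneg X Y f) (nrm_nonneg X Y g)) (fun i => ?_)
  rw [cf_add hS]
  exact (norm_add_le _ _).trans (add_le_add (le_nrm hS X Y f i) (le_nrm hS X Y g i))

open scoped Matrix.Norms.L2Operator in
lemma nrm_smul (X Y : Res S) (z : ℂ) (f : X.X ⟶ Y.X) : nrm X Y (z • f) = ‖z‖ * nrm X Y f := by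
  unfold nrm
  have : (fun i => ‖cf X Y (z • f) i‖ : Fin r → ℝ) = ‖z‖ • (fun i => ‖cf X Y f i‖ : Fin r → ℝ) := by
    ext i
    rw [cf_smul hS, norm_smul]; rfl
  rw [this, norm_smul, Real.norm_of_nonneg (norm_nonneg z)]

open scoped Matrix.Norms.L2Operator in
lemma nrm_eq_zero (X Y : Res S) (f : X.X ⟶ Y.X) (h : nrm X Y f = 0) : f = 0 := by
  refine cf_ext hS X Y (fun i => ?_)
  have h1 : ‖cf X Y f i‖ ≤ 0 := h ▸ le_nrm hS X Y f i
  have h2 : cf X Y f i = 0 := norm_le_zero_iff.1 h1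
  rw [h2]
  ext n m
  simp [cf, scal_zero hS]

open scoped Matrix.Norms.L2Operator in
lemma nrm_comp (X Y Z : Res S) (f : X.X ⟶ Y.X) (g : Y.X ⟶ Z.X) :
    nrm X Z (f ≫ g) ≤ nrm X Y f * nrm Y Z g := by
  refine nrm_le hS X Z _ (mul_nonneg (nrm_nonneg X Y f) (nrm_nonneg Y Z g)) (fun i => ?_)
  rw [cf_comp hS X Y Z, mul_comm]
  exact (Matrix.l2_opNorm_mul _ _).trans (mul_le_mul (le_nrm hS Y Z g i) (le_nrm hS X Y f i)
    (norm_nonneg _) (nrm_nonneg Y Z g))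

open scoped Matrix.Norms.L2Operator in
lemma nrm_sq (X Y : Res S) (f : X.X ⟶ Y.X) : nrm X X (f ≫ dag X Y f) = nrm X Y f ^ 2 := by
  have key : ∀ i, ‖cf X X (f ≫ dag X Y f) i‖ = ‖cf X Y f i‖ ^ 2 := by
    intro i
    rw [cf_comp hS X Y X, cf_dag hS, Matrix.l2_opNorm_conjTranspose_mul_self, sq]
  apply le_antisymm
  · refine nrm_le hS X X _ (sq_nonneg _) (fun i => ?_)
    rw [key]
    exact pow_le_pow_left₀ (norm_nonneg _) (le_nrm hS X Y f i) 2
  · have h1 : nrm X Y f ≤ Real.sqrt (nrm X X (f ≫ dag X Y f)) := by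
      refine nrm_le hS X Y _ (Real.sqrt_nonneg _) (fun i => ?_)
      apply Real.le_sqrt_of_sq_le
      rw [← key]
      exact le_nrm hS X X _ i
    calc nrm X Y f ^ 2 ≤ Real.sqrt (nrm X X (f ≫ dag X Y f)) ^ 2 :=
          pow_le_pow_left₀ (nrm_nonneg X Y f) h1 2
      _ = _ := Real.sq_sqrt (nrm_nonneg X X _)

end Res


section Tensor

variable {C : Type u} [Category.{v} C] [Preadditive C] [Linear ℂ C] [MonoidalCategory C]
  [MonoidalPreadditive C] [MonoidalLinear ℂ C] {r : ℕ}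

/-- resolutions of the products of simples -/
structure GRes (S : Fin r → C) (N : Fin r → Fin r → Fin r → ℕ) where
  e : ∀ a b c, Fin (N a b c) → (S c ⟶ S a ⊗ S b)
  q : ∀ a b c, Fin (N a b c) → (S a ⊗ S b ⟶ S c)
  eq : ∀ a b c s t, e a b c s ≫ q a b c t = if s = t then 𝟙 (S c) else 0
  qe : ∀ a b, ∑ c, ∑ s, q a b c s ≫ e a b c s = 𝟙 (S a ⊗ S b)

variable {S : Fin r → C} {N : Fin r → Fin r → Fin r → ℕ}

variable (hS : Sch S)

lemma bb_same (X : Res S) (x : Σ a, X.ι a) : X.b x.1 x.2 ≫ X.p x.1 x.2 = 𝟙 (S x.1) := by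
  rw [X.bp, if_pos rfl]

include hS in
lemma bb_ne (X : Res S) (x y : Σ a, X.ι a) (h : x ≠ y) : X.b x.1 x.2 ≫ X.p y.1 y.2 = 0 := by
  obtain ⟨a, m⟩ := x
  obtain ⟨b, n⟩ := y
  by_cases hab : a = b
  · subst hab
    rw [X.bp, if_neg]
    rintro rfl
    exact h rfl
  · exact hS.hor a b hab _

lemma pb' (X : Res S) : ∑ x : (Σ a, X.ι a), X.p x.1 x.2 ≫ X.b x.1 x.2 = 𝟙 X.X := by
  rw [Fintype.sum_sigma]
  exact X.pb

/-- tensor product of resolved objects -/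
abbrev tens (G : GRes S N) (X Y : Res S) : Res S where
  X := X.X ⊗ Y.X
  ι d := Σ (u : (Σ a, X.ι a) × (Σ b, Y.ι b)), Fin (N u.1.1 u.2.1 d)
  b d j := G.e j.1.1.1 j.1.2.1 d j.2 ≫ (X.b j.1.1.1 j.1.1.2 ⊗ₘ Y.b j.1.2.1 j.1.2.2)
  p d j := (X.p j.1.1.1 j.1.1.2 ⊗ₘ Y.p j.1.2.1 j.1.2.2) ≫ G.q j.1.1.1 j.1.2.1 d j.2
  bp d j k := by
    obtain ⟨⟨x, y⟩, s⟩ := j
    obtain ⟨⟨x', y'⟩, s'⟩ := k
    simp only [Category.assoc]
    rw [tensorHom_comp_tensorHom_assoc]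
    by_cases hx : x = x'
    · subst hx
      by_cases hy : y = y'
      · subst hy
        rw [bb_same, bb_same, id_tensorHom_id, Category.id_comp, G.eq]
        by_cases hs : s = s'
        · subst hs; simp
        · rw [if_neg hs, if_neg]
          intro h
          apply hs
          have := eq_of_heq (Sigma.mk.inj h).2
          exact this
      · rw [bb_ne hS Y y y' hy, if_neg]
        · simp
        · intro h
          apply hy
          exact congrArg (fun t => t.1.2) h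
    · rw [bb_ne hS X x x' hx, if_neg]
      · simp
      · intro h
        apply hx
        exact congrArg (fun t => t.1.1) h
  pb := by
    rw [show (∑ d, ∑ j : (Σ (u : (Σ a, X.ι a) × (Σ b, Y.ι b)), Fin (N u.1.1 u.2.1 d)),
      ((X.p j.1.1.1 j.1.1.2 ⊗ₘ Y.p j.1.2.1 j.1.2.2) ≫ G.q j.1.1.1 j.1.2.1 d j.2) ≫
      G.e j.1.1.1 j.1.2.1 d j.2 ≫ (X.b j.1.1.1 j.1.1.2 ⊗ₘ Y.b j.1.2.1 j.1.2.2)) =
      ∑ u : (Σ a, X.ι a) × (Σ b, Y.ι b), (X.p u.1.1 u.1.2 ⊗ₘ Y.p u.2.1 u.2.2) ≫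
        (∑ d, ∑ s, G.q u.1.1 u.2.1 d s ≫ G.e u.1.1 u.2.1 d s) ≫
        (X.b u.1.1 u.1.2 ⊗ₘ Y.b u.2.1 u.2.2) from ?_]
    · simp only [G.qe, Category.id_comp, tensorHom_comp_tensorHom]
      rw [Fintype.sum_prod_type]
      simp only [← tensor_sum]
      rw [← sum_tensor, pb', pb', id_tensorHom_id]
    · simp only [Fintype.sum_sigma, Preadditive.comp_sum, Preadditive.sum_comp, Category.assoc]
      rw [Finset.sum_comm]

variable (G : GRes S N)

include hS in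
lemma mid_scal (X X' : Res S) (f : X.X ⟶ X'.X) (a : Fin r) (m : X.ι a) (m' : X'.ι a) :
    X.b a m ≫ f ≫ X'.p a m' = cf X X' f a m' m • 𝟙 (S a) :=
  scal_spec hS _

include hS in
lemma cf_tensor_same (X Y X' Y' : Res S) (f : X.X ⟶ X'.X) (g : Y.X ⟶ Y'.X) (d a b : Fin r)
    (m : X.ι a) (n : Y.ι b) (m' : X'.ι a) (n' : Y'.ι b) (s s' : Fin (N a b d)) :
    cf (tens hS G X Y) (tens hS G X' Y') (f ⊗ₘ g) d ⟨(⟨a, m'⟩, ⟨b, n'⟩), s'⟩
      ⟨(⟨a, m⟩, ⟨b, n⟩), s⟩ =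
      cf X X' f a m' m * cf Y Y' g b n' n * (if s = s' then 1 else 0) := by
  change scal ((G.e a b d s ≫ (X.b a m ⊗ₘ Y.b b n)) ≫ (f ⊗ₘ g) ≫
    (X'.p a m' ⊗ₘ Y'.p b n') ≫ G.q a b d s') = _
  have h1 : (G.e a b d s ≫ (X.b a m ⊗ₘ Y.b b n)) ≫ (f ⊗ₘ g) ≫
    (X'.p a m' ⊗ₘ Y'.p b n') ≫ G.q a b d s' =
    (cf X X' f a m' m * cf Y Y' g b n' n) • (G.e a b d s ≫ G.q a b d s') := by
    have h2 : (X.b a m ⊗ₘ Y.b b n) ≫ (f ⊗ₘ g) ≫ (X'.p a m' ⊗ₘ Y'.p b n') =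
        (cf X X' f a m' m * cf Y Y' g b n' n) • 𝟙 (S a ⊗ S b) := by
      rw [tensorHom_comp_tensorHom, tensorHom_comp_tensorHom, mid_scal hS, mid_scal hS]
      rw [MonoidalCategory.tensorHom_def]
      simp [smul_smul, mul_comm]
    calc _ = G.e a b d s ≫ ((X.b a m ⊗ₘ Y.b b n) ≫ (f ⊗ₘ g) ≫ (X'.p a m' ⊗ₘ Y'.p b n')) ≫
          G.q a b d s' := by simp only [Category.assoc]
      _ = _ := by rw [h2]; simp
  rw [h1, scal_smul hS, G.eq]
  split_ifs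
  · rw [scal_id hS]
  · rw [scal_zero hS]

include hS in
lemma cf_tensor_ne (X Y X' Y' : Res S) (f : X.X ⟶ X'.X) (g : Y.X ⟶ Y'.X) (d : Fin r)
    (j : (tens hS G X Y).ι d) (j' : (tens hS G X' Y').ι d)
    (h : j.1.1.1 ≠ j'.1.1.1 ∨ j.1.2.1 ≠ j'.1.2.1) :
    cf (tens hS G X Y) (tens hS G X' Y') (f ⊗ₘ g) d j' j = 0 := by
  change scal ((G.e j.1.1.1 j.1.2.1 d j.2 ≫ (X.b j.1.1.1 j.1.1.2 ⊗ₘ Y.b j.1.2.1 j.1.2.2)) ≫
    (f ⊗ₘ g) ≫ (X'.p j'.1.1.1 j'.1.1.2 ⊗ₘ Y'.p j'.1.2.1 j'.1.2.2) ≫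
    G.q j'.1.1.1 j'.1.2.1 d j'.2) = 0
  have h1 : (G.e j.1.1.1 j.1.2.1 d j.2 ≫ (X.b j.1.1.1 j.1.1.2 ⊗ₘ Y.b j.1.2.1 j.1.2.2)) ≫
    (f ⊗ₘ g) ≫ (X'.p j'.1.1.1 j'.1.1.2 ⊗ₘ Y'.p j'.1.2.1 j'.1.2.2) ≫
    G.q j'.1.1.1 j'.1.2.1 d j'.2 = G.e j.1.1.1 j.1.2.1 d j.2 ≫
    ((X.b j.1.1.1 j.1.1.2 ≫ f ≫ X'.p j'.1.1.1 j'.1.1.2) ⊗ₘ
      (Y.b j.1.2.1 j.1.2.2 ≫ g ≫ Y'.p j'.1.2.1 j'.1.2.2)) ≫ G.q j'.1.1.1 j'.1.2.1 d j'.2 := by
    simp only [Category.assoc, ← tensorHom_comp_tensorHom]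
  rw [h1]
  rcases h with h | h
  · rw [hS.hor _ _ h (X.b j.1.1.1 j.1.1.2 ≫ f ≫ X'.p j'.1.1.1 j'.1.1.2)]
    simp [scal_zero hS]
  · rw [hS.hor _ _ h (Y.b j.1.2.1 j.1.2.2 ≫ g ≫ Y'.p j'.1.2.1 j'.1.2.2)]
    simp [scal_zero hS]

lemma dag_tensor (X Y X' Y' : Res S) (f : X.X ⟶ X'.X) (g : Y.X ⟶ Y'.X) :
    dag (tens hS G X Y) (tens hS G X' Y') (f ⊗ₘ g) = (dag X X' f ⊗ₘ dag Y Y' g) := by
  refine cf_ext hS _ _ (fun d => ?_)
  rw [cf_dag hS]
  ext j j'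
  rw [Matrix.conjTranspose_apply]
  by_cases h : j.1.1.1 ≠ j'.1.1.1 ∨ j.1.2.1 ≠ j'.1.2.1
  · rw [cf_tensor_ne hS G X Y X' Y' f g d j j' h]
    have h' : j'.1.1.1 ≠ j.1.1.1 ∨ j'.1.2.1 ≠ j.1.2.1 := by
      rcases h with h | h
      · exact Or.inl (Ne.symm h)
      · exact Or.inr (Ne.symm h)
    rw [cf_tensor_ne hS G X' Y' X Y _ _ d j' j h', star_zero]
  · push Not at h
    obtain ⟨⟨⟨a, m⟩, ⟨b, n⟩⟩, s⟩ := j
    obtain ⟨⟨⟨a', m'⟩, ⟨b', n'⟩⟩, s'⟩ := j'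
    obtain ⟨h1, h2⟩ := h
    simp only at h1 h2
    subst h1 h2
    rw [cf_tensor_same hS, cf_tensor_same hS, cf_dag hS, cf_dag hS]
    simp only [Matrix.conjTranspose_apply, star_mul']
    by_cases hs : s = s'
    · rw [if_pos hs, if_pos hs.symm, star_one]
    · rw [if_neg hs, if_neg (Ne.symm hs), star_zero]

/-- entries of the F-matrices -/
def Fent (a b c d e : Fin r) (s : Fin (N a b e)) (t : Fin (N e c d)) (f : Fin r)
    (s' : Fin (N b c f)) (t' : Fin (N a f d)) : ℂ :=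
  scal (G.e e c d t ≫ (G.e a b e s ▷ S c) ≫ (α_ (S a) (S b) (S c)).hom ≫
    (S a ◁ G.q b c f s') ≫ G.q a f d t')

/-- entries of the inverse F-matrices -/
def Gent (a b c d e : Fin r) (s : Fin (N a b e)) (t : Fin (N e c d)) (f : Fin r)
    (s' : Fin (N b c f)) (t' : Fin (N a f d)) : ℂ :=
  scal (G.e a f d t' ≫ (S a ◁ G.e b c f s') ≫ (α_ (S a) (S b) (S c)).inv ≫
    (G.q a b e s ▷ S c) ≫ G.q e c d t)

/-- unitarity of the F-matrices -/
def FUnit : Prop := ∀ a b c d e s t f s' t',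
  Gent G a b c d e s t f s' t' = star (Fent G a b c d e s t f s' t')

lemma cf_assoc_hom (X Y Z : Res S) (d e : Fin r) (x : Σ a, X.ι a) (y : Σ b, Y.ι b)
    (s : Fin (N x.1 y.1 e)) (z : Σ c, Z.ι c) (t : Fin (N e z.1 d))
    (x' : Σ a, X.ι a) (f : Fin r) (y' : Σ b, Y.ι b) (z' : Σ c, Z.ι c)
    (s' : Fin (N y'.1 z'.1 f)) (t' : Fin (N x'.1 f d)) :
    cf (tens hS G (tens hS G X Y) Z) (tens hS G X (tens hS G Y Z)) (α_ X.X Y.X Z.X).hom d
      ⟨(x', ⟨f, ⟨(y', z'), s'⟩⟩), t'⟩ ⟨(⟨e, ⟨(x, y), s⟩⟩, z), t⟩ =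
    scal (G.e e z.1 d t ≫ (G.e x.1 y.1 e s ▷ S z.1) ≫ (α_ _ _ _).hom ≫
      ((X.b x.1 x.2 ≫ X.p x'.1 x'.2) ⊗ₘ ((Y.b y.1 y.2 ≫ Y.p y'.1 y'.2) ⊗ₘ
          (Z.b z.1 z.2 ≫ Z.p z'.1 z'.2))) ≫
      (S x'.1 ◁ G.q y'.1 z'.1 f s') ≫ G.q x'.1 f d t') := by
  change scal ((G.e e z.1 d t ≫ ((G.e x.1 y.1 e s ≫ (X.b x.1 x.2 ⊗ₘ Y.b y.1 y.2)) ⊗ₘ
    Z.b z.1 z.2)) ≫ (α_ X.X Y.X Z.X).hom ≫
    (X.p x'.1 x'.2 ⊗ₘ ((Y.p y'.1 y'.2 ⊗ₘ Z.p z'.1 z'.2) ≫ G.q y'.1 z'.1 f s')) ≫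
    G.q x'.1 f d t') = _
  congr 1
  have h1 : ((G.e x.1 y.1 e s ≫ (X.b x.1 x.2 ⊗ₘ Y.b y.1 y.2)) ⊗ₘ Z.b z.1 z.2) =
      (G.e x.1 y.1 e s ▷ S z.1) ≫ ((X.b x.1 x.2 ⊗ₘ Y.b y.1 y.2) ⊗ₘ Z.b z.1 z.2) := by
    rw [← tensorHom_id, tensorHom_comp_tensorHom, Category.id_comp]
  have h2 : (X.p x'.1 x'.2 ⊗ₘ ((Y.p y'.1 y'.2 ⊗ₘ Z.p z'.1 z'.2) ≫ G.q y'.1 z'.1 f s')) =
      (X.p x'.1 x'.2 ⊗ₘ (Y.p y'.1 y'.2 ⊗ₘ Z.p z'.1 z'.2)) ≫ (S x'.1 ◁ G.q y'.1 z'.1 f s') := by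
    rw [← id_tensorHom, tensorHom_comp_tensorHom, Category.comp_id]
  rw [h1, h2]
  simp only [Category.assoc, ← tensorHom_comp_tensorHom]
  rw [associator_naturality_assoc]

lemma cf_assoc_inv (X Y Z : Res S) (d e : Fin r) (x : Σ a, X.ι a) (y : Σ b, Y.ι b)
    (s : Fin (N x.1 y.1 e)) (z : Σ c, Z.ι c) (t : Fin (N e z.1 d))
    (x' : Σ a, X.ι a) (f : Fin r) (y' : Σ b, Y.ι b) (z' : Σ c, Z.ι c)
    (s' : Fin (N y'.1 z'.1 f)) (t' : Fin (N x'.1 f d)) :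
    cf (tens hS G X (tens hS G Y Z)) (tens hS G (tens hS G X Y) Z) (α_ X.X Y.X Z.X).inv d
      ⟨(⟨e, ⟨(x, y), s⟩⟩, z), t⟩ ⟨(x', ⟨f, ⟨(y', z'), s'⟩⟩), t'⟩ =
    scal (G.e x'.1 f d t' ≫ (S x'.1 ◁ G.e y'.1 z'.1 f s') ≫ (α_ _ _ _).inv ≫
      (((X.b x'.1 x'.2 ≫ X.p x.1 x.2) ⊗ₘ (Y.b y'.1 y'.2 ≫ Y.p y.1 y.2)) ⊗ₘ
          (Z.b z'.1 z'.2 ≫ Z.p z.1 z.2)) ≫
      (G.q x.1 y.1 e s ▷ S z.1) ≫ G.q e z.1 d t) := by
  change scal ((G.e x'.1 f d t' ≫ (X.b x'.1 x'.2 ⊗ₘ (G.e y'.1 z'.1 f s' ≫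
    (Y.b y'.1 y'.2 ⊗ₘ Z.b z'.1 z'.2)))) ≫ (α_ X.X Y.X Z.X).inv ≫
    (((X.p x.1 x.2 ⊗ₘ Y.p y.1 y.2) ≫ G.q x.1 y.1 e s) ⊗ₘ Z.p z.1 z.2) ≫
    G.q e z.1 d t) = _
  congr 1
  have h1 : (((X.p x.1 x.2 ⊗ₘ Y.p y.1 y.2) ≫ G.q x.1 y.1 e s) ⊗ₘ Z.p z.1 z.2) =
      ((X.p x.1 x.2 ⊗ₘ Y.p y.1 y.2) ⊗ₘ Z.p z.1 z.2) ≫ (G.q x.1 y.1 e s ▷ S z.1) := by
    rw [← tensorHom_id, tensorHom_comp_tensorHom, Category.comp_id]
  have h2 : (X.b x'.1 x'.2 ⊗ₘ (G.e y'.1 z'.1 f s' ≫ (Y.b y'.1 y'.2 ⊗ₘ Z.b z'.1 z'.2))) =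
      (S x'.1 ◁ G.e y'.1 z'.1 f s') ≫ (X.b x'.1 x'.2 ⊗ₘ (Y.b y'.1 y'.2 ⊗ₘ Z.b z'.1 z'.2)) := by
    rw [← id_tensorHom, tensorHom_comp_tensorHom, Category.id_comp]
  rw [h1, h2]
  simp only [Category.assoc, ← tensorHom_comp_tensorHom]
  rw [associator_inv_naturality_assoc]

lemma dag_assoc (hU : FUnit G) (X Y Z : Res S) :
    dag (tens hS G (tens hS G X Y) Z) (tens hS G X (tens hS G Y Z)) (α_ X.X Y.X Z.X).hom =
      (α_ X.X Y.X Z.X).inv := by
  refine cf_ext hS (tens hS G X (tens hS G Y Z)) (tens hS G (tens hS G X Y) Z) (fun d => ?_)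
  rw [cf_dag hS]
  ext j j'
  rw [Matrix.conjTranspose_apply]
  obtain ⟨⟨⟨e, ⟨⟨x, y⟩, s⟩⟩, z⟩, t⟩ := j
  obtain ⟨⟨x', ⟨f, ⟨⟨y', z'⟩, s'⟩⟩⟩, t'⟩ := j'
  rw [cf_assoc_hom, cf_assoc_inv]
  by_cases hx : x = x'
  · subst hx
    by_cases hy : y = y'
    · subst hy
      by_cases hz : z = z'
      · subst hz
        simp only [bb_same, id_tensorHom_id, Category.id_comp]
        exact (hU x.1 y.1 z.1 d e s t f s' t').symm
      · rw [bb_ne hS Z z z' hz, bb_ne hS Z z' z (Ne.symm hz)]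
        simp [scal_zero hS]
    · rw [bb_ne hS Y y y' hy, bb_ne hS Y y' y (Ne.symm hy)]
      simp [scal_zero hS]
  · rw [bb_ne hS X x x' hx, bb_ne hS X x' x (Ne.symm hx)]
    simp [scal_zero hS]

/-- the unit object, with basis vector `z • θ` -/
abbrev unitRes (i0 : Fin r) (θ : S i0 ≅ 𝟙_ C) (z : ℂ) (hz : z ≠ 0) : Res S where
  X := 𝟙_ C
  ι i := {_x : Unit // i = i0}
  b i h := z • (eqToHom (congrArg S h.2) ≫ θ.hom)
  p i h := z⁻¹ • (θ.inv ≫ eqToHom (congrArg S h.2).symm)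
  bp i m n := by
    obtain ⟨_, hm⟩ := m
    obtain ⟨_, hn⟩ := n
    subst hm
    simp [hz]
  pb := by
    rw [Finset.sum_eq_single i0]
    · rw [Fintype.sum_eq_single (⟨(), rfl⟩ : {_x : Unit // i0 = i0})]
      · simp [hz]
      · intro b hb
        exact absurd (Subsingleton.elim _ _) hb
    · intro i _ hi
      have : IsEmpty {_x : Unit // i = i0} := ⟨fun h => hi h.2⟩
      simp
    · simp

section Units

variable (i0 : Fin r) (θ : S i0 ≅ 𝟙_ C)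

/-- scalars of the left unitors -/
def Lent (d : Fin r) (s : Fin (N i0 d d)) : ℂ :=
  scal (G.e i0 d d s ≫ (θ.hom ▷ S d) ≫ (λ_ (S d)).hom)

def Lent' (d : Fin r) (s : Fin (N i0 d d)) : ℂ :=
  scal ((λ_ (S d)).inv ≫ (θ.inv ▷ S d) ≫ G.q i0 d d s)

/-- scalars of the right unitors -/
def Rent (d : Fin r) (s : Fin (N d i0 d)) : ℂ :=
  scal (G.e d i0 d s ≫ (S d ◁ θ.hom) ≫ (ρ_ (S d)).hom)

def Rent' (d : Fin r) (s : Fin (N d i0 d)) : ℂ :=
  scal ((ρ_ (S d)).inv ≫ (S d ◁ θ.inv) ≫ G.q d i0 d s)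

include hS

lemma Lent_mul (d : Fin r) (s : Fin (N i0 d d)) : Lent G i0 θ d s * Lent' G i0 θ d s = 1 := by
  unfold Lent Lent'
  rw [← scal_comp hS]
  have : (G.e i0 d d s ≫ (θ.hom ▷ S d) ≫ (λ_ (S d)).hom) ≫
      ((λ_ (S d)).inv ≫ (θ.inv ▷ S d) ≫ G.q i0 d d s) = 𝟙 (S d) := by
    simp only [Category.assoc, Iso.hom_inv_id_assoc]
    rw [← comp_whiskerRight_assoc, θ.hom_inv_id, id_whiskerRight, Category.id_comp, G.eq,
      if_pos rfl]
  rw [this, scal_id hS]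

lemma Rent_mul (d : Fin r) (s : Fin (N d i0 d)) : Rent G i0 θ d s * Rent' G i0 θ d s = 1 := by
  unfold Rent Rent'
  rw [← scal_comp hS]
  have : (G.e d i0 d s ≫ (S d ◁ θ.hom) ≫ (ρ_ (S d)).hom) ≫
      ((ρ_ (S d)).inv ≫ (S d ◁ θ.inv) ≫ G.q d i0 d s) = 𝟙 (S d) := by
    simp only [Category.assoc, Iso.hom_inv_id_assoc]
    rw [← MonoidalCategory.whiskerLeft_comp_assoc, θ.hom_inv_id, MonoidalCategory.whiskerLeft_id,
      Category.id_comp, G.eq, if_pos rfl]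
  rw [this, scal_id hS]

lemma e_right (a : Fin r) (s : Fin (N a i0 a)) :
    G.e a i0 a s = Rent G i0 θ a s • ((ρ_ (S a)).inv ≫ (S a ◁ θ.inv)) := by
  have h := scal_spec hS (G.e a i0 a s ≫ (S a ◁ θ.hom) ≫ (ρ_ (S a)).hom)
  have h2 := congrArg (fun t => t ≫ (ρ_ (S a)).inv ≫ (S a ◁ θ.inv)) h
  simp only [Category.assoc, Iso.hom_inv_id_assoc, Linear.smul_comp, Category.id_comp] at h2
  rw [← MonoidalCategory.whiskerLeft_comp, θ.hom_inv_id, MonoidalCategory.whiskerLeft_id,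
    Category.comp_id] at h2
  exact h2

lemma e_left (b : Fin r) (t : Fin (N i0 b b)) :
    G.e i0 b b t = Lent G i0 θ b t • ((λ_ (S b)).inv ≫ (θ.inv ▷ S b)) := by
  have h := scal_spec hS (G.e i0 b b t ≫ (θ.hom ▷ S b) ≫ (λ_ (S b)).hom)
  have h2 := congrArg (fun t => t ≫ (λ_ (S b)).inv ≫ (θ.inv ▷ S b)) h
  simp only [Category.assoc, Iso.hom_inv_id_assoc, Linear.smul_comp, Category.id_comp] at h2
  rw [← comp_whiskerRight, θ.hom_inv_id, id_whiskerRight, Category.comp_id] at h2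
  exact h2

lemma q_left (b : Fin r) (t : Fin (N i0 b b)) :
    G.q i0 b b t = Lent' G i0 θ b t • ((θ.hom ▷ S b) ≫ (λ_ (S b)).hom) := by
  have h := scal_spec hS ((λ_ (S b)).inv ≫ (θ.inv ▷ S b) ≫ G.q i0 b b t)
  have h2 := congrArg (fun t => (θ.hom ▷ S b) ≫ (λ_ (S b)).hom ≫ t) h
  simp only [Iso.hom_inv_id_assoc, Linear.comp_smul, Category.comp_id] at h2
  rw [← comp_whiskerRight_assoc, θ.hom_inv_id, id_whiskerRight, Category.id_comp] at h2
  exact h2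

lemma q_right (a : Fin r) (s : Fin (N a i0 a)) :
    G.q a i0 a s = Rent' G i0 θ a s • ((S a ◁ θ.hom) ≫ (ρ_ (S a)).hom) := by
  have h := scal_spec hS ((ρ_ (S a)).inv ≫ (S a ◁ θ.inv) ≫ G.q a i0 a s)
  have h2 := congrArg (fun t => (S a ◁ θ.hom) ≫ (ρ_ (S a)).hom ≫ t) h
  simp only [Iso.hom_inv_id_assoc, Linear.comp_smul, Category.comp_id] at h2
  rw [← MonoidalCategory.whiskerLeft_comp_assoc, θ.hom_inv_id, MonoidalCategory.whiskerLeft_id,
    Category.id_comp] at h2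
  exact h2

omit hS in
lemma coh1 (a b : Fin r) : (((ρ_ (S a)).inv ≫ (S a ◁ θ.inv)) ▷ S b) ≫
    (α_ (S a) (S i0) (S b)).hom ≫ (S a ◁ ((θ.hom ▷ S b) ≫ (λ_ (S b)).hom)) =
    𝟙 (S a ⊗ S b) := by
  rw [comp_whiskerRight, MonoidalCategory.whiskerLeft_comp]
  simp only [Category.assoc]
  rw [← associator_naturality_middle_assoc]
  rw [← comp_whiskerRight_assoc (S a ◁ θ.inv), ← MonoidalCategory.whiskerLeft_comp, θ.inv_hom_id,
    MonoidalCategory.whiskerLeft_id, id_whiskerRight, Category.id_comp, MonoidalCategory.triangle,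
    ← comp_whiskerRight, Iso.inv_hom_id, id_whiskerRight]

omit hS in
lemma coh2 (a b : Fin r) : (S a ◁ ((λ_ (S b)).inv ≫ (θ.inv ▷ S b))) ≫
    (α_ (S a) (S i0) (S b)).inv ≫ (((S a ◁ θ.hom) ≫ (ρ_ (S a)).hom) ▷ S b) =
    𝟙 (S a ⊗ S b) := by
  have h := coh1 (S := S) i0 θ a b
  have e1 : IsIso ((((ρ_ (S a)).inv ≫ (S a ◁ θ.inv)) ▷ S b)) := inferInstance
  have h1 : (S a ◁ ((λ_ (S b)).inv ≫ (θ.inv ▷ S b))) ≫
    (α_ (S a) (S i0) (S b)).inv ≫ (((S a ◁ θ.hom) ≫ (ρ_ (S a)).hom) ▷ S b) ≫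
    ((((ρ_ (S a)).inv ≫ (S a ◁ θ.inv)) ▷ S b) ≫
    (α_ (S a) (S i0) (S b)).hom ≫ (S a ◁ ((θ.hom ▷ S b) ≫ (λ_ (S b)).hom))) = 𝟙 _ := by
    rw [← comp_whiskerRight_assoc]
    have h2 : ((S a ◁ θ.hom) ≫ (ρ_ (S a)).hom) ≫ (ρ_ (S a)).inv ≫ (S a ◁ θ.inv) = 𝟙 _ := by
      simp only [Category.assoc, Iso.hom_inv_id_assoc]
      rw [← MonoidalCategory.whiskerLeft_comp, θ.hom_inv_id, MonoidalCategory.whiskerLeft_id]
    rw [h2, id_whiskerRight, Category.id_comp, Iso.inv_hom_id_assoc,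
      ← MonoidalCategory.whiskerLeft_comp]
    have h3 : ((λ_ (S b)).inv ≫ θ.inv ▷ S b) ≫ θ.hom ▷ S b ≫ (λ_ (S b)).hom = 𝟙 _ := by
      simp only [Category.assoc]
      rw [← comp_whiskerRight_assoc, θ.inv_hom_id, id_whiskerRight, Category.id_comp,
        Iso.inv_hom_id]
    rw [h3, MonoidalCategory.whiskerLeft_id]
  rw [h] at h1
  simp only [Category.comp_id] at h1
  exact h1

lemma Fent_unit (a b c : Fin r) (w : Fin (N a b c)) (s : Fin (N a i0 a)) (t : Fin (N i0 b b)) :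
    Fent G a i0 b c a s w b t w = Rent G i0 θ a s * Lent' G i0 θ b t := by
  unfold Fent
  have : G.e a b c w ≫ (G.e a i0 a s ▷ S b) ≫ (α_ (S a) (S i0) (S b)).hom ≫
      (S a ◁ G.q i0 b b t) ≫ G.q a b c w =
      (Rent G i0 θ a s * Lent' G i0 θ b t) • 𝟙 (S c) := by
    conv_lhs => rw [e_right hS G i0 θ a s, q_left hS G i0 θ b t]
    rw [MonoidalLinear.smul_whiskerRight, MonoidalLinear.whiskerLeft_smul]
    simp only [Linear.smul_comp, Linear.comp_smul, smul_smul]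
    have h := coh1 (S := S) i0 θ a b
    have h2 := congrArg (fun t => G.e a b c w ≫ t ≫ G.q a b c w) h
    simp only [Category.assoc, Category.id_comp] at h2
    rw [h2, G.eq, if_pos rfl, mul_comm]
  rw [this, scal_smul_id hS]

lemma Gent_unit (a b c : Fin r) (w : Fin (N a b c)) (s : Fin (N a i0 a)) (t : Fin (N i0 b b)) :
    Gent G a i0 b c a s w b t w = Rent' G i0 θ a s * Lent G i0 θ b t := by
  unfold Gent
  have : G.e a b c w ≫ (S a ◁ G.e i0 b b t) ≫ (α_ (S a) (S i0) (S b)).inv ≫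
      (G.q a i0 a s ▷ S b) ≫ G.q a b c w =
      (Rent' G i0 θ a s * Lent G i0 θ b t) • 𝟙 (S c) := by
    conv_lhs => rw [e_left hS G i0 θ b t, q_right hS G i0 θ a s]
    rw [MonoidalLinear.smul_whiskerRight, MonoidalLinear.whiskerLeft_smul]
    simp only [Linear.smul_comp, Linear.comp_smul, smul_smul]
    have h := coh2 (S := S) i0 θ a b
    have h2 := congrArg (fun t => G.e a b c w ≫ t ≫ G.q a b c w) h
    simp only [Category.assoc, Category.id_comp] at h2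
    rw [h2, G.eq, if_pos rfl, mul_comm]
  rw [this, scal_smul_id hS]

lemma norm_RL (hU : FUnit G) (a b c : Fin r) (w : Fin (N a b c)) (s : Fin (N a i0 a))
    (t : Fin (N i0 b b)) : ‖Rent G i0 θ a s‖ = ‖Lent G i0 θ b t‖ := by
  have h := hU a i0 b c a s w b t w
  rw [Fent_unit hS G i0 θ, Gent_unit hS G i0 θ] at h
  have h1 := Rent_mul hS G i0 θ a s
  have h2 := Lent_mul hS G i0 θ b t
  have n1 := congrArg norm h
  have n2 := congrArg norm h1
  have n3 := congrArg norm h2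
  rw [norm_star, norm_mul, norm_mul] at n1
  rw [norm_mul, norm_one] at n2 n3
  have p1 : 0 < ‖Rent G i0 θ a s‖ := by
    rcases (norm_nonneg (Rent G i0 θ a s)).lt_or_eq with h | h
    · exact h
    · rw [← h, zero_mul] at n2; exact absurd n2 (by norm_num)
  have p2 : 0 < ‖Lent G i0 θ b t‖ := by
    rcases (norm_nonneg (Lent G i0 θ b t)).lt_or_eq with h | h
    · exact h
    · rw [← h, zero_mul] at n3; exact absurd n3 (by norm_num)
  have e1 : ‖Rent' G i0 θ a s‖ = 1 / ‖Rent G i0 θ a s‖ := by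
    rw [eq_div_iff p1.ne']; linarith [mul_comm ‖Rent G i0 θ a s‖ ‖Rent' G i0 θ a s‖]
  have e2 : ‖Lent' G i0 θ b t‖ = 1 / ‖Lent G i0 θ b t‖ := by
    rw [eq_div_iff p2.ne']; linarith [mul_comm ‖Lent G i0 θ b t‖ ‖Lent' G i0 θ b t‖]
  rw [e1, e2] at n1
  have n4 : ‖Lent G i0 θ b t‖ ^ 2 = ‖Rent G i0 θ a s‖ ^ 2 := by
    field_simp at n1
    linarith
  exact ((sq_eq_sq₀ p2.le p1.le).1 n4).symm

lemma cf_left_hom (z : ℂ) (hz : z ≠ 0) (X : Res S) (b : Fin r) (n n' : X.ι b)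
    (t : Fin (N i0 b b)) :
    cf (tens hS G (unitRes i0 θ z hz) X) X (λ_ X.X).hom b n'
      ⟨(⟨i0, ⟨(), rfl⟩⟩, ⟨b, n⟩), t⟩ =
    z * Lent G i0 θ b t * (if n = n' then 1 else 0) := by
  change scal ((G.e i0 b b t ≫ ((z • (eqToHom rfl ≫ θ.hom)) ⊗ₘ X.b b n)) ≫ (λ_ X.X).hom ≫
    X.p b n') = _
  have h1 : (G.e i0 b b t ≫ ((z • (eqToHom rfl ≫ θ.hom)) ⊗ₘ X.b b n)) ≫ (λ_ X.X).hom ≫
    X.p b n' = z • ((G.e i0 b b t ≫ (θ.hom ▷ S b) ≫ (λ_ (S b)).hom) ≫ (X.b b n ≫ X.p b n')) := by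
    rw [eqToHom_refl, Category.id_comp, MonoidalCategory.tensorHom_def]
    simp only [MonoidalLinear.smul_whiskerRight, Linear.smul_comp, Linear.comp_smul,
      Category.assoc]
    rw [leftUnitor_naturality_assoc]
  rw [h1, scal_smul hS, scal_comp hS, X.bp]
  unfold Lent
  split_ifs
  · rw [scal_id hS]; ring
  · rw [scal_zero hS]; ring

lemma cf_left_inv (z : ℂ) (hz : z ≠ 0) (X : Res S) (b : Fin r) (n n' : X.ι b)
    (t : Fin (N i0 b b)) :
    cf X (tens hS G (unitRes i0 θ z hz) X) (λ_ X.X).inv b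
      ⟨(⟨i0, ⟨(), rfl⟩⟩, ⟨b, n⟩), t⟩ n' =
    z⁻¹ * Lent' G i0 θ b t * (if n' = n then 1 else 0) := by
  change scal (X.b b n' ≫ (λ_ X.X).inv ≫ ((z⁻¹ • (θ.inv ≫ eqToHom rfl)) ⊗ₘ X.p b n) ≫
    G.q i0 b b t) = _
  have h1 : X.b b n' ≫ (λ_ X.X).inv ≫ ((z⁻¹ • (θ.inv ≫ eqToHom rfl)) ⊗ₘ X.p b n) ≫
    G.q i0 b b t = z⁻¹ • ((X.b b n' ≫ X.p b n) ≫
      ((λ_ (S b)).inv ≫ (θ.inv ▷ S b) ≫ G.q i0 b b t)) := by
    rw [eqToHom_refl, Category.comp_id, MonoidalCategory.tensorHom_def']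
    simp only [MonoidalLinear.smul_whiskerRight, Linear.smul_comp, Linear.comp_smul,
      Category.assoc]
    rw [leftUnitor_inv_naturality_assoc, leftUnitor_inv_naturality_assoc,
          leftUnitor_inv_naturality_assoc]
  rw [h1, scal_smul hS, scal_comp hS, X.bp]
  unfold Lent'
  split_ifs
  · rw [scal_id hS]; ring
  · rw [scal_zero hS]; ring

lemma cf_right_hom (z : ℂ) (hz : z ≠ 0) (X : Res S) (b : Fin r) (n n' : X.ι b)
    (t : Fin (N b i0 b)) :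
    cf (tens hS G X (unitRes i0 θ z hz)) X (ρ_ X.X).hom b n'
      ⟨(⟨b, n⟩, ⟨i0, ⟨(), rfl⟩⟩), t⟩ =
    z * Rent G i0 θ b t * (if n = n' then 1 else 0) := by
  change scal ((G.e b i0 b t ≫ (X.b b n ⊗ₘ (z • (eqToHom rfl ≫ θ.hom)))) ≫ (ρ_ X.X).hom ≫
    X.p b n') = _
  have h1 : (G.e b i0 b t ≫ (X.b b n ⊗ₘ (z • (eqToHom rfl ≫ θ.hom)))) ≫ (ρ_ X.X).hom ≫
    X.p b n' = z • ((G.e b i0 b t ≫ (S b ◁ θ.hom) ≫ (ρ_ (S b)).hom) ≫ (X.b b n ≫ X.p b n')) := by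
    rw [eqToHom_refl, Category.id_comp, MonoidalCategory.tensorHom_def']
    simp only [MonoidalLinear.whiskerLeft_smul, Linear.smul_comp, Linear.comp_smul,
      Category.assoc]
    rw [rightUnitor_naturality_assoc]
  rw [h1, scal_smul hS, scal_comp hS, X.bp]
  unfold Rent
  split_ifs
  · rw [scal_id hS]; ring
  · rw [scal_zero hS]; ring

lemma cf_right_inv (z : ℂ) (hz : z ≠ 0) (X : Res S) (b : Fin r) (n n' : X.ι b)
    (t : Fin (N b i0 b)) :
    cf X (tens hS G X (unitRes i0 θ z hz)) (ρ_ X.X).inv b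
      ⟨(⟨b, n⟩, ⟨i0, ⟨(), rfl⟩⟩), t⟩ n' =
    z⁻¹ * Rent' G i0 θ b t * (if n' = n then 1 else 0) := by
  change scal (X.b b n' ≫ (ρ_ X.X).inv ≫ (X.p b n ⊗ₘ (z⁻¹ • (θ.inv ≫ eqToHom rfl))) ≫
    G.q b i0 b t) = _
  have h1 : X.b b n' ≫ (ρ_ X.X).inv ≫ (X.p b n ⊗ₘ (z⁻¹ • (θ.inv ≫ eqToHom rfl))) ≫
    G.q b i0 b t = z⁻¹ • ((X.b b n' ≫ X.p b n) ≫
      ((ρ_ (S b)).inv ≫ (S b ◁ θ.inv) ≫ G.q b i0 b t)) := by
    rw [eqToHom_refl, Category.comp_id, MonoidalCategory.tensorHom_def]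
    simp only [MonoidalLinear.whiskerLeft_smul, Linear.smul_comp, Linear.comp_smul,
      Category.assoc]
    rw [rightUnitor_inv_naturality_assoc, rightUnitor_inv_naturality_assoc,
          rightUnitor_inv_naturality_assoc]
  rw [h1, scal_smul hS, scal_comp hS, X.bp]
  unfold Rent'
  split_ifs
  · rw [scal_id hS]; ring
  · rw [scal_zero hS]; ring

omit hS in
lemma conj_of_norm_one {x y : ℂ} (hxy : x * y = 1) (hx : ‖x‖ = 1) : star x = y := by
  have h1 : x * star x = 1 := by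
    rw [Complex.star_def, Complex.mul_conj, Complex.normSq_eq_norm_sq, hx]; norm_num
  have hx0 : x ≠ 0 := by
    intro h; rw [h] at hxy; simp at hxy
  exact mul_left_cancel₀ hx0 (h1.trans hxy.symm)

lemma dag_left (z : ℂ) (hz : z ≠ 0) (hL : ∀ b t, ‖z * Lent G i0 θ b t‖ = 1) (X : Res S) :
    dag (tens hS G (unitRes i0 θ z hz) X) X (λ_ X.X).hom = (λ_ X.X).inv := by
  refine cf_ext hS X (tens hS G (unitRes i0 θ z hz) X) (fun d => ?_)
  rw [cf_dag hS]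
  ext j n'
  rw [Matrix.conjTranspose_apply]
  obtain ⟨⟨⟨i, ⟨u, hi⟩⟩, ⟨b, n⟩⟩, t⟩ := j
  subst hi
  by_cases hb : b = d
  · subst hb
    rw [cf_left_hom, cf_left_inv, star_mul']
    have h1 : star (z * Lent G i θ b t) = z⁻¹ * Lent' G i θ b t := by
      apply conj_of_norm_one _ (hL b t)
      calc z * Lent G i θ b t * (z⁻¹ * Lent' G i θ b t) =
          (z * z⁻¹) * (Lent G i θ b t * Lent' G i θ b t) := by ring
        _ = 1 := by rw [mul_inv_cancel₀ hz, Lent_mul hS, mul_one]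
    rw [h1]
    congr 1
    by_cases h : n = n'
    · rw [if_pos h, if_pos h.symm, star_one]
    · rw [if_neg h, if_neg (Ne.symm h), star_zero]
  · have e1 : cf (tens hS G (unitRes i θ z hz) X) X (λ_ X.X).hom d n'
        ⟨(⟨i, ⟨u, rfl⟩⟩, ⟨b, n⟩), t⟩ = 0 := by
      change scal ((G.e i b d t ≫ ((z • (eqToHom rfl ≫ θ.hom)) ⊗ₘ X.b b n)) ≫ (λ_ X.X).hom ≫
        X.p d n') = 0
      have h1 : (G.e i b d t ≫ ((z • (eqToHom rfl ≫ θ.hom)) ⊗ₘ X.b b n)) ≫ (λ_ X.X).hom ≫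
        X.p d n' = z • ((G.e i b d t ≫ (θ.hom ▷ S b) ≫ (λ_ (S b)).hom) ≫
          (X.b b n ≫ X.p d n')) := by
        rw [eqToHom_refl, Category.id_comp, MonoidalCategory.tensorHom_def]
        simp only [MonoidalLinear.smul_whiskerRight, Linear.smul_comp, Linear.comp_smul,
          Category.assoc]
        rw [leftUnitor_naturality_assoc]
      rw [h1, hS.hor b d hb (X.b b n ≫ X.p d n'), comp_zero, smul_zero, scal_zero hS]
    have e2 : cf X (tens hS G (unitRes i θ z hz) X) (λ_ X.X).inv d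
        ⟨(⟨i, ⟨u, rfl⟩⟩, ⟨b, n⟩), t⟩ n' = 0 := by
      change scal (X.b d n' ≫ (λ_ X.X).inv ≫ ((z⁻¹ • (θ.inv ≫ eqToHom rfl)) ⊗ₘ X.p b n) ≫
        G.q i b d t) = 0
      have h1 : X.b d n' ≫ (λ_ X.X).inv ≫ ((z⁻¹ • (θ.inv ≫ eqToHom rfl)) ⊗ₘ X.p b n) ≫
        G.q i b d t = z⁻¹ • ((X.b d n' ≫ X.p b n) ≫
          ((λ_ (S b)).inv ≫ (θ.inv ▷ S b) ≫ G.q i b d t)) := by
        rw [eqToHom_refl, Category.comp_id, MonoidalCategory.tensorHom_def']
        simp only [MonoidalLinear.smul_whiskerRight, Linear.smul_comp, Linear.comp_smul,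
          Category.assoc]
        rw [leftUnitor_inv_naturality_assoc, leftUnitor_inv_naturality_assoc,
          leftUnitor_inv_naturality_assoc]
      rw [h1, hS.hor d b (Ne.symm hb) (X.b d n' ≫ X.p b n), zero_comp, smul_zero, scal_zero hS]
    rw [e1, e2, star_zero]

lemma dag_right (z : ℂ) (hz : z ≠ 0) (hR : ∀ b t, ‖z * Rent G i0 θ b t‖ = 1) (X : Res S) :
    dag (tens hS G X (unitRes i0 θ z hz)) X (ρ_ X.X).hom = (ρ_ X.X).inv := by
  refine cf_ext hS X (tens hS G X (unitRes i0 θ z hz)) (fun d => ?_)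
  rw [cf_dag hS]
  ext j n'
  rw [Matrix.conjTranspose_apply]
  obtain ⟨⟨⟨b, n⟩, ⟨i, ⟨u, hi⟩⟩⟩, t⟩ := j
  subst hi
  by_cases hb : b = d
  · subst hb
    rw [cf_right_hom, cf_right_inv, star_mul']
    have h1 : star (z * Rent G i θ b t) = z⁻¹ * Rent' G i θ b t := by
      apply conj_of_norm_one _ (hR b t)
      calc z * Rent G i θ b t * (z⁻¹ * Rent' G i θ b t) =
          (z * z⁻¹) * (Rent G i θ b t * Rent' G i θ b t) := by ring
        _ = 1 := by rw [mul_inv_cancel₀ hz, Rent_mul hS, mul_one]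
    rw [h1]
    congr 1
    by_cases h : n = n'
    · rw [if_pos h, if_pos h.symm, star_one]
    · rw [if_neg h, if_neg (Ne.symm h), star_zero]
  · have e1 : cf (tens hS G X (unitRes i θ z hz)) X (ρ_ X.X).hom d n'
        ⟨(⟨b, n⟩, ⟨i, ⟨u, rfl⟩⟩), t⟩ = 0 := by
      change scal ((G.e b i d t ≫ (X.b b n ⊗ₘ (z • (eqToHom rfl ≫ θ.hom)))) ≫ (ρ_ X.X).hom ≫
        X.p d n') = 0
      have h1 : (G.e b i d t ≫ (X.b b n ⊗ₘ (z • (eqToHom rfl ≫ θ.hom)))) ≫ (ρ_ X.X).hom ≫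
        X.p d n' = z • ((G.e b i d t ≫ (S b ◁ θ.hom) ≫ (ρ_ (S b)).hom) ≫
          (X.b b n ≫ X.p d n')) := by
        rw [eqToHom_refl, Category.id_comp, MonoidalCategory.tensorHom_def']
        simp only [MonoidalLinear.whiskerLeft_smul, Linear.smul_comp, Linear.comp_smul,
          Category.assoc]
        rw [rightUnitor_naturality_assoc]
      rw [h1, hS.hor b d hb (X.b b n ≫ X.p d n'), comp_zero, smul_zero, scal_zero hS]
    have e2 : cf X (tens hS G X (unitRes i θ z hz)) (ρ_ X.X).inv d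
        ⟨(⟨b, n⟩, ⟨i, ⟨u, rfl⟩⟩), t⟩ n' = 0 := by
      change scal (X.b d n' ≫ (ρ_ X.X).inv ≫ (X.p b n ⊗ₘ (z⁻¹ • (θ.inv ≫ eqToHom rfl))) ≫
        G.q b i d t) = 0
      have h1 : X.b d n' ≫ (ρ_ X.X).inv ≫ (X.p b n ⊗ₘ (z⁻¹ • (θ.inv ≫ eqToHom rfl))) ≫
        G.q b i d t = z⁻¹ • ((X.b d n' ≫ X.p b n) ≫
          ((ρ_ (S b)).inv ≫ (S b ◁ θ.inv) ≫ G.q b i d t)) := by
        rw [eqToHom_refl, Category.comp_id, MonoidalCategory.tensorHom_def]
        simp only [MonoidalLinear.whiskerLeft_smul, Linear.smul_comp, Linear.comp_smul,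
          Category.assoc]
        rw [rightUnitor_inv_naturality_assoc, rightUnitor_inv_naturality_assoc,
          rightUnitor_inv_naturality_assoc]
      rw [h1, hS.hor d b (Ne.symm hb) (X.b d n' ≫ X.p b n), zero_comp, smul_zero, scal_zero hS]
    rw [e1, e2, star_zero]

end Units

end Tensor

section Complete

variable {C : Type u} [Category.{v} C] [Preadditive C] [Linear ℂ C] {r : ℕ} {S : Fin r → C}
variable (hS : Sch S)
include hS

lemma hom_findim (X Y : Res S) : FiniteDimensional ℂ (X.X ⟶ Y.X) := by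
  let T : (X.X ⟶ Y.X) →ₗ[ℂ] (∀ i, Matrix (Y.ι i) (X.ι i) ℂ) :=
    { toFun := fun f i => cf X Y f i
      map_add' := fun f g => by ext1 i; exact cf_add hS X Y f g i
      map_smul' := fun z f => by ext1 i; exact cf_smul hS X Y z f i }
  have hT : Function.Injective T := fun f g h => cf_ext hS X Y (fun i => congrFun h i)
  exact FiniteDimensional.of_injective T hT

lemma nrm_complete (X Y : Res S) (w : ℕ → (X.X ⟶ Y.X))
    (hw : ∀ ε : ℝ, 0 < ε → ∃ K : ℕ, ∀ m n : ℕ, K ≤ m → K ≤ n → nrm X Y (w m - w n) < ε) :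
    ∃ f : X.X ⟶ Y.X, ∀ ε : ℝ, 0 < ε → ∃ K : ℕ, ∀ n : ℕ, K ≤ n → nrm X Y (w n - f) < ε := by
  let _ : Norm (X.X ⟶ Y.X) := ⟨nrm X Y⟩
  have core : NormedSpace.Core ℂ (X.X ⟶ Y.X) :=
    { norm_nonneg := nrm_nonneg X Y
      norm_smul := nrm_smul hS X Y
      norm_triangle := nrm_add hS X Y
      norm_eq_zero_iff := fun f => ⟨nrm_eq_zero hS X Y f, fun h => by
        have := nrm_smul hS X Y 0 f
        rw [zero_smul, norm_zero, zero_mul] at this
        rw [h]; exact this⟩ }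
  let _ : NormedAddCommGroup (X.X ⟶ Y.X) := NormedAddCommGroup.ofCore core
  let _ : NormedSpace ℂ (X.X ⟶ Y.X) := NormedSpace.ofCore core
  have := hom_findim hS X Y
  have : CompleteSpace (X.X ⟶ Y.X) := FiniteDimensional.complete ℂ _
  have h1 : CauchySeq w := by
    rw [Metric.cauchySeq_iff]
    intro ε hε
    obtain ⟨K, hK⟩ := hw ε hε
    refine ⟨K, fun m hm n hn => ?_⟩
    rw [dist_eq_norm]
    exact hK m n hm hn
  obtain ⟨f, hf⟩ := cauchySeq_tendsto_of_complete h1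
  refine ⟨f, fun ε hε => ?_⟩
  obtain ⟨K, hK⟩ := (Metric.tendsto_atTop.1 hf) ε hε
  refine ⟨K, fun n hn => ?_⟩
  have := hK n hn
  rw [dist_eq_norm] at this
  exact this

end Complete

section Exist

variable {C : Type u} [Category.{v} C] [Preadditive C] [Linear ℂ C] [HasFiniteBiproducts C]
  {r : ℕ} {S : Fin r → C}

/-- every object has a resolution -/
lemma exists_res (hfin : ∀ X : C, ∃ (m : ℕ) (f : Fin m → C) (idx : Fin m → Fin r),
    (∀ k, Nonempty (f k ≅ S (idx k))) ∧ Nonempty (X ≅ ⨁ f)) (X : C) :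
    ∃ R : Res S, R.X = X := by
  classical
  obtain ⟨m, f, idx, h1, ⟨w⟩⟩ := hfin X
  let θ : ∀ k, f k ≅ S (idx k) := fun k => (h1 k).some
  let b : ∀ i, {k : Fin m // idx k = i} → (S i ⟶ X) := fun i k =>
    eqToHom (congrArg S k.2.symm) ≫ (θ k.1).inv ≫ biproduct.ι f k.1 ≫ w.inv
  let p : ∀ i, {k : Fin m // idx k = i} → (X ⟶ S i) := fun i k =>
    w.hom ≫ biproduct.π f k.1 ≫ (θ k.1).hom ≫ eqToHom (congrArg S k.2)
  have hbp : ∀ i m n, b i m ≫ p i n = if m = n then 𝟙 (S i) else 0 := by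
    rintro i ⟨k, hk⟩ ⟨l, hl⟩
    simp only [b, p]
    subst hk
    simp only [eqToHom_refl, Category.id_comp, Category.assoc, Iso.inv_hom_id_assoc]
    by_cases hkl : k = l
    · subst hkl
      simp
    · rw [biproduct.ι_π_ne_assoc _ hkl]
      simp [hkl]
  have hpb : ∑ i, ∑ m, p i m ≫ b i m = 𝟙 X := by
    have e1 : ∀ i, ∀ k : {k : Fin m // idx k = i},
        (w.hom ≫ biproduct.π f k.1 ≫ (θ k.1).hom ≫ eqToHom (congrArg S k.2)) ≫
          eqToHom (congrArg S k.2.symm) ≫ (θ k.1).inv ≫ biproduct.ι f k.1 ≫ w.inv =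
        (fun l => w.hom ≫ biproduct.π f l ≫ biproduct.ι f l ≫ w.inv) k.1 := by
      rintro i ⟨k, hk⟩
      subst hk
      simp
    simp only [b, p, e1]
    rw [Fintype.sum_fiberwise idx (fun l => w.hom ≫ biproduct.π f l ≫ biproduct.ι f l ≫ w.inv)]
    have h2 := biproduct.total (f := f)
    have h3 := congrArg (fun t => w.hom ≫ t ≫ w.inv) h2
    simp only [Preadditive.comp_sum, Preadditive.sum_comp, Category.assoc, Category.id_comp,
      Iso.hom_inv_id] at h3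
    exact h3
  exact ⟨{ X := X, ι := fun i => {k : Fin m // idx k = i}, b := b, p := p,
           bp := hbp, pb := hpb }, rfl⟩

end Exist

section GaugeSec2

variable {C : Type u} [Category.{v} C] [Preadditive C] [Linear ℂ C] [MonoidalCategory C] {r : ℕ}

variable {S : Fin r → C} (hS : Sch S)

/-- the dual basis of a basis of a multiplicity space -/
def dualVec (X : Res S) {Y : C} (hX : X.X = Y) (c : Fin r) {n : ℕ}
    (β : Module.Basis (Fin n) ℂ (S c ⟶ Y)) (s : Fin n) : Y ⟶ S c :=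
  ∑ m : X.ι c, β.repr (X.b c m ≫ eqToHom hX) s • (eqToHom hX.symm ≫ X.p c m)

include hS in
lemma comp_dualVec (X : Res S) {Y : C} (hX : X.X = Y) (c : Fin r) {n : ℕ}
    (β : Module.Basis (Fin n) ℂ (S c ⟶ Y)) (s t : Fin n) :
    β s ≫ dualVec X hX c β t = if s = t then 𝟙 (S c) else 0 := by
  subst hX
  unfold dualVec
  simp only [eqToHom_refl, Category.comp_id, Category.id_comp]
  have e2 : β s ≫ ∑ m : X.ι c, β.repr (X.b c m) t • X.p c m =
      (∑ m : X.ι c, scal (β s ≫ X.p c m) * β.repr (X.b c m) t) • 𝟙 (S c) := by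
    rw [Preadditive.comp_sum, Finset.sum_smul]
    refine Finset.sum_congr rfl (fun m _ => ?_)
    rw [Linear.comp_smul]
    conv_lhs => rw [scal_spec hS (β s ≫ X.p c m)]
    rw [smul_smul, mul_comm]
  have e3 : β.repr (β s) t = ∑ m : X.ι c, scal (β s ≫ X.p c m) * β.repr (X.b c m) t := by
    conv_lhs => rw [vec_expand hS X (β s)]
    rw [map_sum, Finsupp.finsetSum_apply]
    refine Finset.sum_congr rfl (fun m _ => ?_)
    rw [map_smul, Finsupp.smul_apply, smul_eq_mul]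
  rw [e2, ← e3, Module.Basis.repr_self, Finsupp.single_apply]
  split_ifs
  · rw [one_smul]
  · rw [zero_smul]

lemma dualVec_comp (X : Res S) {Y : C} (hX : X.X = Y) (c : Fin r) {n : ℕ}
    (β : Module.Basis (Fin n) ℂ (S c ⟶ Y)) :
    ∑ s, dualVec X hX c β s ≫ β s =
      eqToHom hX.symm ≫ (∑ m, X.p c m ≫ X.b c m) ≫ eqToHom hX := by
  subst hX
  unfold dualVec
  simp only [eqToHom_refl, Category.comp_id, Category.id_comp]
  simp only [Preadditive.sum_comp, Linear.smul_comp]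
  rw [Finset.sum_comm]
  refine Finset.sum_congr rfl (fun m _ => ?_)
  have h2 := congrArg (fun t => X.p c m ≫ t) (β.sum_repr (X.b c m))
  simp only [Preadditive.comp_sum, Linear.comp_smul] at h2
  exact h2

/-- the resolutions defined by a gauge -/
def gaugeRes (hS : Sch S) (B : Gauge S) (R : ∀ Y : C, {X : Res S // X.X = Y}) :
    GRes S (fun a b c => Module.finrank ℂ (S c ⟶ S a ⊗ S b)) where
  e a b c s := B a b c s
  q a b c s := dualVec (R (S a ⊗ S b)).1 (R (S a ⊗ S b)).2 c (B a b c) s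
  eq a b c s t := comp_dualVec hS _ _ c (B a b c) s t
  qe a b := by
    simp only [dualVec_comp]
    rw [← Preadditive.comp_sum, ← Preadditive.sum_comp, Res.pb, Category.id_comp, eqToHom_trans,
      eqToHom_refl]

end GaugeSec2

section FU

variable {C : Type u} [Category.{v} C] [Preadditive C] [Linear ℂ C] [MonoidalCategory C]
  [MonoidalPreadditive C] [MonoidalLinear ℂ C] {r : ℕ}

variable {S : Fin r → C} (hS : Sch S) (B : Gauge S) (R : ∀ Y : C, {X : Res S // X.X = Y})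

lemma right_orth (a b c d : Fin r) (x : RightIx S a b c d) (x' : RightIx S a b c d) :
    rightVec S B a b c d x ≫ (S a ◁ (gaugeRes hS B R).q b c x'.1 x'.2.1) ≫
      (gaugeRes hS B R).q a x'.1 d x'.2.2 = if x = x' then 𝟙 (S d) else 0 := by
  set G := gaugeRes hS B R with hG
  obtain ⟨f, s, t⟩ := x
  obtain ⟨f', s', t'⟩ := x'
  change (G.e a f d t ≫ (S a ◁ G.e b c f s)) ≫ (S a ◁ G.q b c f' s') ≫ G.q a f' d t' = _
  have h1 : (G.e a f d t ≫ (S a ◁ G.e b c f s)) ≫ (S a ◁ G.q b c f' s') ≫ G.q a f' d t' =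
      G.e a f d t ≫ (S a ◁ (G.e b c f s ≫ G.q b c f' s')) ≫ G.q a f' d t' := by
    rw [MonoidalCategory.whiskerLeft_comp]; simp only [Category.assoc]
  rw [h1]
  by_cases hf : f = f'
  · subst hf
    rw [G.eq]
    by_cases hs : s = s'
    · subst hs
      rw [if_pos rfl, MonoidalCategory.whiskerLeft_id, Category.id_comp, G.eq]
      by_cases ht : t = t'
      · subst ht; simp
      · rw [if_neg ht, if_neg]
        intro h
        apply ht
        have := eq_of_heq (Sigma.mk.inj h).2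
        exact (Prod.mk.inj this).2
    · rw [if_neg hs, if_neg]
      · simp
      · intro h
        apply hs
        have := eq_of_heq (Sigma.mk.inj h).2
        exact (Prod.mk.inj this).1
  · rw [hS.hor f f' hf (G.e b c f s ≫ G.q b c f' s'), if_neg]
    · simp
    · intro h
      exact hf (Sigma.mk.inj h).1

lemma left_orth (a b c d : Fin r) (y : LeftIx S a b c d) (y' : LeftIx S a b c d) :
    leftVec S B a b c d y ≫ ((gaugeRes hS B R).q a b y'.1 y'.2.1 ▷ S c) ≫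
      (gaugeRes hS B R).q y'.1 c d y'.2.2 = if y = y' then 𝟙 (S d) else 0 := by
  set G := gaugeRes hS B R with hG
  obtain ⟨f, s, t⟩ := y
  obtain ⟨f', s', t'⟩ := y'
  change (G.e f c d t ≫ (G.e a b f s ▷ S c)) ≫ (G.q a b f' s' ▷ S c) ≫ G.q f' c d t' = _
  have h1 : (G.e f c d t ≫ (G.e a b f s ▷ S c)) ≫ (G.q a b f' s' ▷ S c) ≫ G.q f' c d t' =
      G.e f c d t ≫ ((G.e a b f s ≫ G.q a b f' s') ▷ S c) ≫ G.q f' c d t' := by
    rw [comp_whiskerRight]; simp only [Category.assoc]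
  rw [h1]
  by_cases hf : f = f'
  · subst hf
    rw [G.eq]
    by_cases hs : s = s'
    · subst hs
      rw [if_pos rfl, id_whiskerRight, Category.id_comp, G.eq]
      by_cases ht : t = t'
      · subst ht; simp
      · rw [if_neg ht, if_neg]
        intro h
        apply ht
        have := eq_of_heq (Sigma.mk.inj h).2
        exact (Prod.mk.inj this).2
    · rw [if_neg hs, if_neg]
      · simp
      · intro h
        apply hs
        have := eq_of_heq (Sigma.mk.inj h).2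
        exact (Prod.mk.inj this).1
  · rw [hS.hor f f' hf (G.e a b f s ≫ G.q a b f' s'), if_neg]
    · simp
    · intro h
      exact hf (Sigma.mk.inj h).1

lemma funit_of (hB : UnitaryFMatrices S B) : FUnit (gaugeRes hS B R) := by
  intro a b c d e s t f s' t'
  obtain ⟨M, hM, -, hM2⟩ := hB a b c d
  have hF : Fent (gaugeRes hS B R) a b c d e s t f s' t' = M ⟨f, (s', t')⟩ ⟨e, (s, t)⟩ := by
    have h1 := hM ⟨e, (s, t)⟩
    have h2 := congrArg (fun w => w ≫ (S a ◁ (gaugeRes hS B R).q b c f s') ≫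
      (gaugeRes hS B R).q a f d t') h1
    simp only [Preadditive.sum_comp, Linear.smul_comp] at h2
    have h3 : ∑ x, M x ⟨e, (s, t)⟩ • (rightVec S B a b c d x ≫
        (S a ◁ (gaugeRes hS B R).q b c f s') ≫ (gaugeRes hS B R).q a f d t') =
        M ⟨f, (s', t')⟩ ⟨e, (s, t)⟩ • 𝟙 (S d) := by
      rw [Finset.sum_eq_single (⟨f, (s', t')⟩ : RightIx S a b c d)]
      · rw [right_orth hS B R a b c d ⟨f, (s', t')⟩ ⟨f, (s', t')⟩, if_pos rfl]
      · intro x _ hx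
        rw [right_orth hS B R a b c d x ⟨f, (s', t')⟩, if_neg hx, smul_zero]
      · simp
    rw [h3] at h2
    have h4 : Fent (gaugeRes hS B R) a b c d e s t f s' t' =
        scal (M ⟨f, (s', t')⟩ ⟨e, (s, t)⟩ • 𝟙 (S d)) := by
      rw [← h2]
      unfold Fent leftVec
      simp only [Category.assoc]
      rfl
    rw [h4, scal_smul_id hS]
  have hG : Gent (gaugeRes hS B R) a b c d e s t f s' t' = star (M ⟨f, (s', t')⟩ ⟨e, (s, t)⟩) := by
    have h1 : rightVec S B a b c d ⟨f, (s', t')⟩ ≫ (α_ (S a) (S b) (S c)).inv =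
        ∑ y, star (M ⟨f, (s', t')⟩ y) • leftVec S B a b c d y := by
      rw [Iso.comp_inv_eq, Preadditive.sum_comp]
      simp only [Linear.smul_comp, hM _, Finset.smul_sum, smul_smul]
      rw [Finset.sum_comm]
      rw [Finset.sum_eq_single (⟨f, (s', t')⟩ : RightIx S a b c d)]
      · rw [← Finset.sum_smul]
        have : ∑ y, star (M ⟨f, (s', t')⟩ y) * M ⟨f, (s', t')⟩ y = 1 := by
          have h := congrFun (congrFun hM2 ⟨f, (s', t')⟩) ⟨f, (s', t')⟩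
          rw [Matrix.mul_apply, Matrix.one_apply_eq] at h
          rw [← h]
          refine Finset.sum_congr rfl (fun y _ => ?_)
          rw [Matrix.conjTranspose_apply, mul_comm]
        rw [this, one_smul]
      · intro x _ hx
        rw [← Finset.sum_smul]
        have : ∑ y, star (M ⟨f, (s', t')⟩ y) * M x y = 0 := by
          have h := congrFun (congrFun hM2 x) ⟨f, (s', t')⟩
          rw [Matrix.mul_apply, Matrix.one_apply_ne hx] at h
          rw [← h]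
          refine Finset.sum_congr rfl (fun y _ => ?_)
          rw [Matrix.conjTranspose_apply, mul_comm]
        rw [this, zero_smul]
      · simp
    have h2 := congrArg (fun w => w ≫ ((gaugeRes hS B R).q a b e s ▷ S c) ≫
      (gaugeRes hS B R).q e c d t) h1
    simp only [Preadditive.sum_comp, Linear.smul_comp] at h2
    have h3 : ∑ y, star (M ⟨f, (s', t')⟩ y) • (leftVec S B a b c d y ≫
        ((gaugeRes hS B R).q a b e s ▷ S c) ≫ (gaugeRes hS B R).q e c d t) =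
        star (M ⟨f, (s', t')⟩ ⟨e, (s, t)⟩) • 𝟙 (S d) := by
      rw [Finset.sum_eq_single (⟨e, (s, t)⟩ : LeftIx S a b c d)]
      · rw [left_orth hS B R a b c d ⟨e, (s, t)⟩ ⟨e, (s, t)⟩, if_pos rfl]
      · intro x _ hx
        rw [left_orth hS B R a b c d x ⟨e, (s, t)⟩, if_neg hx, smul_zero]
      · simp
    rw [h3] at h2
    have h4 : Gent (gaugeRes hS B R) a b c d e s t f s' t' =
        scal (star (M ⟨f, (s', t')⟩ ⟨e, (s, t)⟩) • 𝟙 (S d)) := by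
      rw [← h2]
      unfold Gent rightVec
      simp only [Category.assoc]
      rfl
    rw [h4, scal_smul_id hS]
  rw [hF, hG]

end FU

section DCat

variable {C : Type u} [Category.{v} C] [Preadditive C] [Linear ℂ C] [MonoidalCategory C]
  [MonoidalPreadditive C] [MonoidalLinear ℂ C] {r : ℕ}

/-- data for the construction of the model -/
structure Dat (S : Fin r → C) (N : Fin r → Fin r → Fin r → ℕ) where
  hS : Sch S
  G : GRes S N
  i0 : Fin r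
  θ : S i0 ≅ 𝟙_ C
  z : ℂ
  hz : z ≠ 0

variable {S : Fin r → C} {N : Fin r → Fin r → Fin r → ℕ}

/-- the category of resolved objects -/
def DD (_ : Dat S N) : Type (max (max 1 u) v) := Res S

variable (δ : Dat S N)

/-- the resolution -/
def toR (X : DD δ) : Res S := X

/-- the underlying object -/
abbrev ob (X : DD δ) : C := (toR δ X).X

instance catDD : Category.{v} (DD δ) where
  Hom X Y := ob δ X ⟶ ob δ Y
  id X := 𝟙 (ob δ X)
  comp f g := CategoryStruct.comp (obj := C) f g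
  id_comp f := Category.id_comp (obj := C) f
  comp_id f := Category.comp_id (obj := C) f
  assoc f g h := Category.assoc (obj := C) f g h

instance preDD : Preadditive (DD δ) where
  homGroup X Y := inferInstanceAs (AddCommGroup (ob δ X ⟶ ob δ Y))
  add_comp P Q R f f' g := Preadditive.add_comp (C := C) _ _ _ f f' g
  comp_add P Q R f g g' := Preadditive.comp_add (C := C) _ _ _ f g g'

instance linDD : Linear ℂ (DD δ) where
  homModule X Y := inferInstanceAs (Module ℂ (ob δ X ⟶ ob δ Y))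
  smul_comp X Y Z z f g := Linear.smul_comp (C := C) _ _ _ z f g
  comp_smul X Y Z f z g := Linear.comp_smul (C := C) _ _ _ f z g

/-- the forgetful functor -/
def FF : DD δ ⥤ C where
  obj X := ob δ X
  map f := f

instance : (FF δ).Faithful where
  map_injective h := h

instance : (FF δ).Full where
  map_surjective f := ⟨f, rfl⟩

instance : (FF δ).Additive where
  map_add := rfl

instance : (FF δ).Linear ℂ where
  map_smul _ _ := rfl

instance strDD : MonoidalCategoryStruct (DD δ) where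
  tensorObj X Y := tens δ.hS δ.G (toR δ X) (toR δ Y)
  whiskerLeft X _ _ f := MonoidalCategoryStruct.whiskerLeft (C := C) (ob δ X) f
  whiskerRight f Y := MonoidalCategoryStruct.whiskerRight (C := C) f (ob δ Y)
  tensorHom f g := MonoidalCategoryStruct.tensorHom (C := C) f g
  tensorUnit := unitRes δ.i0 δ.θ δ.z δ.hz
  associator X Y Z :=
    { hom := (α_ (ob δ X) (ob δ Y) (ob δ Z)).hom
      inv := (α_ (ob δ X) (ob δ Y) (ob δ Z)).inv
      hom_inv_id := (α_ (ob δ X) (ob δ Y) (ob δ Z)).hom_inv_id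
      inv_hom_id := (α_ (ob δ X) (ob δ Y) (ob δ Z)).inv_hom_id }
  leftUnitor X :=
    { hom := (λ_ (ob δ X)).hom
      inv := (λ_ (ob δ X)).inv
      hom_inv_id := (λ_ (ob δ X)).hom_inv_id
      inv_hom_id := (λ_ (ob δ X)).inv_hom_id }
  rightUnitor X :=
    { hom := (ρ_ (ob δ X)).hom
      inv := (ρ_ (ob δ X)).inv
      hom_inv_id := (ρ_ (ob δ X)).hom_inv_id
      inv_hom_id := (ρ_ (ob δ X)).inv_hom_id }

/-- the comparison data -/
def indDD : Monoidal.InducingFunctorData (FF δ) where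
  μIso X Y := Iso.refl (ob δ X ⊗ ob δ Y)
  whiskerLeft_eq X Y₁ Y₂ f := by
    change (ob δ X) ◁ ((FF δ).map f) = 𝟙 _ ≫ (ob δ X) ◁ ((FF δ).map f) ≫ 𝟙 _
    simp
  whiskerRight_eq f Y := by
    change ((FF δ).map f) ▷ (ob δ Y) = 𝟙 _ ≫ ((FF δ).map f) ▷ (ob δ Y) ≫ 𝟙 _
    simp
  tensorHom_eq f g := by
    change ((FF δ).map f ⊗ₘ (FF δ).map g) = 𝟙 _ ≫ ((FF δ).map f ⊗ₘ (FF δ).map g) ≫ 𝟙 _
    simp
  εIso := Iso.refl (𝟙_ C)
  associator_eq X Y Z := by
    change (α_ (ob δ X) (ob δ Y) (ob δ Z)).hom =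
      (𝟙 _ ≫ (𝟙 _ ⊗ₘ 𝟙 _)) ≫ (α_ (ob δ X) (ob δ Y) (ob δ Z)).hom ≫ (𝟙 _ ⊗ₘ 𝟙 _) ≫ 𝟙 _
    simp
  leftUnitor_eq X := by
    change (λ_ (ob δ X)).hom = (𝟙 _ ≫ (𝟙 _ ⊗ₘ 𝟙 _)) ≫ (λ_ (ob δ X)).hom
    simp
  rightUnitor_eq X := by
    change (ρ_ (ob δ X)).hom = (𝟙 _ ≫ (𝟙 _ ⊗ₘ 𝟙 _)) ≫ (ρ_ (ob δ X)).hom
    simp

instance monDD : MonoidalCategory (DD δ) := Monoidal.induced (FF δ) (indDD δ)

/-- the forgetful functor is monoidal -/
def monFF : (FF δ).Monoidal := Monoidal.fromInducedMonoidal (FF δ) (indDD δ)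

instance : MonoidalPreadditive (DD δ) where
  whiskerLeft_zero {X Y Z} := MonoidalPreadditive.whiskerLeft_zero (C := C) (X := ob δ X)
  zero_whiskerRight {X Y Z} := MonoidalPreadditive.zero_whiskerRight (C := C) (X := ob δ X)
  whiskerLeft_add {X Y Z} f g := MonoidalPreadditive.whiskerLeft_add (C := C) (X := ob δ X) f g
  add_whiskerRight {X Y Z} f g := MonoidalPreadditive.add_whiskerRight (C := C) (X := ob δ X) f g

instance : MonoidalLinear ℂ (DD δ) where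
  whiskerLeft_smul X {Y Z} z f := MonoidalLinear.whiskerLeft_smul (C := C) (ob δ X) z f
  smul_whiskerRight z {Y Z} f X := MonoidalLinear.smul_whiskerRight (C := C) z f (ob δ X)

/-- the C*-tensor structure -/
def starDD (hU : FUnit δ.G) (hL : ∀ b t, ‖δ.z * Lent δ.G δ.i0 δ.θ b t‖ = 1)
    (hR : ∀ b t, ‖δ.z * Rent δ.G δ.i0 δ.θ b t‖ = 1) : CStarTensorStructure (DD δ) where
  dag {X Y} f := dag (toR δ X) (toR δ Y) f
  dag_dag {X Y} f := dag_dag δ.hS (toR δ X) (toR δ Y) f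
  dag_comp {X Y Z} f g := dag_comp δ.hS (toR δ X) (toR δ Y) (toR δ Z) f g
  dag_add {X Y} f g := dag_add δ.hS (toR δ X) (toR δ Y) f g
  dag_smul {X Y} z f := dag_smul δ.hS (toR δ X) (toR δ Y) z f
  nrm {X Y} f := nrm (toR δ X) (toR δ Y) f
  nrm_nonneg {X Y} f := nrm_nonneg (toR δ X) (toR δ Y) f
  nrm_eq_zero {X Y} f := nrm_eq_zero δ.hS (toR δ X) (toR δ Y) f
  nrm_add {X Y} f g := nrm_add δ.hS (toR δ X) (toR δ Y) f g
  nrm_smul {X Y} z f := nrm_smul δ.hS (toR δ X) (toR δ Y) z f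
  nrm_comp {X Y Z} f g := nrm_comp δ.hS (toR δ X) (toR δ Y) (toR δ Z) f g
  complete {X Y} w hw := nrm_complete δ.hS (toR δ X) (toR δ Y) w hw
  nrm_comp_dag {X Y} f := nrm_sq δ.hS (toR δ X) (toR δ Y) f
  positive {X Y} f := dag_pos δ.hS (toR δ X) (toR δ Y) f
  dag_tensor {X Y X' Y'} f g := dag_tensor δ.hS δ.G (toR δ X) (toR δ Y) (toR δ X') (toR δ Y') f g
  dag_associator X Y Z := dag_assoc δ.hS δ.G hU (toR δ X) (toR δ Y) (toR δ Z)
  dag_leftUnitor X := dag_left δ.hS δ.G δ.i0 δ.θ δ.z δ.hz hL (toR δ X)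
  dag_rightUnitor X := dag_right δ.hS δ.G δ.i0 δ.θ δ.z δ.hz hR (toR δ X)

end DCat

section Main

variable {C : Type u} [Category.{v} C] [Abelian C] [Linear ℂ C] [HasFiniteBiproducts C]
  [MonoidalCategory C] [MonoidalPreadditive C] [MonoidalLinear ℂ C] [RigidCategory C]

lemma sch_of {r : ℕ} {S : Fin r → C} (hC : IsFusionCategory C) (hS : ListsSimples S) : Sch S where
  hid i f := by
    have := hS.simple i
    have := hC.finiteDimensional_hom (S i) (S i)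
    obtain ⟨c, hc⟩ := endomorphism_simple_eq_smul_id ℂ f
    exact ⟨c, hc.symm⟩
  hne i := by
    have := hS.simple i
    exact id_nonzero (S i)
  hor i j hij f := by
    have := hS.simple i
    have := hS.simple j
    by_contra hf
    have := isIso_of_hom_simple hf
    exact hij (hS.injective i j ⟨asIso f⟩)

lemma res_of {r : ℕ} {S : Fin r → C} (hC : IsFusionCategory C) (hS : ListsSimples S) (X : C) :
    ∃ R : Res S, R.X = X := by
  refine exists_res (fun X => ?_) X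
  obtain ⟨m, f, hf, hX⟩ := hC.semisimple X
  choose idx hidx using fun k => hS.complete (f k) (hf k)
  exact ⟨m, f, idx, hidx, hX⟩

end Main

section Unit0

variable {C : Type u} [Category.{v} C] [Preadditive C] [Linear ℂ C] [MonoidalCategory C]
  [MonoidalPreadditive C] [MonoidalLinear ℂ C] {r : ℕ} {S : Fin r → C}
  {N : Fin r → Fin r → Fin r → ℕ}

lemma exists_t0 (hS : Sch S) (G : GRes S N) (i0 : Fin r) (θ : S i0 ≅ 𝟙_ C) :
    Nonempty (Fin (N i0 i0 i0)) := by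
  by_contra hne
  have h0 : ∀ c s, G.e i0 i0 c s = 0 := by
    intro c s
    by_cases hc : c = i0
    · subst hc
      exact absurd ⟨s⟩ hne
    · have h1 := hS.hor c i0 hc (G.e i0 i0 c s ≫ (S i0 ◁ θ.hom) ≫ (ρ_ (S i0)).hom)
      have h2 := congrArg (fun w => w ≫ (ρ_ (S i0)).inv ≫ (S i0 ◁ θ.inv)) h1
      simp only [Category.assoc, Iso.hom_inv_id_assoc, zero_comp] at h2
      rw [← MonoidalCategory.whiskerLeft_comp, θ.hom_inv_id, MonoidalCategory.whiskerLeft_id,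
        Category.comp_id] at h2
      exact h2
  have h1 := G.qe i0 i0
  simp only [h0, comp_zero, Finset.sum_const_zero] at h1
  apply hS.hne i0
  have h2 : 𝟙 (S i0) = ((ρ_ (S i0)).inv ≫ (S i0 ◁ θ.inv)) ≫ 𝟙 (S i0 ⊗ S i0) ≫
      ((S i0 ◁ θ.hom) ≫ (ρ_ (S i0)).hom) := by
    simp only [Category.id_comp, Category.assoc]
    rw [← MonoidalCategory.whiskerLeft_comp_assoc, θ.inv_hom_id, MonoidalCategory.whiskerLeft_id,
      Category.id_comp, Iso.inv_hom_id]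
  rw [h2, ← h1, zero_comp, comp_zero]

lemma exists_z (hS : Sch S) (G : GRes S N) (hU : FUnit G) (i0 : Fin r) (θ : S i0 ≅ 𝟙_ C) :
    ∃ z : ℂ, z ≠ 0 ∧ (∀ b t, ‖z * Lent G i0 θ b t‖ = 1) ∧ (∀ b t, ‖z * Rent G i0 θ b t‖ = 1) := by
  obtain ⟨t0⟩ := exists_t0 hS G i0 θ
  have hL : ∀ b t, ‖Lent G i0 θ b t‖ = ‖Rent G i0 θ i0 t0‖ := fun b t =>
    (norm_RL hS G i0 θ hU i0 b b t t0 t).symm
  have hR : ∀ b t, ‖Rent G i0 θ b t‖ = ‖Rent G i0 θ i0 t0‖ := fun b t => by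
    rw [norm_RL hS G i0 θ hU b i0 b t t t0, hL]
  have hne : Rent G i0 θ i0 t0 ≠ 0 := by
    intro h
    have h1 := Rent_mul hS G i0 θ i0 t0
    rw [h, zero_mul] at h1
    exact zero_ne_one h1
  have hn : ‖Rent G i0 θ i0 t0‖ ≠ 0 := norm_ne_zero_iff.2 hne
  refine ⟨((‖Rent G i0 θ i0 t0‖⁻¹ : ℝ) : ℂ), ?_, fun b t => ?_, fun b t => ?_⟩
  · exact_mod_cast inv_ne_zero hn
  · rw [norm_mul, hL, Complex.norm_real, Real.norm_of_nonneg (inv_nonneg.2 (norm_nonneg _)),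
      inv_mul_cancel₀ hn]
  · rw [norm_mul, hR b t, Complex.norm_real, Real.norm_of_nonneg (inv_nonneg.2 (norm_nonneg _)),
      inv_mul_cancel₀ hn]

end Unit0

section Sanity

variable {C : Type u} [Category.{v} C] [Preadditive C] [Linear ℂ C] [MonoidalCategory C]
  [MonoidalPreadditive C] [MonoidalLinear ℂ C] {r : ℕ}

variable {S : Fin r → C} (hS : Sch S) (B : Gauge S) (R : ∀ Y : C, {X : Res S // X.X = Y})

include hS in
lemma right_total (a b c d : Fin r) (v : S d ⟶ S a ⊗ (S b ⊗ S c)) :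
    v = ∑ x : RightIx S a b c d, scal (v ≫ (S a ◁ (gaugeRes hS B R).q b c x.1 x.2.1) ≫
      (gaugeRes hS B R).q a x.1 d x.2.2) • rightVec S B a b c d x := by
  set G := gaugeRes hS B R with hG
  have h1 : v = ∑ f, ∑ s, (v ≫ (S a ◁ G.q b c f s)) ≫ (S a ◁ G.e b c f s) := by
    have h0 := G.qe b c
    have h2 := congrArg (fun w => v ≫ (S a ◁ w)) h0
    simp only [MonoidalCategory.whiskerLeft_id, Category.comp_id, whiskerLeft_sum,
      MonoidalCategory.whiskerLeft_comp, Preadditive.comp_sum] at h2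
    simp only [Category.assoc]
    exact h2.symm
  have h2 : ∀ f s, v ≫ (S a ◁ G.q b c f s) = ∑ t, scal (v ≫ (S a ◁ G.q b c f s) ≫
      G.q a f d t) • G.e a f d t := by
    intro f s
    have h3 : v ≫ (S a ◁ G.q b c f s) = ∑ d', ∑ t, ((v ≫ (S a ◁ G.q b c f s)) ≫ G.q a f d' t) ≫
        G.e a f d' t := by
      have h0 := congrArg (fun w => (v ≫ (S a ◁ G.q b c f s)) ≫ w) (G.qe a f)
      simp only [Category.comp_id, Preadditive.comp_sum] at h0
      refine h0.symm.trans ?_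
      simp only [Category.assoc]
    rw [Finset.sum_eq_single d] at h3
    · conv_lhs => rw [h3]
      refine Finset.sum_congr rfl (fun t _ => ?_)
      conv_lhs => rw [scal_spec hS ((v ≫ (S a ◁ G.q b c f s)) ≫ G.q a f d t)]
      rw [Linear.smul_comp, Category.id_comp, Category.assoc]
    · intro d' _ hd'
      refine Finset.sum_eq_zero (fun t _ => ?_)
      rw [hS.hor d d' (Ne.symm hd') ((v ≫ (S a ◁ G.q b c f s)) ≫ G.q a f d' t), zero_comp]
    · simp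
  conv_lhs => rw [h1]
  rw [Fintype.sum_sigma]
  refine Finset.sum_congr rfl (fun f _ => ?_)
  rw [Fintype.sum_prod_type]
  refine Finset.sum_congr rfl (fun s _ => ?_)
  rw [h2 f s, Preadditive.sum_comp]
  refine Finset.sum_congr rfl (fun t _ => ?_)
  rw [Linear.smul_comp]
  rfl

include hS R in
/-- every F-matrix exists and is unique -/
theorem existsUnique_fMatrix_aux (a b c d : Fin r) :
    ∃! M : Matrix (RightIx S a b c d) (LeftIx S a b c d) ℂ, IsFMatrix S B a b c d M := by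
  refine ⟨fun x y => scal ((leftVec S B a b c d y ≫ (α_ (S a) (S b) (S c)).hom) ≫
    (S a ◁ (gaugeRes hS B R).q b c x.1 x.2.1) ≫ (gaugeRes hS B R).q a x.1 d x.2.2), ?_, ?_⟩
  · intro y
    exact right_total hS B R a b c d _
  · intro M hM
    ext x y
    rw [hM y]
    simp only [Preadditive.sum_comp, Linear.smul_comp]
    rw [Finset.sum_eq_single x]
    · rw [right_orth hS B R a b c d x x, if_pos rfl, scal_smul_id hS]
    · intro x' _ hx'
      rw [right_orth hS B R a b c d x' x, if_neg hx', smul_zero]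
    · simp

end Sanity

section SanityFinal

variable {C : Type u} [Category.{v} C] [Abelian C] [Linear ℂ C] [HasFiniteBiproducts C]
  [MonoidalCategory C] [MonoidalPreadditive C] [MonoidalLinear ℂ C] [RigidCategory C]

/-- Sanity check: in every gauge, each F-matrix exists and is unique. -/
theorem existsUnique_fMatrix (hC : IsFusionCategory C) {r : ℕ} (S : Fin r → C)
    (hS : ListsSimples S) (B : Gauge S) (a b c d : Fin r) :
    ∃! M : Matrix (RightIx S a b c d) (LeftIx S a b c d) ℂ, IsFMatrix S B a b c d M := by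
  choose R hR using res_of hC hS
  exact existsUnique_fMatrix_aux (sch_of hC hS) B (fun Y => ⟨R Y, hR Y⟩) a b c d

end SanityFinal

section Abs

variable {D : Type u} [Category.{v} D] [Preadditive D] [Linear ℂ D] [MonoidalCategory D]
  [MonoidalPreadditive D] [MonoidalLinear ℂ D] (s : CStarTensorStructure D)

include s

lemma sdag_id (X : D) : s.dag (𝟙 X) = 𝟙 X := by
  have h := s.dag_comp (𝟙 X) (s.dag (𝟙 X))
  rw [Category.id_comp, s.dag_dag, Category.id_comp] at h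
  exact h.symm

lemma sdag_neg {X Y : D} (f : X ⟶ Y) : s.dag (-f) = - s.dag f := by
  have h := s.dag_smul (-1) f
  simpa using h

lemma sdag_sub {X Y : D} (f g : X ⟶ Y) : s.dag (f - g) = s.dag f - s.dag g := by
  rw [sub_eq_add_neg, s.dag_add, sdag_neg, ← sub_eq_add_neg]

lemma sdag_zero {X Y : D} : s.dag (0 : X ⟶ Y) = 0 := by
  have h := s.dag_smul 0 (0 : X ⟶ Y)
  simpa using h

lemma sdag_whiskerRight {X Y : D} (f : X ⟶ Y) (Z : D) : s.dag (f ▷ Z) = s.dag f ▷ Z := by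
  rw [← tensorHom_id, s.dag_tensor, sdag_id, tensorHom_id]

lemma sdag_whiskerLeft (Z : D) {X Y : D} (f : X ⟶ Y) : s.dag (Z ◁ f) = Z ◁ s.dag f := by
  rw [← id_tensorHom, s.dag_tensor, sdag_id, id_tensorHom]

lemma sdag_assoc_inv (X Y Z : D) : s.dag (α_ X Y Z).inv = (α_ X Y Z).hom := by
  rw [← s.dag_associator, s.dag_dag]

lemma eq_zero_of_comp_dag {X Y : D} (f : X ⟶ Y) (h : f ≫ s.dag f = 0) : f = 0 := by
  apply s.nrm_eq_zero
  have h1 := s.nrm_comp_dag f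
  rw [h] at h1
  have h2 := s.nrm_smul 0 (0 : X ⟶ X)
  rw [zero_smul, norm_zero, zero_mul] at h2
  rw [h2] at h1
  exact pow_eq_zero_iff (two_ne_zero) |>.1 h1.symm

/-- positivity of scalars -/
lemma scalar_nonneg {X V : D} (hX : ∀ f : X ⟶ X, ∃ z : ℂ, f = z • 𝟙 X) (hX0 : 𝟙 X ≠ 0)
    (h : X ⟶ V) : ∃ c : ℝ, 0 ≤ c ∧ h ≫ s.dag h = (c : ℂ) • 𝟙 X := by
  obtain ⟨g, hg⟩ := s.positive h
  obtain ⟨z, hz⟩ := hX g
  refine ⟨Complex.normSq z, Complex.normSq_nonneg z, ?_⟩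
  rw [hg, hz, s.dag_smul, sdag_id, Linear.smul_comp, Category.id_comp, smul_smul,
    Complex.mul_conj]

lemma real_smul_inj {X : D} (hX0 : 𝟙 X ≠ 0) {a b : ℝ} (h : (a : ℂ) • 𝟙 X = (b : ℂ) • 𝟙 X) :
    a = b := by
  by_contra hne
  have h1 : ((a : ℂ) - (b : ℂ)) • 𝟙 X = 0 := by rw [sub_smul, h, sub_self]
  rcases smul_eq_zero.1 h1 with h2 | h2
  · exact hne (by exact_mod_cast sub_eq_zero.1 h2)
  · exact hX0 h2

section PT

variable {Y Y' : D} (η : 𝟙_ D ⟶ Y ⊗ Y')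

omit s in
/-- insertion of a cup -/
def cup (A : D) : A ⟶ (A ⊗ Y) ⊗ Y' := (ρ_ A).inv ≫ (A ◁ η) ≫ (α_ A Y Y').inv

/-- partial trace -/
def pt (A : D) (T : A ⊗ Y ⟶ A ⊗ Y) : A ⟶ A := cup η A ≫ (T ▷ Y') ≫ s.dag (cup η A)

lemma pt_add (A : D) (T U : A ⊗ Y ⟶ A ⊗ Y) : pt s η A (T + U) = pt s η A T + pt s η A U := by
  unfold pt
  rw [MonoidalPreadditive.add_whiskerRight, Preadditive.add_comp, Preadditive.comp_add]

lemma pt_smul (A : D) (z : ℂ) (T : A ⊗ Y ⟶ A ⊗ Y) : pt s η A (z • T) = z • pt s η A T := by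
  unfold pt
  rw [MonoidalLinear.smul_whiskerRight, Linear.smul_comp, Linear.comp_smul]

lemma pt_sq (A : D) {W : D} (f : A ⊗ Y ⟶ W) :
    pt s η A (f ≫ s.dag f) = (cup η A ≫ (f ▷ Y')) ≫ s.dag (cup η A ≫ (f ▷ Y')) := by
  unfold pt
  rw [s.dag_comp, sdag_whiskerRight, comp_whiskerRight]
  simp only [Category.assoc]

lemma cup_comp_dag (A : D) (κ : ℂ) (hκ : η ≫ s.dag η = κ • 𝟙 (𝟙_ D)) :
    cup η A ≫ s.dag (cup η A) = κ • 𝟙 A := by
  have h1 : s.dag (ρ_ A).inv = (ρ_ A).hom := by rw [← s.dag_rightUnitor, s.dag_dag]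
  unfold cup
  rw [s.dag_comp, s.dag_comp, sdag_assoc_inv, h1, sdag_whiskerLeft]
  simp only [Category.assoc, Iso.inv_hom_id_assoc]
  rw [← MonoidalCategory.whiskerLeft_comp_assoc, hκ, MonoidalLinear.whiskerLeft_smul,
    MonoidalCategory.whiskerLeft_id]
  simp

lemma pt_id (A : D) (κ : ℂ) (hκ : η ≫ s.dag η = κ • 𝟙 (𝟙_ D)) :
    pt s η A (𝟙 _) = κ • 𝟙 A := by
  unfold pt
  rw [id_whiskerRight, Category.id_comp, cup_comp_dag s η A κ hκ]

omit s in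
lemma cup_nat {A B : D} (f : A ⟶ B) : cup η A ≫ ((f ▷ Y) ▷ Y') = f ≫ cup η B := by
  unfold cup
  simp only [Category.assoc]
  rw [← associator_inv_naturality_left, whisker_exchange_assoc, rightUnitor_inv_naturality_assoc]

lemma pt_bimod {A B : D} (f : A ⟶ B) (T : B ⊗ Y ⟶ B ⊗ Y) :
    pt s η A ((f ▷ Y) ≫ T ≫ (s.dag f ▷ Y)) = f ≫ pt s η B T ≫ s.dag f := by
  have h1 : s.dag (cup η B) ≫ s.dag f = ((s.dag f ▷ Y) ▷ Y') ≫ s.dag (cup η A) := by
    rw [← s.dag_comp, ← cup_nat η f, s.dag_comp, sdag_whiskerRight, sdag_whiskerRight]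
  unfold pt
  simp only [comp_whiskerRight, Category.assoc]
  rw [h1, ← Category.assoc, cup_nat]
  simp only [Category.assoc]

omit s in
lemma cup_left (B A : D) : cup η (B ⊗ A) ≫ ((α_ B A Y).hom ▷ Y') =
    (B ◁ cup η A) ≫ (α_ B (A ⊗ Y) Y').inv := by
  unfold cup
  monoidal

lemma pt_left (B A : D) (T : A ⊗ Y ⟶ A ⊗ Y) :
    pt s η (B ⊗ A) ((α_ B A Y).hom ≫ (B ◁ T) ≫ (α_ B A Y).inv) = B ◁ pt s η A T := by
  have h1 : ((α_ B A Y).inv ▷ Y') ≫ s.dag (cup η (B ⊗ A)) =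
      (α_ B (A ⊗ Y) Y').hom ≫ (B ◁ s.dag (cup η A)) := by
    have h2 := congrArg s.dag (cup_left η B A)
    rw [s.dag_comp, s.dag_comp, sdag_whiskerRight, sdag_whiskerLeft, s.dag_associator,
      sdag_assoc_inv] at h2
    exact h2
  unfold pt
  simp only [comp_whiskerRight, Category.assoc]
  rw [h1, ← Category.assoc (cup η (B ⊗ A)), cup_left]
  simp only [Category.assoc, MonoidalCategory.whiskerLeft_comp]
  rw [← associator_inv_naturality_middle_assoc, Iso.inv_hom_id_assoc]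

/-- faithfulness of the partial trace -/
lemma cup_faithful (ε : Y' ⊗ Y ⟶ 𝟙_ D)
    (hz : (η ▷ Y) ≫ (α_ Y Y' Y).hom ≫ (Y ◁ ε) = (λ_ Y).hom ≫ (ρ_ Y).inv)
    (A : D) {W : D} (f : A ⊗ Y ⟶ W) (h : cup η A ≫ (f ▷ Y') = 0) : f = 0 := by
  have key : (ρ_ A).inv ▷ Y ≫ ((A ◁ η) ≫ (α_ A Y Y').inv) ▷ Y ≫ (α_ (A ⊗ Y) Y' Y).hom ≫
      ((A ⊗ Y) ◁ ε) ≫ (ρ_ (A ⊗ Y)).hom = 𝟙 (A ⊗ Y) := by
    have e1 : (ρ_ A).inv ▷ Y ≫ ((A ◁ η) ≫ (α_ A Y Y').inv) ▷ Y ≫ (α_ (A ⊗ Y) Y' Y).hom ≫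
      ((A ⊗ Y) ◁ ε) ≫ (ρ_ (A ⊗ Y)).hom =
      ((ρ_ A).inv ▷ Y) ≫ (α_ A (𝟙_ D) Y).hom ≫
        (A ◁ ((η ▷ Y) ≫ (α_ Y Y' Y).hom ≫ (Y ◁ ε))) ≫ (α_ A Y (𝟙_ D)).inv ≫
          (ρ_ (A ⊗ Y)).hom := by
      monoidal
    rw [e1, hz]
    monoidal
  have h2 : ((cup η A ≫ (f ▷ Y')) ▷ Y) ≫ (α_ W Y' Y).hom ≫ (W ◁ ε) ≫ (ρ_ W).hom = f := by
    have e2 : ((cup η A ≫ (f ▷ Y')) ▷ Y) ≫ (α_ W Y' Y).hom ≫ (W ◁ ε) ≫ (ρ_ W).hom =
      ((ρ_ A).inv ▷ Y ≫ ((A ◁ η) ≫ (α_ A Y Y').inv) ▷ Y ≫ (α_ (A ⊗ Y) Y' Y).hom ≫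
      ((A ⊗ Y) ◁ ε) ≫ (ρ_ (A ⊗ Y)).hom) ≫ f := by
      unfold cup
      simp only [comp_whiskerRight, Category.assoc]
      rw [associator_naturality_left_assoc, ← whisker_exchange_assoc, rightUnitor_naturality]
    rw [e2, key, Category.id_comp]
  rw [← h2, h]
  simp

end PT

/-- natural families X ⊗ Y ⟶ Y ⊗ X satisfying the hexagon identity in Y -/
structure HB (D : Type u) [Category.{v} D] [MonoidalCategory D] (X : D) where
  γ : ∀ Y : D, X ⊗ Y ⟶ Y ⊗ X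
  nat : ∀ {Y Z : D} (f : Y ⟶ Z), (X ◁ f) ≫ γ Z = γ Y ≫ (f ▷ X)
  hex : ∀ Y Z : D, γ (Y ⊗ Z) = (α_ X Y Z).inv ≫ (γ Y ▷ Z) ≫ (α_ Y X Z).hom ≫
    (Y ◁ γ Z) ≫ (α_ Y Z X).inv

section Bound

variable {X : D} (H : HB D X) {Y Y' : D} (η : 𝟙_ D ⟶ Y ⊗ Y')

/-- tensor powers -/
def pw (Y : D) : ℕ → D
  | 0 => Y
  | n + 1 => pw Y n ⊗ Y

/-- existence of a positive functional with prescribed values -/
def Good (Z : D) (a m : ℝ) : Prop :=
  ∃ Φ : (X ⊗ Z ⟶ X ⊗ Z) →ₗ[ℂ] (X ⟶ X),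
    (∀ (W : D) (f : X ⊗ Z ⟶ W), ∃ (V : D) (h : X ⟶ V), Φ (f ≫ s.dag f) = h ≫ s.dag h) ∧
    Φ (𝟙 _) = (a : ℂ) • 𝟙 X ∧ Φ (H.γ Z ≫ s.dag (H.γ Z)) = (m : ℂ) • 𝟙 X

lemma good_base (κ μ : ℝ) (hκ : η ≫ s.dag η = (κ : ℂ) • 𝟙 (𝟙_ D))
    (hμ : pt s η X (H.γ Y ≫ s.dag (H.γ Y)) = (μ : ℂ) • 𝟙 X) : Good s H Y κ μ :=
  ⟨{ toFun := fun T => pt s η X T
     map_add' := fun T U => pt_add s η X T U
     map_smul' := fun z T => pt_smul s η X z T },
   fun W f => ⟨_, cup η X ≫ (f ▷ Y'), pt_sq s η X f⟩, pt_id s η X κ hκ, hμ⟩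

lemma gamma_step (Z : D) : (α_ X Z Y).hom ≫ (H.γ (Z ⊗ Y) ≫ s.dag (H.γ (Z ⊗ Y))) ≫
    (α_ X Z Y).inv = (H.γ Z ▷ Y) ≫ ((α_ Z X Y).hom ≫
      (Z ◁ (H.γ Y ≫ s.dag (H.γ Y))) ≫ (α_ Z X Y).inv) ≫ (s.dag (H.γ Z) ▷ Y) := by
  rw [H.hex]
  simp only [s.dag_comp, sdag_whiskerRight, sdag_whiskerLeft, sdag_assoc_inv, s.dag_associator,
    Category.assoc, Iso.hom_inv_id_assoc, Iso.inv_hom_id_assoc, Iso.hom_inv_id,
    MonoidalCategory.whiskerLeft_comp, Category.comp_id]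

lemma good_step (κ μ : ℝ) (hκ : η ≫ s.dag η = (κ : ℂ) • 𝟙 (𝟙_ D))
    (hμ : pt s η X (H.γ Y ≫ s.dag (H.γ Y)) = (μ : ℂ) • 𝟙 X) (Z : D) (a m : ℝ)
    (h : Good s H Z a m) : Good s H (Z ⊗ Y) (a * κ) (m * μ) := by
  obtain ⟨Φ, h1, h2, h3⟩ := h
  refine ⟨{ toFun := fun T => Φ (pt s η (X ⊗ Z) ((α_ X Z Y).hom ≫ T ≫ (α_ X Z Y).inv))
            map_add' := fun T U => ?_
            map_smul' := fun z T => ?_ }, ?_, ?_, ?_⟩
  · rw [Preadditive.add_comp, Preadditive.comp_add, pt_add, map_add]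
  · rw [Linear.smul_comp, Linear.comp_smul, pt_smul, map_smul]; rfl
  · intro W f
    change ∃ (V : D) (h : X ⟶ V), Φ (pt s η (X ⊗ Z) ((α_ X Z Y).hom ≫ (f ≫ s.dag f) ≫
      (α_ X Z Y).inv)) = h ≫ s.dag h
    have e : (α_ X Z Y).hom ≫ (f ≫ s.dag f) ≫ (α_ X Z Y).inv =
        ((α_ X Z Y).hom ≫ f) ≫ s.dag ((α_ X Z Y).hom ≫ f) := by
      rw [s.dag_comp, s.dag_associator]; simp only [Category.assoc]
    rw [e, pt_sq]
    exact h1 _ _
  · change Φ (pt s η (X ⊗ Z) ((α_ X Z Y).hom ≫ 𝟙 _ ≫ (α_ X Z Y).inv)) = _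
    rw [Category.id_comp, Iso.hom_inv_id, pt_id s η _ κ hκ, map_smul, h2, smul_smul]
    push_cast
    rw [mul_comm]
  · change Φ (pt s η (X ⊗ Z) ((α_ X Z Y).hom ≫ (H.γ (Z ⊗ Y) ≫ s.dag (H.γ (Z ⊗ Y))) ≫
      (α_ X Z Y).inv)) = _
    rw [gamma_step, pt_bimod, pt_left, hμ, MonoidalLinear.whiskerLeft_smul,
      MonoidalCategory.whiskerLeft_id, Linear.smul_comp, Linear.comp_smul, Category.id_comp,
      map_smul, h3, smul_smul]
    push_cast
    rw [mul_comm]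

lemma good_pw (κ μ : ℝ) (hκ : η ≫ s.dag η = (κ : ℂ) • 𝟙 (𝟙_ D))
    (hμ : pt s η X (H.γ Y ≫ s.dag (H.γ Y)) = (μ : ℂ) • 𝟙 X) (n : ℕ) :
    Good s H (pw Y n) (κ ^ (n + 1)) (μ ^ (n + 1)) := by
  induction n with
  | zero => simpa [pw] using good_base s H η κ μ hκ hμ
  | succ n ih =>
    have h := good_step s H η κ μ hκ hμ (pw Y n) _ _ ih
    rw [← pow_succ, ← pow_succ] at h
    exact h

variable {r : ℕ} (T : Fin r → D)

/-- M bounds all the squares -/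
lemma good_le (hX : ∀ f : X ⟶ X, ∃ z : ℂ, f = z • 𝟙 X) (hX0 : 𝟙 X ≠ 0)
    (hdec : ∀ Z : D, ∃ (J : Type) (_ : Fintype J) (i : J → Fin r) (b : ∀ j, T (i j) ⟶ Z),
      ∑ j, s.dag (b j) ≫ b j = 𝟙 Z)
    (M : ℝ) (hM : ∀ i, ∃ Q : X ⊗ T i ⟶ X ⊗ T i, (M : ℂ) • 𝟙 (X ⊗ T i) -
      H.γ (T i) ≫ s.dag (H.γ (T i)) = Q ≫ s.dag Q)
    (Z : D) (a m : ℝ) (h : Good s H Z a m) : m ≤ M * a := by
  obtain ⟨Φ, h1, h2, h3⟩ := h
  obtain ⟨J, _, i, b, hb⟩ := hdec Z
  choose Q hQ using hM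
  have e1 : ∀ j, (X ◁ s.dag (b j)) ≫ (H.γ (T (i j)) ≫ s.dag (H.γ (T (i j)))) ≫ (X ◁ b j) =
      H.γ Z ≫ ((s.dag (b j) ≫ b j) ▷ X) ≫ s.dag (H.γ Z) := by
    intro j
    have n1 := H.nat (s.dag (b j))
    have n2 := congrArg s.dag n1
    rw [s.dag_comp, s.dag_comp, sdag_whiskerLeft, sdag_whiskerRight, s.dag_dag] at n2
    simp only [Category.assoc, comp_whiskerRight]
    rw [n2, ← Category.assoc, n1, Category.assoc]
  have e2 : (M : ℂ) • 𝟙 (X ⊗ Z) - H.γ Z ≫ s.dag (H.γ Z) =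
      ∑ j, ((X ◁ s.dag (b j)) ≫ Q (i j)) ≫ s.dag ((X ◁ s.dag (b j)) ≫ Q (i j)) := by
    have e3 : ∀ j, ((X ◁ s.dag (b j)) ≫ Q (i j)) ≫ s.dag ((X ◁ s.dag (b j)) ≫ Q (i j)) =
        (M : ℂ) • (X ◁ (s.dag (b j) ≫ b j)) -
          H.γ Z ≫ ((s.dag (b j) ≫ b j) ▷ X) ≫ s.dag (H.γ Z) := by
      intro j
      rw [s.dag_comp, sdag_whiskerLeft, s.dag_dag, ← e1 j]
      have e4 : ((X ◁ s.dag (b j)) ≫ Q (i j)) ≫ s.dag (Q (i j)) ≫ (X ◁ b j) =
          (X ◁ s.dag (b j)) ≫ (Q (i j) ≫ s.dag (Q (i j))) ≫ (X ◁ b j) := by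
        simp only [Category.assoc]
      rw [e4, ← hQ (i j), Preadditive.sub_comp, Preadditive.comp_sub, Linear.smul_comp,
        Linear.comp_smul, Category.id_comp, MonoidalCategory.whiskerLeft_comp]
    simp only [e3]
    rw [Finset.sum_sub_distrib, ← Finset.smul_sum, ← whiskerLeft_sum, hb,
      MonoidalCategory.whiskerLeft_id, ← Preadditive.comp_sum, ← Preadditive.sum_comp,
      ← sum_whiskerRight, hb, id_whiskerRight, Category.id_comp]
  have e5 : ∀ j, ∃ c : ℝ, 0 ≤ c ∧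
      Φ (((X ◁ s.dag (b j)) ≫ Q (i j)) ≫ s.dag ((X ◁ s.dag (b j)) ≫ Q (i j))) =
        (c : ℂ) • 𝟙 X := by
    intro j
    obtain ⟨V, h, hh⟩ := h1 _ ((X ◁ s.dag (b j)) ≫ Q (i j))
    rw [hh]
    exact scalar_nonneg s hX hX0 h
  choose c hc0 hc using e5
  have e6 := congrArg Φ e2
  rw [map_sub, map_smul, h2, h3, map_sum] at e6
  simp only [hc] at e6
  rw [← Finset.sum_smul, smul_smul, ← sub_smul] at e6
  have e7 : M * a - m = ∑ j, c j := by
    apply real_smul_inj s hX0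
    push_cast
    exact e6
  have e8 : 0 ≤ ∑ j, c j := Finset.sum_nonneg (fun j _ => hc0 j)
  linarith

lemma mu_le (hX : ∀ f : X ⟶ X, ∃ z : ℂ, f = z • 𝟙 X) (hX0 : 𝟙 X ≠ 0)
    (hdec : ∀ Z : D, ∃ (J : Type) (_ : Fintype J) (i : J → Fin r) (b : ∀ j, T (i j) ⟶ Z),
      ∑ j, s.dag (b j) ≫ b j = 𝟙 Z)
    (hbd : ∀ {A B : D} (f : A ⟶ B), ∃ M : ℝ, ∀ M' : ℝ, M ≤ M' → ∃ Q : A ⟶ A,
      (M' : ℂ) • 𝟙 A - f ≫ s.dag f = Q ≫ s.dag Q)
    (κ μ : ℝ) (hκ0 : 0 < κ) (hμ0 : 0 ≤ μ) (hκ : η ≫ s.dag η = (κ : ℂ) • 𝟙 (𝟙_ D))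
    (hμ : pt s η X (H.γ Y ≫ s.dag (H.γ Y)) = (μ : ℂ) • 𝟙 X) : μ ≤ κ := by
  choose Mi hMi using fun i => hbd (H.γ (T i))
  have hM : ∃ M : ℝ, ∀ i, Mi i ≤ M := by
    refine ⟨∑ i, |Mi i|, fun i => (le_abs_self _).trans ?_⟩
    exact Finset.single_le_sum (f := fun i => |Mi i|) (fun j _ => abs_nonneg _)
      (Finset.mem_univ i)
  obtain ⟨M, hM⟩ := hM
  have key : ∀ n : ℕ, μ ^ (n + 1) ≤ M * κ ^ (n + 1) := fun n =>
    good_le s H T hX hX0 hdec M (fun i => hMi i M (hM i)) _ _ _ (good_pw s H η κ μ hκ hμ n)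
  by_contra hlt
  push Not at hlt
  have h1 : 1 < μ / κ := by rw [one_lt_div hκ0]; exact hlt
  obtain ⟨n, hn⟩ := pow_unbounded_of_one_lt (max M 0) h1
  have h2 : (μ / κ) ^ (n + 1) ≤ M := by
    rw [div_pow, div_le_iff₀ (pow_pos hκ0 _)]
    exact key n
  have h3 : (μ / κ) ^ n ≤ (μ / κ) ^ (n + 1) := pow_le_pow_right₀ h1.le (Nat.le_succ n)
  have h4 : M ≤ max M 0 := le_max_left _ _
  linarith

end Bound

section Final

variable [BraidedCategory D]

/-- the half braiding -/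
def hb1 (X : D) : HB D X where
  γ Y := (β_ X Y).hom
  nat f := BraidedCategory.braiding_naturality_right X f
  hex Y Z := BraidedCategory.braiding_tensor_right_hom X Y Z

/-- the adjoint inverse half braiding -/
def hb2 (X : D) : HB D X where
  γ Y := s.dag (β_ X Y).inv
  nat {Y Z} f := by
    have h := BraidedCategory.braiding_naturality_right X (s.dag f)
    have h1 : (β_ X Z).inv ≫ (X ◁ s.dag f) = (s.dag f ▷ X) ≫ (β_ X Y).inv := by
      rw [Iso.inv_comp_eq, ← Category.assoc, Iso.eq_comp_inv]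
      exact h
    have h2 := congrArg s.dag h1
    rw [s.dag_comp, s.dag_comp, sdag_whiskerLeft, sdag_whiskerRight, s.dag_dag] at h2
    exact h2
  hex Y Z := by
    rw [BraidedCategory.braiding_tensor_right_inv]
    simp only [s.dag_comp, sdag_whiskerRight, sdag_whiskerLeft, sdag_assoc_inv,
      s.dag_associator, Category.assoc]

/-- In a C*-tensor category with the finiteness properties of a fusion category, every braiding
is unitary. -/
theorem braiding_unitary {r : ℕ} (T : Fin r → D)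
    (hT : ∀ i, (∀ f : T i ⟶ T i, ∃ z : ℂ, f = z • 𝟙 (T i)) ∧ 𝟙 (T i) ≠ 0)
    (h1 : ∀ f : 𝟙_ D ⟶ 𝟙_ D, ∃ z : ℂ, f = z • 𝟙 (𝟙_ D)) (h10 : 𝟙 (𝟙_ D) ≠ 0)
    (hdec : ∀ Z : D, ∃ (J : Type) (_ : Fintype J) (i : J → Fin r) (b : ∀ j, T (i j) ⟶ Z),
      ∑ j, s.dag (b j) ≫ b j = 𝟙 Z)
    (hbd : ∀ {A B : D} (f : A ⟶ B), ∃ M : ℝ, ∀ M' : ℝ, M ≤ M' → ∃ Q : A ⟶ A,
      (M' : ℂ) • 𝟙 A - f ≫ s.dag f = Q ≫ s.dag Q)
    (hdual : ∀ Y : D, ∃ (Y' : D) (η : 𝟙_ D ⟶ Y ⊗ Y') (ε : Y' ⊗ Y ⟶ 𝟙_ D),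
      (η ▷ Y) ≫ (α_ Y Y' Y).hom ≫ (Y ◁ ε) = (λ_ Y).hom ≫ (ρ_ Y).inv) (X Y : D) :
    s.dag (β_ X Y).hom = (β_ X Y).inv := by
  have simp1 : ∀ i, ∀ Y : D, (β_ (T i) Y).hom ≫ s.dag (β_ (T i) Y).hom = 𝟙 (T i ⊗ Y) := by
    intro i Y
    obtain ⟨Y', η, ε, hz⟩ := hdual Y
    obtain ⟨hX, hX0⟩ := hT i
    obtain ⟨κ, hκ0, hκ⟩ := scalar_nonneg s h1 h10 η
    -- the case κ = 0
    rcases hκ0.lt_or_eq with hpos | hzero
    · have hp : ∀ H : HB D (T i), ∃ μ : ℝ, 0 ≤ μ ∧ μ ≤ κ ∧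
          pt s η (T i) (H.γ Y ≫ s.dag (H.γ Y)) = (μ : ℂ) • 𝟙 (T i) := by
        intro H
        obtain ⟨μ, hμ0, hμ⟩ := scalar_nonneg s hX hX0 (cup η (T i) ≫ (H.γ Y ▷ Y'))
        rw [← pt_sq] at hμ
        exact ⟨μ, hμ0, mu_le s H η T hX hX0 hdec hbd κ μ hpos hμ0 hκ hμ, hμ⟩
      obtain ⟨μ1, -, hle1, hμ1⟩ := hp (hb1 (T i))
      obtain ⟨μ2, -, hle2, hμ2⟩ := hp (hb2 s (T i))
      have hW : ((β_ (T i) Y).hom - s.dag (β_ (T i) Y).inv) ≫
          s.dag ((β_ (T i) Y).hom - s.dag (β_ (T i) Y).inv) =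
          (β_ (T i) Y).hom ≫ s.dag (β_ (T i) Y).hom +
          s.dag (β_ (T i) Y).inv ≫ s.dag (s.dag (β_ (T i) Y).inv) -
          (2 : ℂ) • 𝟙 (T i ⊗ Y) := by
        have e1 : s.dag (β_ (T i) Y).inv ≫ s.dag (β_ (T i) Y).hom = 𝟙 _ := by
          rw [← s.dag_comp, Iso.hom_inv_id, sdag_id]
        rw [sdag_sub]
        simp only [Preadditive.sub_comp, Preadditive.comp_sub, s.dag_dag, e1, Iso.hom_inv_id]
        rw [two_smul]
        abel
      have h2 := pt_sq s η (T i) ((β_ (T i) Y).hom - s.dag (β_ (T i) Y).inv)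
      rw [hW, sub_eq_add_neg, pt_add, pt_add, ← neg_smul, pt_smul, pt_id s η _ κ hκ] at h2
      have h3 : pt s η (T i) ((β_ (T i) Y).hom ≫ s.dag (β_ (T i) Y).hom) =
          (μ1 : ℂ) • 𝟙 (T i) := hμ1
      have h4 : pt s η (T i) (s.dag (β_ (T i) Y).inv ≫ s.dag (s.dag (β_ (T i) Y).inv)) =
          (μ2 : ℂ) • 𝟙 (T i) := hμ2
      rw [h3, h4, smul_smul, ← add_smul, ← add_smul] at h2
      obtain ⟨c, hc0, hc⟩ := scalar_nonneg s hX hX0
        (cup η (T i) ≫ (((β_ (T i) Y).hom - s.dag (β_ (T i) Y).inv) ▷ Y'))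
      have h5 : μ1 + μ2 + -2 * κ = c := by
        apply real_smul_inj s hX0
        rw [← hc, ← h2]
        push_cast
        rfl
      have h6 : c = 0 := le_antisymm (by linarith) hc0
      rw [h6, Complex.ofReal_zero, zero_smul] at hc
      have h7 := cup_faithful s η ε hz (T i) _ (eq_zero_of_comp_dag s _ hc)
      have h8 : (β_ (T i) Y).hom = s.dag (β_ (T i) Y).inv := sub_eq_zero.1 h7
      have h9 : s.dag (β_ (T i) Y).hom = (β_ (T i) Y).inv := by rw [h8, s.dag_dag]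
      rw [h9, Iso.hom_inv_id]
    · rw [← hzero, Complex.ofReal_zero, zero_smul] at hκ
      have h2 := eq_zero_of_comp_dag s _ hκ
      rw [h2] at hz
      simp only [MonoidalPreadditive.zero_whiskerRight, zero_comp] at hz
      have h3 : 𝟙 Y = 0 := by
        have : 𝟙 Y = (λ_ Y).inv ≫ ((λ_ Y).hom ≫ (ρ_ Y).inv) ≫ (ρ_ Y).hom := by simp
        rw [this, ← hz]
        simp
      have h4 : 𝟙 (T i ⊗ Y) = 0 := by
        rw [← MonoidalCategory.whiskerLeft_id, h3, MonoidalPreadditive.whiskerLeft_zero]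
      rw [← Category.id_comp ((β_ (T i) Y).hom ≫ _), h4, zero_comp]
  have all : (β_ X Y).hom ≫ s.dag (β_ X Y).hom = 𝟙 (X ⊗ Y) := by
    obtain ⟨J, _, i, b, hb⟩ := hdec X
    have e1 : ∀ j, (b j ▷ Y) ≫ (β_ X Y).hom ≫ s.dag (β_ X Y).hom = b j ▷ Y := by
      intro j
      have n1 := BraidedCategory.braiding_naturality_left (b j) Y
      have n2 := BraidedCategory.braiding_naturality_left (s.dag (b j)) Y
      have n3 := congrArg s.dag n2
      rw [s.dag_comp, s.dag_comp, sdag_whiskerLeft, sdag_whiskerRight, s.dag_dag] at n3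
      rw [← Category.assoc, n1, Category.assoc, ← n3, ← Category.assoc, simp1, Category.id_comp]
    have e2 : (β_ X Y).hom ≫ s.dag (β_ X Y).hom =
        ∑ j, ((s.dag (b j) ≫ b j) ▷ Y) ≫ (β_ X Y).hom ≫ s.dag (β_ X Y).hom := by
      rw [← Preadditive.sum_comp, ← sum_whiskerRight, hb, id_whiskerRight, Category.id_comp]
    rw [e2]
    simp only [comp_whiskerRight, Category.assoc, e1]
    simp only [← comp_whiskerRight]
    rw [← sum_whiskerRight, hb, id_whiskerRight]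
  rw [← Category.id_comp (s.dag (β_ X Y).hom), ← Iso.inv_hom_id (β_ X Y), Category.assoc, all,
    Category.comp_id]

end Final

end Abs

section BoundDD

variable {C : Type u} [Category.{v} C] [Preadditive C] [Linear ℂ C] {r : ℕ} {S : Fin r → C}
variable (hS : Sch S)

open scoped ComplexOrder MatrixOrder Matrix.Norms.L2Operator in
include hS in
/-- squares are bounded -/
lemma exists_bound (X Y : Res S) (f : X.X ⟶ Y.X) : ∃ M : ℝ, ∀ M' : ℝ, M ≤ M' →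
    ∃ Q : X.X ⟶ X.X, (M' : ℂ) • 𝟙 X.X - f ≫ dag X Y f = Q ≫ dag X X Q := by
  refine ⟨∑ i, ‖(cf X Y f i).conjTranspose * cf X Y f i‖, fun M' hM' => ?_⟩
  have h : ∀ i, ∃ Q : Matrix (X.ι i) (X.ι i) ℂ,
      (M' : ℂ) • (1 : Matrix (X.ι i) (X.ι i) ℂ) - (cf X Y f i).conjTranspose * cf X Y f i =
        Q.conjTranspose * Q := by
    intro i
    have h1 := (Matrix.posSemidef_conjTranspose_mul_self (cf X Y f i))
    have h2 : IsSelfAdjoint ((cf X Y f i).conjTranspose * cf X Y f i) := h1.isHermitian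
    have h3 := h2.le_algebraMap_norm_self
    have h4 : ‖(cf X Y f i).conjTranspose * cf X Y f i‖ ≤ M' :=
      (Finset.single_le_sum (f := fun i => ‖(cf X Y f i).conjTranspose * cf X Y f i‖)
        (fun j _ => norm_nonneg _) (Finset.mem_univ i)).trans hM'
    have h5 : (algebraMap ℝ (Matrix (X.ι i) (X.ι i) ℂ))
        ‖(cf X Y f i).conjTranspose * cf X Y f i‖ ≤ algebraMap ℝ _ M' :=
      algebraMap_mono _ h4
    have h6 : 0 ≤ algebraMap ℝ (Matrix (X.ι i) (X.ι i) ℂ) M' -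
        (cf X Y f i).conjTranspose * cf X Y f i := sub_nonneg.2 (h3.trans h5)
    obtain ⟨Q, hQ⟩ := CStarAlgebra.nonneg_iff_eq_star_mul_self.mp h6
    refine ⟨Q, ?_⟩
    rw [← Matrix.star_eq_conjTranspose Q, ← hQ]
    congr 1
    rw [Algebra.algebraMap_eq_smul_one]
    ext a b
    simp
  choose Q hQ using h
  refine ⟨mk X X Q, cf_ext hS X X (fun i => ?_)⟩
  rw [cf_comp hS X X X, cf_dag hS, cf_mk hS, ← hQ, sub_eq_add_neg, cf_add hS, cf_smul hS,
    cf_id hS, ← neg_one_smul ℂ, cf_smul hS, cf_comp hS X Y X, cf_dag hS, neg_one_smul,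
    ← sub_eq_add_neg]

end BoundDD

section BraidDD

variable {C : Type u} [Category.{v} C] [Preadditive C] [Linear ℂ C] [MonoidalCategory C]
  [MonoidalPreadditive C] [MonoidalLinear ℂ C] [BraidedCategory C] {r : ℕ}
  {S : Fin r → C} {N : Fin r → Fin r → Fin r → ℕ} (δ : Dat S N)

instance braidDD : BraidedCategory (DD δ) where
  braiding X Y :=
    { hom := (β_ (ob δ X) (ob δ Y)).hom
      inv := (β_ (ob δ X) (ob δ Y)).inv
      hom_inv_id := (β_ (ob δ X) (ob δ Y)).hom_inv_id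
      inv_hom_id := (β_ (ob δ X) (ob δ Y)).inv_hom_id }
  braiding_naturality_right X {Y Z} f :=
    BraidedCategory.braiding_naturality_right (C := C) (ob δ X) f
  braiding_naturality_left {X Y} f Z :=
    BraidedCategory.braiding_naturality_left (C := C) f (ob δ Z)
  hexagon_forward X Y Z :=
    BraidedCategory.hexagon_forward (C := C) (ob δ X) (ob δ Y) (ob δ Z)
  hexagon_reverse X Y Z :=
    BraidedCategory.hexagon_reverse (C := C) (ob δ X) (ob δ Y) (ob δ Z)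

/-- the forgetful functor is braided -/
def braFF : (FF δ).Braided where
  toMonoidal := monFF δ
  braided X Y := by
    change 𝟙 _ ≫ (β_ (ob δ X) (ob δ Y)).hom = (β_ (ob δ X) (ob δ Y)).hom ≫ 𝟙 _
    rw [Category.id_comp, Category.comp_id]

/-- the simple objects of the model -/
abbrev simpRes (hS : Sch S) (i : Fin r) : Res S where
  X := S i
  ι j := {_x : Unit // j = i}
  b j h := eqToHom (congrArg S h.2)
  p j h := eqToHom (congrArg S h.2).symm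
  bp j m n := by
    obtain ⟨_, hm⟩ := m
    obtain ⟨_, hn⟩ := n
    subst hm
    simp
  pb := by
    rw [Finset.sum_eq_single i]
    · rw [Fintype.sum_eq_single (⟨(), rfl⟩ : {_x : Unit // i = i})]
      · simp
      · intro b hb
        exact absurd (Subsingleton.elim _ _) hb
    · intro j _ hj
      have : IsEmpty {_x : Unit // j = i} := ⟨fun h => hj h.2⟩
      simp
    · simp

lemma dag_basis (hS : Sch S) (Z : Res S) (i : Fin r) (m : Z.ι i) :
    dag (simpRes hS i) Z (Z.b i m) = Z.p i m := by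
  refine cf_ext hS Z (simpRes hS i) (fun d => ?_)
  rw [cf_dag hS]
  ext ⟨u, hu⟩ n
  subst hu
  rw [Matrix.conjTranspose_apply]
  change star (scal (eqToHom rfl ≫ Z.b d m ≫ Z.p d n)) = scal (Z.b d n ≫ Z.p d m ≫ eqToHom rfl)
  rw [eqToHom_refl, Category.id_comp, Category.comp_id, Z.bp, Z.bp]
  by_cases h : m = n
  · rw [if_pos h, if_pos h.symm, scal_id hS, star_one]
  · rw [if_neg h, if_neg (Ne.symm h), scal_zero hS, star_zero]

end BraidDD

section Final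

variable (C : Type u) [Category.{v} C] [Abelian C] [Linear ℂ C] [HasFiniteBiproducts C]
    [MonoidalCategory C] [MonoidalPreadditive C] [MonoidalLinear ℂ C] [RigidCategory C]
    [BraidedCategory C]

/-- A braided fusion category having a gauge in which all F-matrices are unitary is unitary as a
braided fusion category. -/
theorem result (hC : IsFusionCategory C) {r : ℕ} (S : Fin r → C) (hS : ListsSimples S)
    (B : Gauge S) (hB : UnitaryFMatrices S B) : IsUnitaryBraided C := by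
  have hSch := sch_of hC hS
  choose R hR using res_of hC hS
  obtain ⟨i0, ⟨θ'⟩⟩ := hS.complete (𝟙_ C) hC.simple_unit
  have hU := funit_of hSch B (fun Y => ⟨R Y, hR Y⟩) hB
  obtain ⟨z, hz, hL, hR'⟩ := exists_z hSch (gaugeRes hSch B (fun Y => ⟨R Y, hR Y⟩)) hU i0 θ'.symm
  let δ : Dat S (fun a b c => Module.finrank ℂ (S c ⟶ S a ⊗ S b)) :=
    { hS := hSch
      G := gaugeRes hSch B (fun Y => ⟨R Y, hR Y⟩)
      i0 := i0
      θ := θ'.symm
      z := z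
      hz := hz }
  refine ⟨DD δ, inferInstance, inferInstance, inferInstance, inferInstance, inferInstance,
    inferInstance, inferInstance, starDD δ hU hL hR', FF δ, braFF δ, ?_, inferInstance,
    inferInstance, ?_⟩
  · have hone : ∀ f : 𝟙_ C ⟶ 𝟙_ C, ∃ w : ℂ, f = w • 𝟙 (𝟙_ C) := by
      intro f
      obtain ⟨w, hw⟩ := hSch.hid i0 (θ'.inv ≫ f ≫ θ'.hom)
      refine ⟨w, ?_⟩
      have h2 := congrArg (fun t => θ'.hom ≫ t ≫ θ'.inv) hw
      simpa using h2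
    have hone0 : 𝟙 (𝟙_ C) ≠ 0 := by
      intro h
      apply hSch.hne i0
      have h2 : 𝟙 (S i0) = θ'.inv ≫ 𝟙 (𝟙_ C) ≫ θ'.hom := by simp
      rw [h2, h]
      simp
    refine braiding_unitary (starDD δ hU hL hR') (fun i => (show DD δ from simpRes hSch i))
      (fun i => ⟨fun f => hSch.hid i f, hSch.hne i⟩) hone hone0 ?_ ?_ ?_
    · intro Z
      refine ⟨(Σ i, (toR δ Z).ι i), inferInstance, fun j => j.1, fun j => (toR δ Z).b j.1 j.2, ?_⟩
      have h := pb' (toR δ Z)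
      have h2 : ∀ j : (Σ i, (toR δ Z).ι i),
          dag (simpRes hSch j.1) (toR δ Z) ((toR δ Z).b j.1 j.2) = (toR δ Z).p j.1 j.2 :=
        fun j => dag_basis hSch (toR δ Z) j.1 j.2
      change ∑ j : (Σ i, (toR δ Z).ι i),
        CategoryStruct.comp (obj := C)
          (dag (simpRes hSch j.1) (toR δ Z) ((toR δ Z).b j.1 j.2)) ((toR δ Z).b j.1 j.2) = _
      simp only [h2]
      exact h
    · intro A A' f
      exact exists_bound hSch (toR δ A) (toR δ A') f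
    · intro Y
      have key : ∃ (Y' : Res S) (η : 𝟙_ C ⟶ ob δ Y ⊗ Y'.X) (ε : Y'.X ⊗ ob δ Y ⟶ 𝟙_ C),
          (η ▷ ob δ Y) ≫ (α_ (ob δ Y) Y'.X (ob δ Y)).hom ≫ (ob δ Y ◁ ε) =
            (λ_ (ob δ Y)).hom ≫ (ρ_ (ob δ Y)).inv := by
        have hYY := hR (HasRightDual.rightDual (ob δ Y))
        refine ⟨R (HasRightDual.rightDual (ob δ Y)), ?_⟩
        rw [hYY]
        exact ⟨ExactPairing.coevaluation _ _, ExactPairing.evaluation _ _,
          ExactPairing.evaluation_coevaluation _ _⟩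
      exact key
  · have : (FF δ).EssSurj := ⟨fun X => ⟨(show DD δ from R X), ⟨eqToIso (hR X)⟩⟩⟩
    exact { }

end Final

end

end Pool.Agent.Results.MP_7857a6_al.BraidedUnitary
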