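import Mathlib

open CategoryTheory CategoryTheory.Limits CategoryTheory.MonoidalCategory

namespace Pool.Agent.Results.MP_7857a6_al.UnitaryOfGauge

set_option linter.unusedSectionVars false
set_option linter.unusedVariables false

noncomputable section

universe v u

section Defs

variable (C : Type u) [Category.{v} C] [Abelian C] [Linear ℂ C] [HasFiniteBiproducts C]
  [MonoidalCategory C] [MonoidalPreadditive C] [MonoidalLinear ℂ C] [RigidCategory C]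

/-- A fusion category over the complex numbers. -/
structure IsFusionCategory : Prop where
  finiteDimensional_hom : ∀ X Y : C, FiniteDimensional ℂ (X ⟶ Y)
  simple_unit : Simple (𝟙_ C)
  semisimple : ∀ X : C, ∃ (m : ℕ) (f : Fin m → C), (∀ k, Simple (f k)) ∧ Nonempty (X ≅ ⨁ f)
  finitely_many_simples : ∃ (m : ℕ) (S : Fin m → C), ∀ X : C, Simple X → ∃ i, Nonempty (X ≅ S i)

variable {C}

/-- S lists the simple objects, each isomorphism class exactly once. -/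
structure ListsSimples {r : ℕ} (S : Fin r → C) : Prop where
  simple : ∀ i, Simple (S i)
  injective : ∀ i j, Nonempty (S i ≅ S j) → i = j
  complete : ∀ X : C, Simple X → ∃ i, Nonempty (X ≅ S i)

end Defs

section Struct

/-- The structure of a C*-tensor category on a C-linear monoidal category D: a conjugate-linear
involution dag reversing composition, complete norms on the morphism spaces satisfying the
C*-identity, positivity of dag f composed with f in the algebra End X, compatibility of dag with the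
tensor product, and unitarity of the associator and of the unit constraints. -/
structure CStarTensorStructure (D : Type u) [Category.{v} D] [Preadditive D] [Linear ℂ D]
    [MonoidalCategory D] where
  dag : ∀ {X Y : D}, (X ⟶ Y) → (Y ⟶ X)
  dag_dag : ∀ {X Y : D} (f : X ⟶ Y), dag (dag f) = f
  dag_comp : ∀ {X Y Z : D} (f : X ⟶ Y) (g : Y ⟶ Z), dag (f ≫ g) = dag g ≫ dag f
  dag_add : ∀ {X Y : D} (f g : X ⟶ Y), dag (f + g) = dag f + dag g
  dag_smul : ∀ {X Y : D} (z : ℂ) (f : X ⟶ Y), dag (z • f) = (starRingEnd ℂ z) • dag f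
  nrm : ∀ {X Y : D}, (X ⟶ Y) → ℝ
  nrm_nonneg : ∀ {X Y : D} (f : X ⟶ Y), 0 ≤ nrm f
  nrm_eq_zero : ∀ {X Y : D} (f : X ⟶ Y), nrm f = 0 → f = 0
  nrm_add : ∀ {X Y : D} (f g : X ⟶ Y), nrm (f + g) ≤ nrm f + nrm g
  nrm_smul : ∀ {X Y : D} (z : ℂ) (f : X ⟶ Y), nrm (z • f) = ‖z‖ * nrm f
  nrm_comp : ∀ {X Y Z : D} (f : X ⟶ Y) (g : Y ⟶ Z), nrm (f ≫ g) ≤ nrm f * nrm g
  complete : ∀ {X Y : D} (w : ℕ → (X ⟶ Y)),
    (∀ ε : ℝ, 0 < ε → ∃ K : ℕ, ∀ m n : ℕ, K ≤ m → K ≤ n → nrm (w m - w n) < ε) →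
    ∃ f : X ⟶ Y, ∀ ε : ℝ, 0 < ε → ∃ K : ℕ, ∀ n : ℕ, K ≤ n → nrm (w n - f) < ε
  nrm_comp_dag : ∀ {X Y : D} (f : X ⟶ Y), nrm (f ≫ dag f) = nrm f ^ 2
  positive : ∀ {X Y : D} (f : X ⟶ Y), ∃ g : X ⟶ X, f ≫ dag f = g ≫ dag g
  dag_tensor : ∀ {X Y X' Y' : D} (f : X ⟶ X') (g : Y ⟶ Y'), dag (f ⊗ₘ g) = dag f ⊗ₘ dag g
  dag_associator : ∀ X Y Z : D, dag (α_ X Y Z).hom = (α_ X Y Z).inv
  dag_leftUnitor : ∀ X : D, dag (λ_ X).hom = (λ_ X).inv
  dag_rightUnitor : ∀ X : D, dag (ρ_ X).hom = (ρ_ X).inv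

end Struct

/-- C is unitary: it is equivalent, by a C-linear monoidal equivalence F, to a C*-tensor category
D (with unitary associator and unit constraints). -/
def IsUnitary (C : Type u) [Category.{v} C] [Preadditive C] [Linear ℂ C] [MonoidalCategory C] :
    Prop :=
  ∃ (D : Type (max (max 1 u) v)) (_ : Category.{v} D) (_ : Preadditive D) (_ : Linear ℂ D)
    (_ : MonoidalCategory D) (_ : MonoidalPreadditive D) (_ : MonoidalLinear ℂ D)
    (_ : CStarTensorStructure D) (F : D ⥤ C) (_ : F.Monoidal),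
    F.Additive ∧ F.Linear ℂ ∧ F.IsEquivalence

section GaugeSec

variable {C : Type u} [Category.{v} C] [Preadditive C] [Linear ℂ C] [MonoidalCategory C] {r : ℕ}

/-- A gauge: a basis of every space Hom (S c, S a ⊗ S b). -/
abbrev Gauge (S : Fin r → C) : Type v :=
  ∀ a b c : Fin r, Module.Basis (Fin (Module.finrank ℂ (S c ⟶ S a ⊗ S b))) ℂ (S c ⟶ S a ⊗ S b)

/-- Indices of the product basis of the sum over e of V^{ab}_e ⊗ V^{ec}_d. -/
abbrev LeftIx (S : Fin r → C) (a b c d : Fin r) : Type :=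
  Σ e : Fin r, Fin (Module.finrank ℂ (S e ⟶ S a ⊗ S b)) ×
    Fin (Module.finrank ℂ (S d ⟶ S e ⊗ S c))

/-- Indices of the product basis of the sum over f of V^{bc}_f ⊗ V^{af}_d. -/
abbrev RightIx (S : Fin r → C) (a b c d : Fin r) : Type :=
  Σ f : Fin r, Fin (Module.finrank ℂ (S f ⟶ S b ⊗ S c)) ×
    Fin (Module.finrank ℂ (S d ⟶ S a ⊗ S f))

/-- The product basis vector, seen as a morphism S d ⟶ (S a ⊗ S b) ⊗ S c. -/
def leftVec (S : Fin r → C) (B : Gauge S) (a b c d : Fin r) (y : LeftIx S a b c d) :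
    S d ⟶ (S a ⊗ S b) ⊗ S c :=
  B y.1 c d y.2.2 ≫ (B a b y.1 y.2.1 ▷ S c)

/-- The product basis vector, seen as a morphism S d ⟶ S a ⊗ (S b ⊗ S c). -/
def rightVec (S : Fin r → C) (B : Gauge S) (a b c d : Fin r) (x : RightIx S a b c d) :
    S d ⟶ S a ⊗ (S b ⊗ S c) :=
  B a x.1 d x.2.2 ≫ (S a ◁ B b c x.1 x.2.1)

/-- M is the F-matrix F^{abc}_d in the gauge B: the matrix, in the product bases, of composition
with the associator. -/
def IsFMatrix (S : Fin r → C) (B : Gauge S) (a b c d : Fin r)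
    (M : Matrix (RightIx S a b c d) (LeftIx S a b c d) ℂ) : Prop :=
  ∀ y, leftVec S B a b c d y ≫ (α_ (S a) (S b) (S c)).hom =
    ∑ x, M x y • rightVec S B a b c d x

/-- All F-matrices are unitary in the gauge B. -/
def UnitaryFMatrices (S : Fin r → C) (B : Gauge S) : Prop :=
  ∀ a b c d : Fin r, ∃ M : Matrix (RightIx S a b c d) (LeftIx S a b c d) ℂ,
    IsFMatrix S B a b c d M ∧ M.conjTranspose * M = 1 ∧ M * M.conjTranspose = 1

end GaugeSec

section Schur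

variable {C : Type u} [Category.{v} C] [Preadditive C] [Linear ℂ C] {r : ℕ}

/-- Schur property of the family of simples -/
structure Sch (S : Fin r → C) : Prop where
  hid : ∀ i (f : S i ⟶ S i), ∃ z : ℂ, f = z • 𝟙 (S i)
  hne : ∀ i, 𝟙 (S i) ≠ 0
  hor : ∀ i j, i ≠ j → ∀ f : S i ⟶ S j, f = 0

variable {S : Fin r → C} (hS : Sch S)

/-- scalar of an endomorphism of a simple -/
def scal {i : Fin r} (f : S i ⟶ S i) : ℂ := by
  classical
  exact if h : ∃ z : ℂ, f = z • 𝟙 (S i) then h.choose else 0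

include hS

lemma scal_spec {i : Fin r} (f : S i ⟶ S i) : f = scal f • 𝟙 (S i) := by
  have h := hS.hid i f
  unfold scal
  rw [dif_pos h]
  exact h.choose_spec

lemma smul_id_inj {i : Fin r} {z w : ℂ} (h : z • 𝟙 (S i) = w • 𝟙 (S i)) : z = w := by
  by_contra hne
  have h1 : (z - w) • 𝟙 (S i) = 0 := by rw [sub_smul, h, sub_self]
  rcases smul_eq_zero.1 h1 with h2 | h2
  · exact hne (sub_eq_zero.1 h2)
  · exact hS.hne i h2

lemma scal_smul_id {i : Fin r} (z : ℂ) : scal (z • 𝟙 (S i)) = z :=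
  smul_id_inj hS (scal_spec hS _).symm

lemma scal_id {i : Fin r} : scal (𝟙 (S i)) = 1 := by
  have := scal_smul_id hS (i := i) 1
  rwa [one_smul] at this

lemma scal_zero {i : Fin r} : scal (0 : S i ⟶ S i) = 0 := by
  have := scal_smul_id hS (i := i) 0
  rwa [zero_smul] at this

lemma scal_add {i : Fin r} (f g : S i ⟶ S i) : scal (f + g) = scal f + scal g := by
  apply smul_id_inj hS (i := i)
  rw [← scal_spec hS, add_smul, ← scal_spec hS, ← scal_spec hS]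

lemma scal_smul {i : Fin r} (z : ℂ) (f : S i ⟶ S i) : scal (z • f) = z * scal f := by
  apply smul_id_inj hS (i := i)
  rw [← scal_spec hS, mul_smul, ← scal_spec hS]

lemma scal_comp {i : Fin r} (f g : S i ⟶ S i) : scal (f ≫ g) = scal f * scal g := by
  apply smul_id_inj hS (i := i)
  rw [← scal_spec hS, mul_smul, ← scal_spec hS]
  conv_lhs => rw [scal_spec hS f]
  rw [Linear.smul_comp, Category.id_comp]

lemma scal_sum {i : Fin r} {J : Type} (s : Finset J) (f : J → (S i ⟶ S i)) :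
    scal (∑ j ∈ s, f j) = ∑ j ∈ s, scal (f j) := by
  classical
  induction s using Finset.induction_on with
  | empty => simpa using scal_zero hS
  | insert a s ha ih => rw [Finset.sum_insert ha, Finset.sum_insert ha, scal_add hS, ih]

end Schur

section Res

variable {C : Type u} [Category.{v} C] [Preadditive C] [Linear ℂ C] {r : ℕ}

/-- an object with orthonormal bases of the spaces `Hom (S i) X` -/
structure Res (S : Fin r → C) where
  X : C
  ι : Fin r → Type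
  [fin : ∀ i, Fintype (ι i)]
  [dec : ∀ i, DecidableEq (ι i)]
  b : ∀ i, ι i → (S i ⟶ X)
  p : ∀ i, ι i → (X ⟶ S i)
  bp : ∀ i m n, b i m ≫ p i n = if m = n then 𝟙 (S i) else 0
  pb : ∑ i, ∑ m, p i m ≫ b i m = 𝟙 X

attribute [instance] Res.fin Res.dec

variable {S : Fin r → C}

/-- coefficient matrices -/
def cf (X Y : Res S) (f : X.X ⟶ Y.X) (i : Fin r) : Matrix (Y.ι i) (X.ι i) ℂ :=
  fun n m => scal (X.b i m ≫ f ≫ Y.p i n)

/-- the morphism with given coefficient matrices -/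
def mk (X Y : Res S) (M : ∀ i, Matrix (Y.ι i) (X.ι i) ℂ) : X.X ⟶ Y.X :=
  ∑ i, ∑ n, ∑ m, M i n m • (X.p i m ≫ Y.b i n)

variable (hS : Sch S)
include hS

lemma b_p_ne (X : Res S) {i j : Fin r} (h : i ≠ j) (m : X.ι i) (n : X.ι j) :
    X.b i m ≫ X.p j n = 0 := hS.hor i j h _

lemma vec_expand (Y : Res S) {i : Fin r} (g : S i ⟶ Y.X) :
    g = ∑ n, scal (g ≫ Y.p i n) • Y.b i n := by
  have h1 : g = ∑ j, ∑ n, (g ≫ Y.p j n) ≫ Y.b j n := by
    have h0 : g = g ≫ ∑ j, ∑ n, Y.p j n ≫ Y.b j n := by rw [Y.pb, Category.comp_id]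
    conv_lhs => rw [h0]
    simp only [Preadditive.comp_sum, Category.assoc]
  rw [Finset.sum_eq_single i] at h1
  · conv_lhs => rw [h1]
    refine Finset.sum_congr rfl (fun n _ => ?_)
    conv_lhs => rw [scal_spec hS (g ≫ Y.p i n)]
    rw [Linear.smul_comp, Category.id_comp]
  · intro j _ hj
    refine Finset.sum_eq_zero (fun n _ => ?_)
    rw [hS.hor i j (Ne.symm hj) (g ≫ Y.p j n), zero_comp]
  · simp

lemma b_comp (X Y : Res S) (f : X.X ⟶ Y.X) (i : Fin r) (m : X.ι i) :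
    X.b i m ≫ f = ∑ n, cf X Y f i n m • Y.b i n := by
  have := vec_expand hS Y (X.b i m ≫ f)
  simp only [Category.assoc] at this
  exact this

lemma expand (X Y : Res S) (f : X.X ⟶ Y.X) :
    f = ∑ i, ∑ n, ∑ m, cf X Y f i n m • (X.p i m ≫ Y.b i n) := by
  have h1 : f = ∑ i, ∑ m, X.p i m ≫ (X.b i m ≫ f) := by
    have h0 : f = (∑ i, ∑ m, X.p i m ≫ X.b i m) ≫ f := by rw [X.pb, Category.id_comp]
    conv_lhs => rw [h0]
    simp only [Preadditive.sum_comp, Category.assoc]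
  conv_lhs => rw [h1]
  refine Finset.sum_congr rfl (fun i _ => ?_)
  rw [Finset.sum_comm]
  refine Finset.sum_congr rfl (fun m _ => ?_)
  rw [b_comp hS X Y f i m, Preadditive.comp_sum]
  simp only [Linear.comp_smul]

lemma cf_ext (X Y : Res S) {f g : X.X ⟶ Y.X} (h : ∀ i, cf X Y f i = cf X Y g i) : f = g := by
  rw [expand hS X Y f, expand hS X Y g]
  simp only [h]

lemma cf_mk (X Y : Res S) (M : ∀ i, Matrix (Y.ι i) (X.ι i) ℂ) (i : Fin r) :
    cf X Y (mk X Y M) i = M i := by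
  ext n m
  have h1 : X.b i m ≫ mk X Y M = ∑ n, M i n m • Y.b i n := by
    unfold mk
    simp only [Preadditive.comp_sum, Linear.comp_smul]
    rw [Finset.sum_eq_single i]
    · refine Finset.sum_congr rfl (fun n _ => ?_)
      rw [Finset.sum_eq_single m]
      · rw [← Category.assoc, X.bp, if_pos rfl, Category.id_comp]
      · intro m' _ hm'
        rw [← Category.assoc, X.bp, if_neg (Ne.symm hm'), zero_comp, smul_zero]
      · simp
    · intro j _ hj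
      refine Finset.sum_eq_zero (fun n _ => Finset.sum_eq_zero (fun m' _ => ?_))
      rw [← Category.assoc, hS.hor i j (Ne.symm hj) (X.b i m ≫ X.p j m'), zero_comp, smul_zero]
    · simp
  unfold cf
  rw [← Category.assoc, h1, Preadditive.sum_comp, scal_sum hS, Finset.sum_eq_single n]
  · rw [Linear.smul_comp, Y.bp, if_pos rfl, scal_smul_id hS]
  · intro n' _ hn'
    rw [Linear.smul_comp, Y.bp, if_neg hn', smul_zero, scal_zero hS]
  · simp

lemma cf_comp (X Y Z : Res S) (f : X.X ⟶ Y.X) (g : Y.X ⟶ Z.X) (i : Fin r) :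
    cf X Z (f ≫ g) i = cf Y Z g i * cf X Y f i := by
  ext l m
  rw [Matrix.mul_apply]
  change scal (X.b i m ≫ (f ≫ g) ≫ Z.p i l) = _
  have : X.b i m ≫ (f ≫ g) ≫ Z.p i l = ∑ n, cf X Y f i n m • (Y.b i n ≫ g ≫ Z.p i l) := by
    have h := congrArg (fun t => t ≫ g ≫ Z.p i l) (b_comp hS X Y f i m)
    simp only [Category.assoc, Preadditive.sum_comp, Linear.smul_comp] at h ⊢
    exact h
  rw [this, scal_sum hS]
  refine Finset.sum_congr rfl (fun n _ => ?_)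
  rw [scal_smul hS, mul_comm]
  rfl

lemma cf_id (X : Res S) (i : Fin r) : cf X X (𝟙 X.X) i = 1 := by
  ext n m
  unfold cf
  rw [Category.id_comp, X.bp, Matrix.one_apply]
  by_cases h : m = n
  · rw [if_pos h, if_pos h.symm, scal_id hS]
  · rw [if_neg h, if_neg (Ne.symm h), scal_zero hS]

lemma cf_add (X Y : Res S) (f g : X.X ⟶ Y.X) (i : Fin r) :
    cf X Y (f + g) i = cf X Y f i + cf X Y g i := by
  ext n m
  simp only [cf, Preadditive.add_comp, Preadditive.comp_add, scal_add hS, Matrix.add_apply]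

lemma cf_smul (X Y : Res S) (z : ℂ) (f : X.X ⟶ Y.X) (i : Fin r) :
    cf X Y (z • f) i = z • cf X Y f i := by
  ext n m
  simp only [cf, Linear.smul_comp, Linear.comp_smul, scal_smul hS, Matrix.smul_apply, smul_eq_mul]

omit hS in
/-- the dagger -/
def dag (X Y : Res S) (f : X.X ⟶ Y.X) : Y.X ⟶ X.X :=
  mk Y X (fun i => (cf X Y f i).conjTranspose)

lemma cf_dag (X Y : Res S) (f : X.X ⟶ Y.X) (i : Fin r) :
    cf Y X (dag X Y f) i = (cf X Y f i).conjTranspose := by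
  unfold dag; rw [cf_mk hS]

lemma dag_dag (X Y : Res S) (f : X.X ⟶ Y.X) : dag Y X (dag X Y f) = f :=
  cf_ext hS X Y (fun i => by rw [cf_dag hS, cf_dag hS, Matrix.conjTranspose_conjTranspose])

lemma dag_comp (X Y Z : Res S) (f : X.X ⟶ Y.X) (g : Y.X ⟶ Z.X) :
    dag X Z (f ≫ g) = dag Y Z g ≫ dag X Y f :=
  cf_ext hS Z X (fun i => by
    rw [cf_dag hS, cf_comp hS X Y Z, cf_comp hS Z Y X, cf_dag hS, cf_dag hS,
      Matrix.conjTranspose_mul])

lemma dag_add (X Y : Res S) (f g : X.X ⟶ Y.X) : dag X Y (f + g) = dag X Y f + dag X Y g :=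
  cf_ext hS Y X (fun i => by
    rw [cf_dag hS, cf_add hS, cf_add hS, cf_dag hS, cf_dag hS, Matrix.conjTranspose_add])

lemma dag_smul (X Y : Res S) (z : ℂ) (f : X.X ⟶ Y.X) :
    dag X Y (z • f) = (starRingEnd ℂ z) • dag X Y f :=
  cf_ext hS Y X (fun i => by
    rw [cf_dag hS, cf_smul hS, cf_smul hS, cf_dag hS, Matrix.conjTranspose_smul]; rfl)

open scoped ComplexOrder MatrixOrder in
/-- positivity -/
lemma dag_pos (X Y : Res S) (f : X.X ⟶ Y.X) :
    ∃ g : X.X ⟶ X.X, f ≫ dag X Y f = g ≫ dag X X g := by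
  have h : ∀ i, ∃ Q : Matrix (X.ι i) (X.ι i) ℂ,
      (cf X Y f i).conjTranspose * cf X Y f i = Q.conjTranspose * Q := by
    intro i
    have h1 := Matrix.posSemidef_conjTranspose_mul_self (cf X Y f i)
    exact CStarAlgebra.nonneg_iff_eq_star_mul_self.mp h1.nonneg
  choose Q hQ using h
  refine ⟨mk X X Q, cf_ext hS X X (fun i => ?_)⟩
  rw [cf_comp hS X Y X, cf_comp hS X X X, cf_dag hS, cf_dag hS, cf_mk hS, hQ]

open scoped Matrix.Norms.L2Operator in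
omit hS in
/-- the norm -/
def nrm (X Y : Res S) (f : X.X ⟶ Y.X) : ℝ := ‖(fun i => ‖cf X Y f i‖ : Fin r → ℝ)‖

open scoped Matrix.Norms.L2Operator in
lemma le_nrm (X Y : Res S) (f : X.X ⟶ Y.X) (i : Fin r) : ‖cf X Y f i‖ ≤ nrm X Y f := by
  have := norm_le_pi_norm (fun i => ‖cf X Y f i‖ : Fin r → ℝ) i
  rw [Real.norm_of_nonneg (norm_nonneg _)] at this
  exact this

open scoped Matrix.Norms.L2Operator in
lemma nrm_le (X Y : Res S) (f : X.X ⟶ Y.X) {c : ℝ} (hc : 0 ≤ c) (h : ∀ i, ‖cf X Y f i‖ ≤ c) :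
    nrm X Y f ≤ c := by
  refine (pi_norm_le_iff_of_nonneg hc).2 (fun i => ?_)
  simpa using h i

omit hS in
lemma nrm_nonneg (X Y : Res S) (f : X.X ⟶ Y.X) : 0 ≤ nrm X Y f := norm_nonneg _

open scoped Matrix.Norms.L2Operator in
lemma nrm_add (X Y : Res S) (f g : X.X ⟶ Y.X) : nrm X Y (f + g) ≤ nrm X Y f + nrm X Y g := by
  refine nrm_le hS X Y _ (add_nonneg (nrm_nonneg X Y f) (nrm_nonneg X Y g)) (fun i => ?_)
  rw [cf_add hS]
  exact (norm_add_le _ _).trans (add_le_add (le_nrm hS X Y f i) (le_nrm hS X Y g i))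

open scoped Matrix.Norms.L2Operator in
lemma nrm_smul (X Y : Res S) (z : ℂ) (f : X.X ⟶ Y.X) : nrm X Y (z • f) = ‖z‖ * nrm X Y f := by
  unfold nrm
  have : (fun i => ‖cf X Y (z • f) i‖ : Fin r → ℝ) = ‖z‖ • (fun i => ‖cf X Y f i‖ : Fin r → ℝ) := by
    ext i
    rw [cf_smul hS, norm_smul]; rfl
  rw [this, norm_smul, Real.norm_of_nonneg (norm_nonneg z)]

open scoped Matrix.Norms.L2Operator in
lemma nrm_eq_zero (X Y : Res S) (f : X.X ⟶ Y.X) (h : nrm X Y f = 0) : f = 0 := by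
  refine cf_ext hS X Y (fun i => ?_)
  have h1 : ‖cf X Y f i‖ ≤ 0 := h ▸ le_nrm hS X Y f i
  have h2 : cf X Y f i = 0 := norm_le_zero_iff.1 h1
  rw [h2]
  ext n m
  simp [cf, scal_zero hS]

open scoped Matrix.Norms.L2Operator in
lemma nrm_comp (X Y Z : Res S) (f : X.X ⟶ Y.X) (g : Y.X ⟶ Z.X) :
    nrm X Z (f ≫ g) ≤ nrm X Y f * nrm Y Z g := by
  refine nrm_le hS X Z _ (mul_nonneg (nrm_nonneg X Y f) (nrm_nonneg Y Z g)) (fun i => ?_)
  rw [cf_comp hS X Y Z, mul_comm]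
  exact (Matrix.l2_opNorm_mul _ _).trans (mul_le_mul (le_nrm hS Y Z g i) (le_nrm hS X Y f i)
    (norm_nonneg _) (nrm_nonneg Y Z g))

open scoped Matrix.Norms.L2Operator in
lemma nrm_sq (X Y : Res S) (f : X.X ⟶ Y.X) : nrm X X (f ≫ dag X Y f) = nrm X Y f ^ 2 := by
  have key : ∀ i, ‖cf X X (f ≫ dag X Y f) i‖ = ‖cf X Y f i‖ ^ 2 := by
    intro i
    rw [cf_comp hS X Y X, cf_dag hS, Matrix.l2_opNorm_conjTranspose_mul_self, sq]
  apply le_antisymm
  · refine nrm_le hS X X _ (sq_nonneg _) (fun i => ?_)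
    rw [key]
    exact pow_le_pow_left₀ (norm_nonneg _) (le_nrm hS X Y f i) 2
  · have h1 : nrm X Y f ≤ Real.sqrt (nrm X X (f ≫ dag X Y f)) := by
      refine nrm_le hS X Y _ (Real.sqrt_nonneg _) (fun i => ?_)
      apply Real.le_sqrt_of_sq_le
      rw [← key]
      exact le_nrm hS X X _ i
    calc nrm X Y f ^ 2 ≤ Real.sqrt (nrm X X (f ≫ dag X Y f)) ^ 2 :=
          pow_le_pow_left₀ (nrm_nonneg X Y f) h1 2
      _ = _ := Real.sq_sqrt (nrm_nonneg X X _)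

end Res


section Tensor

variable {C : Type u} [Category.{v} C] [Preadditive C] [Linear ℂ C] [MonoidalCategory C]
  [MonoidalPreadditive C] [MonoidalLinear ℂ C] {r : ℕ}

/-- resolutions of the products of simples -/
structure GRes (S : Fin r → C) (N : Fin r → Fin r → Fin r → ℕ) where
  e : ∀ a b c, Fin (N a b c) → (S c ⟶ S a ⊗ S b)
  q : ∀ a b c, Fin (N a b c) → (S a ⊗ S b ⟶ S c)
  eq : ∀ a b c s t, e a b c s ≫ q a b c t = if s = t then 𝟙 (S c) else 0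
  qe : ∀ a b, ∑ c, ∑ s, q a b c s ≫ e a b c s = 𝟙 (S a ⊗ S b)

variable {S : Fin r → C} {N : Fin r → Fin r → Fin r → ℕ}

variable (hS : Sch S)

lemma bb_same (X : Res S) (x : Σ a, X.ι a) : X.b x.1 x.2 ≫ X.p x.1 x.2 = 𝟙 (S x.1) := by
  rw [X.bp, if_pos rfl]

include hS in
lemma bb_ne (X : Res S) (x y : Σ a, X.ι a) (h : x ≠ y) : X.b x.1 x.2 ≫ X.p y.1 y.2 = 0 := by
  obtain ⟨a, m⟩ := x
  obtain ⟨b, n⟩ := y
  by_cases hab : a = b
  · subst hab
    rw [X.bp, if_neg]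
    rintro rfl
    exact h rfl
  · exact hS.hor a b hab _

lemma pb' (X : Res S) : ∑ x : (Σ a, X.ι a), X.p x.1 x.2 ≫ X.b x.1 x.2 = 𝟙 X.X := by
  rw [Fintype.sum_sigma]
  exact X.pb

/-- tensor product of resolved objects -/
abbrev tens (G : GRes S N) (X Y : Res S) : Res S where
  X := X.X ⊗ Y.X
  ι d := Σ (u : (Σ a, X.ι a) × (Σ b, Y.ι b)), Fin (N u.1.1 u.2.1 d)
  b d j := G.e j.1.1.1 j.1.2.1 d j.2 ≫ (X.b j.1.1.1 j.1.1.2 ⊗ₘ Y.b j.1.2.1 j.1.2.2)
  p d j := (X.p j.1.1.1 j.1.1.2 ⊗ₘ Y.p j.1.2.1 j.1.2.2) ≫ G.q j.1.1.1 j.1.2.1 d j.2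
  bp d j k := by
    obtain ⟨⟨x, y⟩, s⟩ := j
    obtain ⟨⟨x', y'⟩, s'⟩ := k
    simp only [Category.assoc]
    rw [tensorHom_comp_tensorHom_assoc]
    by_cases hx : x = x'
    · subst hx
      by_cases hy : y = y'
      · subst hy
        rw [bb_same, bb_same, id_tensorHom_id, Category.id_comp, G.eq]
        by_cases hs : s = s'
        · subst hs; simp
        · rw [if_neg hs, if_neg]
          intro h
          apply hs
          have := eq_of_heq (Sigma.mk.inj h).2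
          exact this
      · rw [bb_ne hS Y y y' hy, if_neg]
        · simp
        · intro h
          apply hy
          exact congrArg (fun t => t.1.2) h
    · rw [bb_ne hS X x x' hx, if_neg]
      · simp
      · intro h
        apply hx
        exact congrArg (fun t => t.1.1) h
  pb := by
    rw [show (∑ d, ∑ j : (Σ (u : (Σ a, X.ι a) × (Σ b, Y.ι b)), Fin (N u.1.1 u.2.1 d)),
      ((X.p j.1.1.1 j.1.1.2 ⊗ₘ Y.p j.1.2.1 j.1.2.2) ≫ G.q j.1.1.1 j.1.2.1 d j.2) ≫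
      G.e j.1.1.1 j.1.2.1 d j.2 ≫ (X.b j.1.1.1 j.1.1.2 ⊗ₘ Y.b j.1.2.1 j.1.2.2)) =
      ∑ u : (Σ a, X.ι a) × (Σ b, Y.ι b), (X.p u.1.1 u.1.2 ⊗ₘ Y.p u.2.1 u.2.2) ≫
        (∑ d, ∑ s, G.q u.1.1 u.2.1 d s ≫ G.e u.1.1 u.2.1 d s) ≫
        (X.b u.1.1 u.1.2 ⊗ₘ Y.b u.2.1 u.2.2) from ?_]
    · simp only [G.qe, Category.id_comp, tensorHom_comp_tensorHom]
      rw [Fintype.sum_prod_type]
      simp only [← tensor_sum]
      rw [← sum_tensor, pb', pb', id_tensorHom_id]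
    · simp only [Fintype.sum_sigma, Preadditive.comp_sum, Preadditive.sum_comp, Category.assoc]
      rw [Finset.sum_comm]

variable (G : GRes S N)

include hS in
lemma mid_scal (X X' : Res S) (f : X.X ⟶ X'.X) (a : Fin r) (m : X.ι a) (m' : X'.ι a) :
    X.b a m ≫ f ≫ X'.p a m' = cf X X' f a m' m • 𝟙 (S a) :=
  scal_spec hS _

include hS in
lemma cf_tensor_same (X Y X' Y' : Res S) (f : X.X ⟶ X'.X) (g : Y.X ⟶ Y'.X) (d a b : Fin r)
    (m : X.ι a) (n : Y.ι b) (m' : X'.ι a) (n' : Y'.ι b) (s s' : Fin (N a b d)) :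
    cf (tens hS G X Y) (tens hS G X' Y') (f ⊗ₘ g) d ⟨(⟨a, m'⟩, ⟨b, n'⟩), s'⟩
      ⟨(⟨a, m⟩, ⟨b, n⟩), s⟩ =
      cf X X' f a m' m * cf Y Y' g b n' n * (if s = s' then 1 else 0) := by
  change scal ((G.e a b d s ≫ (X.b a m ⊗ₘ Y.b b n)) ≫ (f ⊗ₘ g) ≫
    (X'.p a m' ⊗ₘ Y'.p b n') ≫ G.q a b d s') = _
  have h1 : (G.e a b d s ≫ (X.b a m ⊗ₘ Y.b b n)) ≫ (f ⊗ₘ g) ≫
    (X'.p a m' ⊗ₘ Y'.p b n') ≫ G.q a b d s' =
    (cf X X' f a m' m * cf Y Y' g b n' n) • (G.e a b d s ≫ G.q a b d s') := by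
    have h2 : (X.b a m ⊗ₘ Y.b b n) ≫ (f ⊗ₘ g) ≫ (X'.p a m' ⊗ₘ Y'.p b n') =
        (cf X X' f a m' m * cf Y Y' g b n' n) • 𝟙 (S a ⊗ S b) := by
      rw [tensorHom_comp_tensorHom, tensorHom_comp_tensorHom, mid_scal hS, mid_scal hS]
      rw [MonoidalCategory.tensorHom_def]
      simp [smul_smul, mul_comm]
    calc _ = G.e a b d s ≫ ((X.b a m ⊗ₘ Y.b b n) ≫ (f ⊗ₘ g) ≫ (X'.p a m' ⊗ₘ Y'.p b n')) ≫
          G.q a b d s' := by simp only [Category.assoc]
      _ = _ := by rw [h2]; simp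
  rw [h1, scal_smul hS, G.eq]
  split_ifs
  · rw [scal_id hS]
  · rw [scal_zero hS]

include hS in
lemma cf_tensor_ne (X Y X' Y' : Res S) (f : X.X ⟶ X'.X) (g : Y.X ⟶ Y'.X) (d : Fin r)
    (j : (tens hS G X Y).ι d) (j' : (tens hS G X' Y').ι d)
    (h : j.1.1.1 ≠ j'.1.1.1 ∨ j.1.2.1 ≠ j'.1.2.1) :
    cf (tens hS G X Y) (tens hS G X' Y') (f ⊗ₘ g) d j' j = 0 := by
  change scal ((G.e j.1.1.1 j.1.2.1 d j.2 ≫ (X.b j.1.1.1 j.1.1.2 ⊗ₘ Y.b j.1.2.1 j.1.2.2)) ≫
    (f ⊗ₘ g) ≫ (X'.p j'.1.1.1 j'.1.1.2 ⊗ₘ Y'.p j'.1.2.1 j'.1.2.2) ≫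
    G.q j'.1.1.1 j'.1.2.1 d j'.2) = 0
  have h1 : (G.e j.1.1.1 j.1.2.1 d j.2 ≫ (X.b j.1.1.1 j.1.1.2 ⊗ₘ Y.b j.1.2.1 j.1.2.2)) ≫
    (f ⊗ₘ g) ≫ (X'.p j'.1.1.1 j'.1.1.2 ⊗ₘ Y'.p j'.1.2.1 j'.1.2.2) ≫
    G.q j'.1.1.1 j'.1.2.1 d j'.2 = G.e j.1.1.1 j.1.2.1 d j.2 ≫
    ((X.b j.1.1.1 j.1.1.2 ≫ f ≫ X'.p j'.1.1.1 j'.1.1.2) ⊗ₘ
      (Y.b j.1.2.1 j.1.2.2 ≫ g ≫ Y'.p j'.1.2.1 j'.1.2.2)) ≫ G.q j'.1.1.1 j'.1.2.1 d j'.2 := by
    simp only [Category.assoc, ← tensorHom_comp_tensorHom]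
  rw [h1]
  rcases h with h | h
  · rw [hS.hor _ _ h (X.b j.1.1.1 j.1.1.2 ≫ f ≫ X'.p j'.1.1.1 j'.1.1.2)]
    simp [scal_zero hS]
  · rw [hS.hor _ _ h (Y.b j.1.2.1 j.1.2.2 ≫ g ≫ Y'.p j'.1.2.1 j'.1.2.2)]
    simp [scal_zero hS]

lemma dag_tensor (X Y X' Y' : Res S) (f : X.X ⟶ X'.X) (g : Y.X ⟶ Y'.X) :
    dag (tens hS G X Y) (tens hS G X' Y') (f ⊗ₘ g) = (dag X X' f ⊗ₘ dag Y Y' g) := by
  refine cf_ext hS _ _ (fun d => ?_)
  rw [cf_dag hS]
  ext j j'
  rw [Matrix.conjTranspose_apply]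
  by_cases h : j.1.1.1 ≠ j'.1.1.1 ∨ j.1.2.1 ≠ j'.1.2.1
  · rw [cf_tensor_ne hS G X Y X' Y' f g d j j' h]
    have h' : j'.1.1.1 ≠ j.1.1.1 ∨ j'.1.2.1 ≠ j.1.2.1 := by
      rcases h with h | h
      · exact Or.inl (Ne.symm h)
      · exact Or.inr (Ne.symm h)
    rw [cf_tensor_ne hS G X' Y' X Y _ _ d j' j h', star_zero]
  · push Not at h
    obtain ⟨⟨⟨a, m⟩, ⟨b, n⟩⟩, s⟩ := j
    obtain ⟨⟨⟨a', m'⟩, ⟨b', n'⟩⟩, s'⟩ := j'
    obtain ⟨h1, h2⟩ := h
    simp only at h1 h2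
    subst h1 h2
    rw [cf_tensor_same hS, cf_tensor_same hS, cf_dag hS, cf_dag hS]
    simp only [Matrix.conjTranspose_apply, star_mul']
    by_cases hs : s = s'
    · rw [if_pos hs, if_pos hs.symm, star_one]
    · rw [if_neg hs, if_neg (Ne.symm hs), star_zero]

/-- entries of the F-matrices -/
def Fent (a b c d e : Fin r) (s : Fin (N a b e)) (t : Fin (N e c d)) (f : Fin r)
    (s' : Fin (N b c f)) (t' : Fin (N a f d)) : ℂ :=
  scal (G.e e c d t ≫ (G.e a b e s ▷ S c) ≫ (α_ (S a) (S b) (S c)).hom ≫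
    (S a ◁ G.q b c f s') ≫ G.q a f d t')

/-- entries of the inverse F-matrices -/
def Gent (a b c d e : Fin r) (s : Fin (N a b e)) (t : Fin (N e c d)) (f : Fin r)
    (s' : Fin (N b c f)) (t' : Fin (N a f d)) : ℂ :=
  scal (G.e a f d t' ≫ (S a ◁ G.e b c f s') ≫ (α_ (S a) (S b) (S c)).inv ≫
    (G.q a b e s ▷ S c) ≫ G.q e c d t)

/-- unitarity of the F-matrices -/
def FUnit : Prop := ∀ a b c d e s t f s' t',
  Gent G a b c d e s t f s' t' = star (Fent G a b c d e s t f s' t')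

lemma cf_assoc_hom (X Y Z : Res S) (d e : Fin r) (x : Σ a, X.ι a) (y : Σ b, Y.ι b)
    (s : Fin (N x.1 y.1 e)) (z : Σ c, Z.ι c) (t : Fin (N e z.1 d))
    (x' : Σ a, X.ι a) (f : Fin r) (y' : Σ b, Y.ι b) (z' : Σ c, Z.ι c)
    (s' : Fin (N y'.1 z'.1 f)) (t' : Fin (N x'.1 f d)) :
    cf (tens hS G (tens hS G X Y) Z) (tens hS G X (tens hS G Y Z)) (α_ X.X Y.X Z.X).hom d
      ⟨(x', ⟨f, ⟨(y', z'), s'⟩⟩), t'⟩ ⟨(⟨e, ⟨(x, y), s⟩⟩, z), t⟩ =
    scal (G.e e z.1 d t ≫ (G.e x.1 y.1 e s ▷ S z.1) ≫ (α_ _ _ _).hom ≫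
      ((X.b x.1 x.2 ≫ X.p x'.1 x'.2) ⊗ₘ ((Y.b y.1 y.2 ≫ Y.p y'.1 y'.2) ⊗ₘ
          (Z.b z.1 z.2 ≫ Z.p z'.1 z'.2))) ≫
      (S x'.1 ◁ G.q y'.1 z'.1 f s') ≫ G.q x'.1 f d t') := by
  change scal ((G.e e z.1 d t ≫ ((G.e x.1 y.1 e s ≫ (X.b x.1 x.2 ⊗ₘ Y.b y.1 y.2)) ⊗ₘ
    Z.b z.1 z.2)) ≫ (α_ X.X Y.X Z.X).hom ≫
    (X.p x'.1 x'.2 ⊗ₘ ((Y.p y'.1 y'.2 ⊗ₘ Z.p z'.1 z'.2) ≫ G.q y'.1 z'.1 f s')) ≫
    G.q x'.1 f d t') = _
  congr 1
  have h1 : ((G.e x.1 y.1 e s ≫ (X.b x.1 x.2 ⊗ₘ Y.b y.1 y.2)) ⊗ₘ Z.b z.1 z.2) =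
      (G.e x.1 y.1 e s ▷ S z.1) ≫ ((X.b x.1 x.2 ⊗ₘ Y.b y.1 y.2) ⊗ₘ Z.b z.1 z.2) := by
    rw [← tensorHom_id, tensorHom_comp_tensorHom, Category.id_comp]
  have h2 : (X.p x'.1 x'.2 ⊗ₘ ((Y.p y'.1 y'.2 ⊗ₘ Z.p z'.1 z'.2) ≫ G.q y'.1 z'.1 f s')) =
      (X.p x'.1 x'.2 ⊗ₘ (Y.p y'.1 y'.2 ⊗ₘ Z.p z'.1 z'.2)) ≫ (S x'.1 ◁ G.q y'.1 z'.1 f s') := by
    rw [← id_tensorHom, tensorHom_comp_tensorHom, Category.comp_id]
  rw [h1, h2]
  simp only [Category.assoc, ← tensorHom_comp_tensorHom]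
  rw [associator_naturality_assoc]

lemma cf_assoc_inv (X Y Z : Res S) (d e : Fin r) (x : Σ a, X.ι a) (y : Σ b, Y.ι b)
    (s : Fin (N x.1 y.1 e)) (z : Σ c, Z.ι c) (t : Fin (N e z.1 d))
    (x' : Σ a, X.ι a) (f : Fin r) (y' : Σ b, Y.ι b) (z' : Σ c, Z.ι c)
    (s' : Fin (N y'.1 z'.1 f)) (t' : Fin (N x'.1 f d)) :
    cf (tens hS G X (tens hS G Y Z)) (tens hS G (tens hS G X Y) Z) (α_ X.X Y.X Z.X).inv d
      ⟨(⟨e, ⟨(x, y), s⟩⟩, z), t⟩ ⟨(x', ⟨f, ⟨(y', z'), s'⟩⟩), t'⟩ =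
    scal (G.e x'.1 f d t' ≫ (S x'.1 ◁ G.e y'.1 z'.1 f s') ≫ (α_ _ _ _).inv ≫
      (((X.b x'.1 x'.2 ≫ X.p x.1 x.2) ⊗ₘ (Y.b y'.1 y'.2 ≫ Y.p y.1 y.2)) ⊗ₘ
          (Z.b z'.1 z'.2 ≫ Z.p z.1 z.2)) ≫
      (G.q x.1 y.1 e s ▷ S z.1) ≫ G.q e z.1 d t) := by
  change scal ((G.e x'.1 f d t' ≫ (X.b x'.1 x'.2 ⊗ₘ (G.e y'.1 z'.1 f s' ≫
    (Y.b y'.1 y'.2 ⊗ₘ Z.b z'.1 z'.2)))) ≫ (α_ X.X Y.X Z.X).inv ≫
    (((X.p x.1 x.2 ⊗ₘ Y.p y.1 y.2) ≫ G.q x.1 y.1 e s) ⊗ₘ Z.p z.1 z.2) ≫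
    G.q e z.1 d t) = _
  congr 1
  have h1 : (((X.p x.1 x.2 ⊗ₘ Y.p y.1 y.2) ≫ G.q x.1 y.1 e s) ⊗ₘ Z.p z.1 z.2) =
      ((X.p x.1 x.2 ⊗ₘ Y.p y.1 y.2) ⊗ₘ Z.p z.1 z.2) ≫ (G.q x.1 y.1 e s ▷ S z.1) := by
    rw [← tensorHom_id, tensorHom_comp_tensorHom, Category.comp_id]
  have h2 : (X.b x'.1 x'.2 ⊗ₘ (G.e y'.1 z'.1 f s' ≫ (Y.b y'.1 y'.2 ⊗ₘ Z.b z'.1 z'.2))) =
      (S x'.1 ◁ G.e y'.1 z'.1 f s') ≫ (X.b x'.1 x'.2 ⊗ₘ (Y.b y'.1 y'.2 ⊗ₘ Z.b z'.1 z'.2)) := by
    rw [← id_tensorHom, tensorHom_comp_tensorHom, Category.id_comp]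
  rw [h1, h2]
  simp only [Category.assoc, ← tensorHom_comp_tensorHom]
  rw [associator_inv_naturality_assoc]

lemma dag_assoc (hU : FUnit G) (X Y Z : Res S) :
    dag (tens hS G (tens hS G X Y) Z) (tens hS G X (tens hS G Y Z)) (α_ X.X Y.X Z.X).hom =
      (α_ X.X Y.X Z.X).inv := by
  refine cf_ext hS (tens hS G X (tens hS G Y Z)) (tens hS G (tens hS G X Y) Z) (fun d => ?_)
  rw [cf_dag hS]
  ext j j'
  rw [Matrix.conjTranspose_apply]
  obtain ⟨⟨⟨e, ⟨⟨x, y⟩, s⟩⟩, z⟩, t⟩ := j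
  obtain ⟨⟨x', ⟨f, ⟨⟨y', z'⟩, s'⟩⟩⟩, t'⟩ := j'
  rw [cf_assoc_hom, cf_assoc_inv]
  by_cases hx : x = x'
  · subst hx
    by_cases hy : y = y'
    · subst hy
      by_cases hz : z = z'
      · subst hz
        simp only [bb_same, id_tensorHom_id, Category.id_comp]
        exact (hU x.1 y.1 z.1 d e s t f s' t').symm
      · rw [bb_ne hS Z z z' hz, bb_ne hS Z z' z (Ne.symm hz)]
        simp [scal_zero hS]
    · rw [bb_ne hS Y y y' hy, bb_ne hS Y y' y (Ne.symm hy)]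
      simp [scal_zero hS]
  · rw [bb_ne hS X x x' hx, bb_ne hS X x' x (Ne.symm hx)]
    simp [scal_zero hS]

/-- the unit object, with basis vector `z • θ` -/
abbrev unitRes (i0 : Fin r) (θ : S i0 ≅ 𝟙_ C) (z : ℂ) (hz : z ≠ 0) : Res S where
  X := 𝟙_ C
  ι i := {_x : Unit // i = i0}
  b i h := z • (eqToHom (congrArg S h.2) ≫ θ.hom)
  p i h := z⁻¹ • (θ.inv ≫ eqToHom (congrArg S h.2).symm)
  bp i m n := by
    obtain ⟨_, hm⟩ := m
    obtain ⟨_, hn⟩ := n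
    subst hm
    simp [hz]
  pb := by
    rw [Finset.sum_eq_single i0]
    · rw [Fintype.sum_eq_single (⟨(), rfl⟩ : {_x : Unit // i0 = i0})]
      · simp [hz]
      · intro b hb
        exact absurd (Subsingleton.elim _ _) hb
    · intro i _ hi
      have : IsEmpty {_x : Unit // i = i0} := ⟨fun h => hi h.2⟩
      simp
    · simp

section Units

variable (i0 : Fin r) (θ : S i0 ≅ 𝟙_ C)

/-- scalars of the left unitors -/
def Lent (d : Fin r) (s : Fin (N i0 d d)) : ℂ :=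
  scal (G.e i0 d d s ≫ (θ.hom ▷ S d) ≫ (λ_ (S d)).hom)

def Lent' (d : Fin r) (s : Fin (N i0 d d)) : ℂ :=
  scal ((λ_ (S d)).inv ≫ (θ.inv ▷ S d) ≫ G.q i0 d d s)

/-- scalars of the right unitors -/
def Rent (d : Fin r) (s : Fin (N d i0 d)) : ℂ :=
  scal (G.e d i0 d s ≫ (S d ◁ θ.hom) ≫ (ρ_ (S d)).hom)

def Rent' (d : Fin r) (s : Fin (N d i0 d)) : ℂ :=
  scal ((ρ_ (S d)).inv ≫ (S d ◁ θ.inv) ≫ G.q d i0 d s)

include hS

lemma Lent_mul (d : Fin r) (s : Fin (N i0 d d)) : Lent G i0 θ d s * Lent' G i0 θ d s = 1 := by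
  unfold Lent Lent'
  rw [← scal_comp hS]
  have : (G.e i0 d d s ≫ (θ.hom ▷ S d) ≫ (λ_ (S d)).hom) ≫
      ((λ_ (S d)).inv ≫ (θ.inv ▷ S d) ≫ G.q i0 d d s) = 𝟙 (S d) := by
    simp only [Category.assoc, Iso.hom_inv_id_assoc]
    rw [← comp_whiskerRight_assoc, θ.hom_inv_id, id_whiskerRight, Category.id_comp, G.eq,
      if_pos rfl]
  rw [this, scal_id hS]

lemma Rent_mul (d : Fin r) (s : Fin (N d i0 d)) : Rent G i0 θ d s * Rent' G i0 θ d s = 1 := by
  unfold Rent Rent'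
  rw [← scal_comp hS]
  have : (G.e d i0 d s ≫ (S d ◁ θ.hom) ≫ (ρ_ (S d)).hom) ≫
      ((ρ_ (S d)).inv ≫ (S d ◁ θ.inv) ≫ G.q d i0 d s) = 𝟙 (S d) := by
    simp only [Category.assoc, Iso.hom_inv_id_assoc]
    rw [← MonoidalCategory.whiskerLeft_comp_assoc, θ.hom_inv_id, MonoidalCategory.whiskerLeft_id,
      Category.id_comp, G.eq, if_pos rfl]
  rw [this, scal_id hS]

lemma e_right (a : Fin r) (s : Fin (N a i0 a)) :
    G.e a i0 a s = Rent G i0 θ a s • ((ρ_ (S a)).inv ≫ (S a ◁ θ.inv)) := by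
  have h := scal_spec hS (G.e a i0 a s ≫ (S a ◁ θ.hom) ≫ (ρ_ (S a)).hom)
  have h2 := congrArg (fun t => t ≫ (ρ_ (S a)).inv ≫ (S a ◁ θ.inv)) h
  simp only [Category.assoc, Iso.hom_inv_id_assoc, Linear.smul_comp, Category.id_comp] at h2
  rw [← MonoidalCategory.whiskerLeft_comp, θ.hom_inv_id, MonoidalCategory.whiskerLeft_id,
    Category.comp_id] at h2
  exact h2

lemma e_left (b : Fin r) (t : Fin (N i0 b b)) :
    G.e i0 b b t = Lent G i0 θ b t • ((λ_ (S b)).inv ≫ (θ.inv ▷ S b)) := by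
  have h := scal_spec hS (G.e i0 b b t ≫ (θ.hom ▷ S b) ≫ (λ_ (S b)).hom)
  have h2 := congrArg (fun t => t ≫ (λ_ (S b)).inv ≫ (θ.inv ▷ S b)) h
  simp only [Category.assoc, Iso.hom_inv_id_assoc, Linear.smul_comp, Category.id_comp] at h2
  rw [← comp_whiskerRight, θ.hom_inv_id, id_whiskerRight, Category.comp_id] at h2
  exact h2

lemma q_left (b : Fin r) (t : Fin (N i0 b b)) :
    G.q i0 b b t = Lent' G i0 θ b t • ((θ.hom ▷ S b) ≫ (λ_ (S b)).hom) := by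
  have h := scal_spec hS ((λ_ (S b)).inv ≫ (θ.inv ▷ S b) ≫ G.q i0 b b t)
  have h2 := congrArg (fun t => (θ.hom ▷ S b) ≫ (λ_ (S b)).hom ≫ t) h
  simp only [Iso.hom_inv_id_assoc, Linear.comp_smul, Category.comp_id] at h2
  rw [← comp_whiskerRight_assoc, θ.hom_inv_id, id_whiskerRight, Category.id_comp] at h2
  exact h2

lemma q_right (a : Fin r) (s : Fin (N a i0 a)) :
    G.q a i0 a s = Rent' G i0 θ a s • ((S a ◁ θ.hom) ≫ (ρ_ (S a)).hom) := by
  have h := scal_spec hS ((ρ_ (S a)).inv ≫ (S a ◁ θ.inv) ≫ G.q a i0 a s)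
  have h2 := congrArg (fun t => (S a ◁ θ.hom) ≫ (ρ_ (S a)).hom ≫ t) h
  simp only [Iso.hom_inv_id_assoc, Linear.comp_smul, Category.comp_id] at h2
  rw [← MonoidalCategory.whiskerLeft_comp_assoc, θ.hom_inv_id, MonoidalCategory.whiskerLeft_id,
    Category.id_comp] at h2
  exact h2

omit hS in
lemma coh1 (a b : Fin r) : (((ρ_ (S a)).inv ≫ (S a ◁ θ.inv)) ▷ S b) ≫
    (α_ (S a) (S i0) (S b)).hom ≫ (S a ◁ ((θ.hom ▷ S b) ≫ (λ_ (S b)).hom)) =
    𝟙 (S a ⊗ S b) := by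
  rw [comp_whiskerRight, MonoidalCategory.whiskerLeft_comp]
  simp only [Category.assoc]
  rw [← associator_naturality_middle_assoc]
  rw [← comp_whiskerRight_assoc (S a ◁ θ.inv), ← MonoidalCategory.whiskerLeft_comp, θ.inv_hom_id,
    MonoidalCategory.whiskerLeft_id, id_whiskerRight, Category.id_comp, MonoidalCategory.triangle,
    ← comp_whiskerRight, Iso.inv_hom_id, id_whiskerRight]

omit hS in
lemma coh2 (a b : Fin r) : (S a ◁ ((λ_ (S b)).inv ≫ (θ.inv ▷ S b))) ≫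
    (α_ (S a) (S i0) (S b)).inv ≫ (((S a ◁ θ.hom) ≫ (ρ_ (S a)).hom) ▷ S b) =
    𝟙 (S a ⊗ S b) := by
  have h := coh1 (S := S) i0 θ a b
  have e1 : IsIso ((((ρ_ (S a)).inv ≫ (S a ◁ θ.inv)) ▷ S b)) := inferInstance
  have h1 : (S a ◁ ((λ_ (S b)).inv ≫ (θ.inv ▷ S b))) ≫
    (α_ (S a) (S i0) (S b)).inv ≫ (((S a ◁ θ.hom) ≫ (ρ_ (S a)).hom) ▷ S b) ≫
    ((((ρ_ (S a)).inv ≫ (S a ◁ θ.inv)) ▷ S b) ≫
    (α_ (S a) (S i0) (S b)).hom ≫ (S a ◁ ((θ.hom ▷ S b) ≫ (λ_ (S b)).hom))) = 𝟙 _ := by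
    rw [← comp_whiskerRight_assoc]
    have h2 : ((S a ◁ θ.hom) ≫ (ρ_ (S a)).hom) ≫ (ρ_ (S a)).inv ≫ (S a ◁ θ.inv) = 𝟙 _ := by
      simp only [Category.assoc, Iso.hom_inv_id_assoc]
      rw [← MonoidalCategory.whiskerLeft_comp, θ.hom_inv_id, MonoidalCategory.whiskerLeft_id]
    rw [h2, id_whiskerRight, Category.id_comp, Iso.inv_hom_id_assoc,
      ← MonoidalCategory.whiskerLeft_comp]
    have h3 : ((λ_ (S b)).inv ≫ θ.inv ▷ S b) ≫ θ.hom ▷ S b ≫ (λ_ (S b)).hom = 𝟙 _ := by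
      simp only [Category.assoc]
      rw [← comp_whiskerRight_assoc, θ.inv_hom_id, id_whiskerRight, Category.id_comp,
        Iso.inv_hom_id]
    rw [h3, MonoidalCategory.whiskerLeft_id]
  rw [h] at h1
  simp only [Category.comp_id] at h1
  exact h1

lemma Fent_unit (a b c : Fin r) (w : Fin (N a b c)) (s : Fin (N a i0 a)) (t : Fin (N i0 b b)) :
    Fent G a i0 b c a s w b t w = Rent G i0 θ a s * Lent' G i0 θ b t := by
  unfold Fent
  have : G.e a b c w ≫ (G.e a i0 a s ▷ S b) ≫ (α_ (S a) (S i0) (S b)).hom ≫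
      (S a ◁ G.q i0 b b t) ≫ G.q a b c w =
      (Rent G i0 θ a s * Lent' G i0 θ b t) • 𝟙 (S c) := by
    conv_lhs => rw [e_right hS G i0 θ a s, q_left hS G i0 θ b t]
    rw [MonoidalLinear.smul_whiskerRight, MonoidalLinear.whiskerLeft_smul]
    simp only [Linear.smul_comp, Linear.comp_smul, smul_smul]
    have h := coh1 (S := S) i0 θ a b
    have h2 := congrArg (fun t => G.e a b c w ≫ t ≫ G.q a b c w) h
    simp only [Category.assoc, Category.id_comp] at h2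
    rw [h2, G.eq, if_pos rfl, mul_comm]
  rw [this, scal_smul_id hS]

lemma Gent_unit (a b c : Fin r) (w : Fin (N a b c)) (s : Fin (N a i0 a)) (t : Fin (N i0 b b)) :
    Gent G a i0 b c a s w b t w = Rent' G i0 θ a s * Lent G i0 θ b t := by
  unfold Gent
  have : G.e a b c w ≫ (S a ◁ G.e i0 b b t) ≫ (α_ (S a) (S i0) (S b)).inv ≫
      (G.q a i0 a s ▷ S b) ≫ G.q a b c w =
      (Rent' G i0 θ a s * Lent G i0 θ b t) • 𝟙 (S c) := by
    conv_lhs => rw [e_left hS G i0 θ b t, q_right hS G i0 θ a s]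
    rw [MonoidalLinear.smul_whiskerRight, MonoidalLinear.whiskerLeft_smul]
    simp only [Linear.smul_comp, Linear.comp_smul, smul_smul]
    have h := coh2 (S := S) i0 θ a b
    have h2 := congrArg (fun t => G.e a b c w ≫ t ≫ G.q a b c w) h
    simp only [Category.assoc, Category.id_comp] at h2
    rw [h2, G.eq, if_pos rfl, mul_comm]
  rw [this, scal_smul_id hS]

lemma norm_RL (hU : FUnit G) (a b c : Fin r) (w : Fin (N a b c)) (s : Fin (N a i0 a))
    (t : Fin (N i0 b b)) : ‖Rent G i0 θ a s‖ = ‖Lent G i0 θ b t‖ := by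
  have h := hU a i0 b c a s w b t w
  rw [Fent_unit hS G i0 θ, Gent_unit hS G i0 θ] at h
  have h1 := Rent_mul hS G i0 θ a s
  have h2 := Lent_mul hS G i0 θ b t
  have n1 := congrArg norm h
  have n2 := congrArg norm h1
  have n3 := congrArg norm h2
  rw [norm_star, norm_mul, norm_mul] at n1
  rw [norm_mul, norm_one] at n2 n3
  have p1 : 0 < ‖Rent G i0 θ a s‖ := by
    rcases (norm_nonneg (Rent G i0 θ a s)).lt_or_eq with h | h
    · exact h
    · rw [← h, zero_mul] at n2; exact absurd n2 (by norm_num)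
  have p2 : 0 < ‖Lent G i0 θ b t‖ := by
    rcases (norm_nonneg (Lent G i0 θ b t)).lt_or_eq with h | h
    · exact h
    · rw [← h, zero_mul] at n3; exact absurd n3 (by norm_num)
  have e1 : ‖Rent' G i0 θ a s‖ = 1 / ‖Rent G i0 θ a s‖ := by
    rw [eq_div_iff p1.ne']; linarith [mul_comm ‖Rent G i0 θ a s‖ ‖Rent' G i0 θ a s‖]
  have e2 : ‖Lent' G i0 θ b t‖ = 1 / ‖Lent G i0 θ b t‖ := by
    rw [eq_div_iff p2.ne']; linarith [mul_comm ‖Lent G i0 θ b t‖ ‖Lent' G i0 θ b t‖]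
  rw [e1, e2] at n1
  have n4 : ‖Lent G i0 θ b t‖ ^ 2 = ‖Rent G i0 θ a s‖ ^ 2 := by
    field_simp at n1
    linarith
  exact ((sq_eq_sq₀ p2.le p1.le).1 n4).symm

lemma cf_left_hom (z : ℂ) (hz : z ≠ 0) (X : Res S) (b : Fin r) (n n' : X.ι b)
    (t : Fin (N i0 b b)) :
    cf (tens hS G (unitRes i0 θ z hz) X) X (λ_ X.X).hom b n'
      ⟨(⟨i0, ⟨(), rfl⟩⟩, ⟨b, n⟩), t⟩ =
    z * Lent G i0 θ b t * (if n = n' then 1 else 0) := by
  change scal ((G.e i0 b b t ≫ ((z • (eqToHom rfl ≫ θ.hom)) ⊗ₘ X.b b n)) ≫ (λ_ X.X).hom ≫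
    X.p b n') = _
  have h1 : (G.e i0 b b t ≫ ((z • (eqToHom rfl ≫ θ.hom)) ⊗ₘ X.b b n)) ≫ (λ_ X.X).hom ≫
    X.p b n' = z • ((G.e i0 b b t ≫ (θ.hom ▷ S b) ≫ (λ_ (S b)).hom) ≫ (X.b b n ≫ X.p b n')) := by
    rw [eqToHom_refl, Category.id_comp, MonoidalCategory.tensorHom_def]
    simp only [MonoidalLinear.smul_whiskerRight, Linear.smul_comp, Linear.comp_smul,
      Category.assoc]
    rw [leftUnitor_naturality_assoc]
  rw [h1, scal_smul hS, scal_comp hS, X.bp]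
  unfold Lent
  split_ifs
  · rw [scal_id hS]; ring
  · rw [scal_zero hS]; ring

lemma cf_left_inv (z : ℂ) (hz : z ≠ 0) (X : Res S) (b : Fin r) (n n' : X.ι b)
    (t : Fin (N i0 b b)) :
    cf X (tens hS G (unitRes i0 θ z hz) X) (λ_ X.X).inv b
      ⟨(⟨i0, ⟨(), rfl⟩⟩, ⟨b, n⟩), t⟩ n' =
    z⁻¹ * Lent' G i0 θ b t * (if n' = n then 1 else 0) := by
  change scal (X.b b n' ≫ (λ_ X.X).inv ≫ ((z⁻¹ • (θ.inv ≫ eqToHom rfl)) ⊗ₘ X.p b n) ≫
    G.q i0 b b t) = _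
  have h1 : X.b b n' ≫ (λ_ X.X).inv ≫ ((z⁻¹ • (θ.inv ≫ eqToHom rfl)) ⊗ₘ X.p b n) ≫
    G.q i0 b b t = z⁻¹ • ((X.b b n' ≫ X.p b n) ≫
      ((λ_ (S b)).inv ≫ (θ.inv ▷ S b) ≫ G.q i0 b b t)) := by
    rw [eqToHom_refl, Category.comp_id, MonoidalCategory.tensorHom_def']
    simp only [MonoidalLinear.smul_whiskerRight, Linear.smul_comp, Linear.comp_smul,
      Category.assoc]
    rw [leftUnitor_inv_naturality_assoc, leftUnitor_inv_naturality_assoc,
          leftUnitor_inv_naturality_assoc]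
  rw [h1, scal_smul hS, scal_comp hS, X.bp]
  unfold Lent'
  split_ifs
  · rw [scal_id hS]; ring
  · rw [scal_zero hS]; ring

lemma cf_right_hom (z : ℂ) (hz : z ≠ 0) (X : Res S) (b : Fin r) (n n' : X.ι b)
    (t : Fin (N b i0 b)) :
    cf (tens hS G X (unitRes i0 θ z hz)) X (ρ_ X.X).hom b n'
      ⟨(⟨b, n⟩, ⟨i0, ⟨(), rfl⟩⟩), t⟩ =
    z * Rent G i0 θ b t * (if n = n' then 1 else 0) := by
  change scal ((G.e b i0 b t ≫ (X.b b n ⊗ₘ (z • (eqToHom rfl ≫ θ.hom)))) ≫ (ρ_ X.X).hom ≫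
    X.p b n') = _
  have h1 : (G.e b i0 b t ≫ (X.b b n ⊗ₘ (z • (eqToHom rfl ≫ θ.hom)))) ≫ (ρ_ X.X).hom ≫
    X.p b n' = z • ((G.e b i0 b t ≫ (S b ◁ θ.hom) ≫ (ρ_ (S b)).hom) ≫ (X.b b n ≫ X.p b n')) := by
    rw [eqToHom_refl, Category.id_comp, MonoidalCategory.tensorHom_def']
    simp only [MonoidalLinear.whiskerLeft_smul, Linear.smul_comp, Linear.comp_smul,
      Category.assoc]
    rw [rightUnitor_naturality_assoc]
  rw [h1, scal_smul hS, scal_comp hS, X.bp]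
  unfold Rent
  split_ifs
  · rw [scal_id hS]; ring
  · rw [scal_zero hS]; ring

lemma cf_right_inv (z : ℂ) (hz : z ≠ 0) (X : Res S) (b : Fin r) (n n' : X.ι b)
    (t : Fin (N b i0 b)) :
    cf X (tens hS G X (unitRes i0 θ z hz)) (ρ_ X.X).inv b
      ⟨(⟨b, n⟩, ⟨i0, ⟨(), rfl⟩⟩), t⟩ n' =
    z⁻¹ * Rent' G i0 θ b t * (if n' = n then 1 else 0) := by
  change scal (X.b b n' ≫ (ρ_ X.X).inv ≫ (X.p b n ⊗ₘ (z⁻¹ • (θ.inv ≫ eqToHom rfl))) ≫
    G.q b i0 b t) = _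
  have h1 : X.b b n' ≫ (ρ_ X.X).inv ≫ (X.p b n ⊗ₘ (z⁻¹ • (θ.inv ≫ eqToHom rfl))) ≫
    G.q b i0 b t = z⁻¹ • ((X.b b n' ≫ X.p b n) ≫
      ((ρ_ (S b)).inv ≫ (S b ◁ θ.inv) ≫ G.q b i0 b t)) := by
    rw [eqToHom_refl, Category.comp_id, MonoidalCategory.tensorHom_def]
    simp only [MonoidalLinear.whiskerLeft_smul, Linear.smul_comp, Linear.comp_smul,
      Category.assoc]
    rw [rightUnitor_inv_naturality_assoc, rightUnitor_inv_naturality_assoc,
          rightUnitor_inv_naturality_assoc]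
  rw [h1, scal_smul hS, scal_comp hS, X.bp]
  unfold Rent'
  split_ifs
  · rw [scal_id hS]; ring
  · rw [scal_zero hS]; ring

omit hS in
lemma conj_of_norm_one {x y : ℂ} (hxy : x * y = 1) (hx : ‖x‖ = 1) : star x = y := by
  have h1 : x * star x = 1 := by
    rw [Complex.star_def, Complex.mul_conj, Complex.normSq_eq_norm_sq, hx]; norm_num
  have hx0 : x ≠ 0 := by
    intro h; rw [h] at hxy; simp at hxy
  exact mul_left_cancel₀ hx0 (h1.trans hxy.symm)

lemma dag_left (z : ℂ) (hz : z ≠ 0) (hL : ∀ b t, ‖z * Lent G i0 θ b t‖ = 1) (X : Res S) :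
    dag (tens hS G (unitRes i0 θ z hz) X) X (λ_ X.X).hom = (λ_ X.X).inv := by
  refine cf_ext hS X (tens hS G (unitRes i0 θ z hz) X) (fun d => ?_)
  rw [cf_dag hS]
  ext j n'
  rw [Matrix.conjTranspose_apply]
  obtain ⟨⟨⟨i, ⟨u, hi⟩⟩, ⟨b, n⟩⟩, t⟩ := j
  subst hi
  by_cases hb : b = d
  · subst hb
    rw [cf_left_hom, cf_left_inv, star_mul']
    have h1 : star (z * Lent G i θ b t) = z⁻¹ * Lent' G i θ b t := by
      apply conj_of_norm_one _ (hL b t)
      calc z * Lent G i θ b t * (z⁻¹ * Lent' G i θ b t) =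
          (z * z⁻¹) * (Lent G i θ b t * Lent' G i θ b t) := by ring
        _ = 1 := by rw [mul_inv_cancel₀ hz, Lent_mul hS, mul_one]
    rw [h1]
    congr 1
    by_cases h : n = n'
    · rw [if_pos h, if_pos h.symm, star_one]
    · rw [if_neg h, if_neg (Ne.symm h), star_zero]
  · have e1 : cf (tens hS G (unitRes i θ z hz) X) X (λ_ X.X).hom d n'
        ⟨(⟨i, ⟨u, rfl⟩⟩, ⟨b, n⟩), t⟩ = 0 := by
      change scal ((G.e i b d t ≫ ((z • (eqToHom rfl ≫ θ.hom)) ⊗ₘ X.b b n)) ≫ (λ_ X.X).hom ≫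
        X.p d n') = 0
      have h1 : (G.e i b d t ≫ ((z • (eqToHom rfl ≫ θ.hom)) ⊗ₘ X.b b n)) ≫ (λ_ X.X).hom ≫
        X.p d n' = z • ((G.e i b d t ≫ (θ.hom ▷ S b) ≫ (λ_ (S b)).hom) ≫
          (X.b b n ≫ X.p d n')) := by
        rw [eqToHom_refl, Category.id_comp, MonoidalCategory.tensorHom_def]
        simp only [MonoidalLinear.smul_whiskerRight, Linear.smul_comp, Linear.comp_smul,
          Category.assoc]
        rw [leftUnitor_naturality_assoc]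
      rw [h1, hS.hor b d hb (X.b b n ≫ X.p d n'), comp_zero, smul_zero, scal_zero hS]
    have e2 : cf X (tens hS G (unitRes i θ z hz) X) (λ_ X.X).inv d
        ⟨(⟨i, ⟨u, rfl⟩⟩, ⟨b, n⟩), t⟩ n' = 0 := by
      change scal (X.b d n' ≫ (λ_ X.X).inv ≫ ((z⁻¹ • (θ.inv ≫ eqToHom rfl)) ⊗ₘ X.p b n) ≫
        G.q i b d t) = 0
      have h1 : X.b d n' ≫ (λ_ X.X).inv ≫ ((z⁻¹ • (θ.inv ≫ eqToHom rfl)) ⊗ₘ X.p b n) ≫
        G.q i b d t = z⁻¹ • ((X.b d n' ≫ X.p b n) ≫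
          ((λ_ (S b)).inv ≫ (θ.inv ▷ S b) ≫ G.q i b d t)) := by
        rw [eqToHom_refl, Category.comp_id, MonoidalCategory.tensorHom_def']
        simp only [MonoidalLinear.smul_whiskerRight, Linear.smul_comp, Linear.comp_smul,
          Category.assoc]
        rw [leftUnitor_inv_naturality_assoc, leftUnitor_inv_naturality_assoc,
          leftUnitor_inv_naturality_assoc]
      rw [h1, hS.hor d b (Ne.symm hb) (X.b d n' ≫ X.p b n), zero_comp, smul_zero, scal_zero hS]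
    rw [e1, e2, star_zero]

lemma dag_right (z : ℂ) (hz : z ≠ 0) (hR : ∀ b t, ‖z * Rent G i0 θ b t‖ = 1) (X : Res S) :
    dag (tens hS G X (unitRes i0 θ z hz)) X (ρ_ X.X).hom = (ρ_ X.X).inv := by
  refine cf_ext hS X (tens hS G X (unitRes i0 θ z hz)) (fun d => ?_)
  rw [cf_dag hS]
  ext j n'
  rw [Matrix.conjTranspose_apply]
  obtain ⟨⟨⟨b, n⟩, ⟨i, ⟨u, hi⟩⟩⟩, t⟩ := j
  subst hi
  by_cases hb : b = d
  · subst hb
    rw [cf_right_hom, cf_right_inv, star_mul']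
    have h1 : star (z * Rent G i θ b t) = z⁻¹ * Rent' G i θ b t := by
      apply conj_of_norm_one _ (hR b t)
      calc z * Rent G i θ b t * (z⁻¹ * Rent' G i θ b t) =
          (z * z⁻¹) * (Rent G i θ b t * Rent' G i θ b t) := by ring
        _ = 1 := by rw [mul_inv_cancel₀ hz, Rent_mul hS, mul_one]
    rw [h1]
    congr 1
    by_cases h : n = n'
    · rw [if_pos h, if_pos h.symm, star_one]
    · rw [if_neg h, if_neg (Ne.symm h), star_zero]
  · have e1 : cf (tens hS G X (unitRes i θ z hz)) X (ρ_ X.X).hom d n'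
        ⟨(⟨b, n⟩, ⟨i, ⟨u, rfl⟩⟩), t⟩ = 0 := by
      change scal ((G.e b i d t ≫ (X.b b n ⊗ₘ (z • (eqToHom rfl ≫ θ.hom)))) ≫ (ρ_ X.X).hom ≫
        X.p d n') = 0
      have h1 : (G.e b i d t ≫ (X.b b n ⊗ₘ (z • (eqToHom rfl ≫ θ.hom)))) ≫ (ρ_ X.X).hom ≫
        X.p d n' = z • ((G.e b i d t ≫ (S b ◁ θ.hom) ≫ (ρ_ (S b)).hom) ≫
          (X.b b n ≫ X.p d n')) := by
        rw [eqToHom_refl, Category.id_comp, MonoidalCategory.tensorHom_def']
        simp only [MonoidalLinear.whiskerLeft_smul, Linear.smul_comp, Linear.comp_smul,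
          Category.assoc]
        rw [rightUnitor_naturality_assoc]
      rw [h1, hS.hor b d hb (X.b b n ≫ X.p d n'), comp_zero, smul_zero, scal_zero hS]
    have e2 : cf X (tens hS G X (unitRes i θ z hz)) (ρ_ X.X).inv d
        ⟨(⟨b, n⟩, ⟨i, ⟨u, rfl⟩⟩), t⟩ n' = 0 := by
      change scal (X.b d n' ≫ (ρ_ X.X).inv ≫ (X.p b n ⊗ₘ (z⁻¹ • (θ.inv ≫ eqToHom rfl))) ≫
        G.q b i d t) = 0
      have h1 : X.b d n' ≫ (ρ_ X.X).inv ≫ (X.p b n ⊗ₘ (z⁻¹ • (θ.inv ≫ eqToHom rfl))) ≫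
        G.q b i d t = z⁻¹ • ((X.b d n' ≫ X.p b n) ≫
          ((ρ_ (S b)).inv ≫ (S b ◁ θ.inv) ≫ G.q b i d t)) := by
        rw [eqToHom_refl, Category.comp_id, MonoidalCategory.tensorHom_def]
        simp only [MonoidalLinear.whiskerLeft_smul, Linear.smul_comp, Linear.comp_smul,
          Category.assoc]
        rw [rightUnitor_inv_naturality_assoc, rightUnitor_inv_naturality_assoc,
          rightUnitor_inv_naturality_assoc]
      rw [h1, hS.hor d b (Ne.symm hb) (X.b d n' ≫ X.p b n), zero_comp, smul_zero, scal_zero hS]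
    rw [e1, e2, star_zero]

end Units

end Tensor

section Complete

variable {C : Type u} [Category.{v} C] [Preadditive C] [Linear ℂ C] {r : ℕ} {S : Fin r → C}
variable (hS : Sch S)
include hS

lemma hom_findim (X Y : Res S) : FiniteDimensional ℂ (X.X ⟶ Y.X) := by
  let T : (X.X ⟶ Y.X) →ₗ[ℂ] (∀ i, Matrix (Y.ι i) (X.ι i) ℂ) :=
    { toFun := fun f i => cf X Y f i
      map_add' := fun f g => by ext1 i; exact cf_add hS X Y f g i
      map_smul' := fun z f => by ext1 i; exact cf_smul hS X Y z f i }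
  have hT : Function.Injective T := fun f g h => cf_ext hS X Y (fun i => congrFun h i)
  exact FiniteDimensional.of_injective T hT

lemma nrm_complete (X Y : Res S) (w : ℕ → (X.X ⟶ Y.X))
    (hw : ∀ ε : ℝ, 0 < ε → ∃ K : ℕ, ∀ m n : ℕ, K ≤ m → K ≤ n → nrm X Y (w m - w n) < ε) :
    ∃ f : X.X ⟶ Y.X, ∀ ε : ℝ, 0 < ε → ∃ K : ℕ, ∀ n : ℕ, K ≤ n → nrm X Y (w n - f) < ε := by
  let _ : Norm (X.X ⟶ Y.X) := ⟨nrm X Y⟩
  have core : NormedSpace.Core ℂ (X.X ⟶ Y.X) :=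
    { norm_nonneg := nrm_nonneg X Y
      norm_smul := nrm_smul hS X Y
      norm_triangle := nrm_add hS X Y
      norm_eq_zero_iff := fun f => ⟨nrm_eq_zero hS X Y f, fun h => by
        have := nrm_smul hS X Y 0 f
        rw [zero_smul, norm_zero, zero_mul] at this
        rw [h]; exact this⟩ }
  let _ : NormedAddCommGroup (X.X ⟶ Y.X) := NormedAddCommGroup.ofCore core
  let _ : NormedSpace ℂ (X.X ⟶ Y.X) := NormedSpace.ofCore core
  have := hom_findim hS X Y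
  have : CompleteSpace (X.X ⟶ Y.X) := FiniteDimensional.complete ℂ _
  have h1 : CauchySeq w := by
    rw [Metric.cauchySeq_iff]
    intro ε hε
    obtain ⟨K, hK⟩ := hw ε hε
    refine ⟨K, fun m hm n hn => ?_⟩
    rw [dist_eq_norm]
    exact hK m n hm hn
  obtain ⟨f, hf⟩ := cauchySeq_tendsto_of_complete h1
  refine ⟨f, fun ε hε => ?_⟩
  obtain ⟨K, hK⟩ := (Metric.tendsto_atTop.1 hf) ε hε
  refine ⟨K, fun n hn => ?_⟩
  have := hK n hn
  rw [dist_eq_norm] at this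
  exact this

end Complete

section Exist

variable {C : Type u} [Category.{v} C] [Preadditive C] [Linear ℂ C] [HasFiniteBiproducts C]
  {r : ℕ} {S : Fin r → C}

/-- every object has a resolution -/
lemma exists_res (hfin : ∀ X : C, ∃ (m : ℕ) (f : Fin m → C) (idx : Fin m → Fin r),
    (∀ k, Nonempty (f k ≅ S (idx k))) ∧ Nonempty (X ≅ ⨁ f)) (X : C) :
    ∃ R : Res S, R.X = X := by
  classical
  obtain ⟨m, f, idx, h1, ⟨w⟩⟩ := hfin X
  let θ : ∀ k, f k ≅ S (idx k) := fun k => (h1 k).some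
  let b : ∀ i, {k : Fin m // idx k = i} → (S i ⟶ X) := fun i k =>
    eqToHom (congrArg S k.2.symm) ≫ (θ k.1).inv ≫ biproduct.ι f k.1 ≫ w.inv
  let p : ∀ i, {k : Fin m // idx k = i} → (X ⟶ S i) := fun i k =>
    w.hom ≫ biproduct.π f k.1 ≫ (θ k.1).hom ≫ eqToHom (congrArg S k.2)
  have hbp : ∀ i m n, b i m ≫ p i n = if m = n then 𝟙 (S i) else 0 := by
    rintro i ⟨k, hk⟩ ⟨l, hl⟩
    simp only [b, p]
    subst hk
    simp only [eqToHom_refl, Category.id_comp, Category.assoc, Iso.inv_hom_id_assoc]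
    by_cases hkl : k = l
    · subst hkl
      simp
    · rw [biproduct.ι_π_ne_assoc _ hkl]
      simp [hkl]
  have hpb : ∑ i, ∑ m, p i m ≫ b i m = 𝟙 X := by
    have e1 : ∀ i, ∀ k : {k : Fin m // idx k = i},
        (w.hom ≫ biproduct.π f k.1 ≫ (θ k.1).hom ≫ eqToHom (congrArg S k.2)) ≫
          eqToHom (congrArg S k.2.symm) ≫ (θ k.1).inv ≫ biproduct.ι f k.1 ≫ w.inv =
        (fun l => w.hom ≫ biproduct.π f l ≫ biproduct.ι f l ≫ w.inv) k.1 := by
      rintro i ⟨k, hk⟩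
      subst hk
      simp
    simp only [b, p, e1]
    rw [Fintype.sum_fiberwise idx (fun l => w.hom ≫ biproduct.π f l ≫ biproduct.ι f l ≫ w.inv)]
    have h2 := biproduct.total (f := f)
    have h3 := congrArg (fun t => w.hom ≫ t ≫ w.inv) h2
    simp only [Preadditive.comp_sum, Preadditive.sum_comp, Category.assoc, Category.id_comp,
      Iso.hom_inv_id] at h3
    exact h3
  exact ⟨{ X := X, ι := fun i => {k : Fin m // idx k = i}, b := b, p := p,
           bp := hbp, pb := hpb }, rfl⟩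

end Exist

section GaugeSec2

variable {C : Type u} [Category.{v} C] [Preadditive C] [Linear ℂ C] [MonoidalCategory C] {r : ℕ}

variable {S : Fin r → C} (hS : Sch S)

/-- the dual basis of a basis of a multiplicity space -/
def dualVec (X : Res S) {Y : C} (hX : X.X = Y) (c : Fin r) {n : ℕ}
    (β : Module.Basis (Fin n) ℂ (S c ⟶ Y)) (s : Fin n) : Y ⟶ S c :=
  ∑ m : X.ι c, β.repr (X.b c m ≫ eqToHom hX) s • (eqToHom hX.symm ≫ X.p c m)

include hS in
lemma comp_dualVec (X : Res S) {Y : C} (hX : X.X = Y) (c : Fin r) {n : ℕ}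
    (β : Module.Basis (Fin n) ℂ (S c ⟶ Y)) (s t : Fin n) :
    β s ≫ dualVec X hX c β t = if s = t then 𝟙 (S c) else 0 := by
  subst hX
  unfold dualVec
  simp only [eqToHom_refl, Category.comp_id, Category.id_comp]
  have e2 : β s ≫ ∑ m : X.ι c, β.repr (X.b c m) t • X.p c m =
      (∑ m : X.ι c, scal (β s ≫ X.p c m) * β.repr (X.b c m) t) • 𝟙 (S c) := by
    rw [Preadditive.comp_sum, Finset.sum_smul]
    refine Finset.sum_congr rfl (fun m _ => ?_)
    rw [Linear.comp_smul]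
    conv_lhs => rw [scal_spec hS (β s ≫ X.p c m)]
    rw [smul_smul, mul_comm]
  have e3 : β.repr (β s) t = ∑ m : X.ι c, scal (β s ≫ X.p c m) * β.repr (X.b c m) t := by
    conv_lhs => rw [vec_expand hS X (β s)]
    rw [map_sum, Finsupp.finsetSum_apply]
    refine Finset.sum_congr rfl (fun m _ => ?_)
    rw [map_smul, Finsupp.smul_apply, smul_eq_mul]
  rw [e2, ← e3, Module.Basis.repr_self, Finsupp.single_apply]
  split_ifs
  · rw [one_smul]
  · rw [zero_smul]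

lemma dualVec_comp (X : Res S) {Y : C} (hX : X.X = Y) (c : Fin r) {n : ℕ}
    (β : Module.Basis (Fin n) ℂ (S c ⟶ Y)) :
    ∑ s, dualVec X hX c β s ≫ β s =
      eqToHom hX.symm ≫ (∑ m, X.p c m ≫ X.b c m) ≫ eqToHom hX := by
  subst hX
  unfold dualVec
  simp only [eqToHom_refl, Category.comp_id, Category.id_comp]
  simp only [Preadditive.sum_comp, Linear.smul_comp]
  rw [Finset.sum_comm]
  refine Finset.sum_congr rfl (fun m _ => ?_)
  have h2 := congrArg (fun t => X.p c m ≫ t) (β.sum_repr (X.b c m))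
  simp only [Preadditive.comp_sum, Linear.comp_smul] at h2
  exact h2

/-- the resolutions defined by a gauge -/
def gaugeRes (hS : Sch S) (B : Gauge S) (R : ∀ Y : C, {X : Res S // X.X = Y}) :
    GRes S (fun a b c => Module.finrank ℂ (S c ⟶ S a ⊗ S b)) where
  e a b c s := B a b c s
  q a b c s := dualVec (R (S a ⊗ S b)).1 (R (S a ⊗ S b)).2 c (B a b c) s
  eq a b c s t := comp_dualVec hS _ _ c (B a b c) s t
  qe a b := by
    simp only [dualVec_comp]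
    rw [← Preadditive.comp_sum, ← Preadditive.sum_comp, Res.pb, Category.id_comp, eqToHom_trans,
      eqToHom_refl]

end GaugeSec2

section FU

variable {C : Type u} [Category.{v} C] [Preadditive C] [Linear ℂ C] [MonoidalCategory C]
  [MonoidalPreadditive C] [MonoidalLinear ℂ C] {r : ℕ}

variable {S : Fin r → C} (hS : Sch S) (B : Gauge S) (R : ∀ Y : C, {X : Res S // X.X = Y})

lemma right_orth (a b c d : Fin r) (x : RightIx S a b c d) (x' : RightIx S a b c d) :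
    rightVec S B a b c d x ≫ (S a ◁ (gaugeRes hS B R).q b c x'.1 x'.2.1) ≫
      (gaugeRes hS B R).q a x'.1 d x'.2.2 = if x = x' then 𝟙 (S d) else 0 := by
  set G := gaugeRes hS B R with hG
  obtain ⟨f, s, t⟩ := x
  obtain ⟨f', s', t'⟩ := x'
  change (G.e a f d t ≫ (S a ◁ G.e b c f s)) ≫ (S a ◁ G.q b c f' s') ≫ G.q a f' d t' = _
  have h1 : (G.e a f d t ≫ (S a ◁ G.e b c f s)) ≫ (S a ◁ G.q b c f' s') ≫ G.q a f' d t' =
      G.e a f d t ≫ (S a ◁ (G.e b c f s ≫ G.q b c f' s')) ≫ G.q a f' d t' := by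
    rw [MonoidalCategory.whiskerLeft_comp]; simp only [Category.assoc]
  rw [h1]
  by_cases hf : f = f'
  · subst hf
    rw [G.eq]
    by_cases hs : s = s'
    · subst hs
      rw [if_pos rfl, MonoidalCategory.whiskerLeft_id, Category.id_comp, G.eq]
      by_cases ht : t = t'
      · subst ht; simp
      · rw [if_neg ht, if_neg]
        intro h
        apply ht
        have := eq_of_heq (Sigma.mk.inj h).2
        exact (Prod.mk.inj this).2
    · rw [if_neg hs, if_neg]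
      · simp
      · intro h
        apply hs
        have := eq_of_heq (Sigma.mk.inj h).2
        exact (Prod.mk.inj this).1
  · rw [hS.hor f f' hf (G.e b c f s ≫ G.q b c f' s'), if_neg]
    · simp
    · intro h
      exact hf (Sigma.mk.inj h).1

lemma left_orth (a b c d : Fin r) (y : LeftIx S a b c d) (y' : LeftIx S a b c d) :
    leftVec S B a b c d y ≫ ((gaugeRes hS B R).q a b y'.1 y'.2.1 ▷ S c) ≫
      (gaugeRes hS B R).q y'.1 c d y'.2.2 = if y = y' then 𝟙 (S d) else 0 := by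
  set G := gaugeRes hS B R with hG
  obtain ⟨f, s, t⟩ := y
  obtain ⟨f', s', t'⟩ := y'
  change (G.e f c d t ≫ (G.e a b f s ▷ S c)) ≫ (G.q a b f' s' ▷ S c) ≫ G.q f' c d t' = _
  have h1 : (G.e f c d t ≫ (G.e a b f s ▷ S c)) ≫ (G.q a b f' s' ▷ S c) ≫ G.q f' c d t' =
      G.e f c d t ≫ ((G.e a b f s ≫ G.q a b f' s') ▷ S c) ≫ G.q f' c d t' := by
    rw [comp_whiskerRight]; simp only [Category.assoc]
  rw [h1]
  by_cases hf : f = f'
  · subst hf
    rw [G.eq]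
    by_cases hs : s = s'
    · subst hs
      rw [if_pos rfl, id_whiskerRight, Category.id_comp, G.eq]
      by_cases ht : t = t'
      · subst ht; simp
      · rw [if_neg ht, if_neg]
        intro h
        apply ht
        have := eq_of_heq (Sigma.mk.inj h).2
        exact (Prod.mk.inj this).2
    · rw [if_neg hs, if_neg]
      · simp
      · intro h
        apply hs
        have := eq_of_heq (Sigma.mk.inj h).2
        exact (Prod.mk.inj this).1
  · rw [hS.hor f f' hf (G.e a b f s ≫ G.q a b f' s'), if_neg]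
    · simp
    · intro h
      exact hf (Sigma.mk.inj h).1

lemma funit_of (hB : UnitaryFMatrices S B) : FUnit (gaugeRes hS B R) := by
  intro a b c d e s t f s' t'
  obtain ⟨M, hM, -, hM2⟩ := hB a b c d
  have hF : Fent (gaugeRes hS B R) a b c d e s t f s' t' = M ⟨f, (s', t')⟩ ⟨e, (s, t)⟩ := by
    have h1 := hM ⟨e, (s, t)⟩
    have h2 := congrArg (fun w => w ≫ (S a ◁ (gaugeRes hS B R).q b c f s') ≫
      (gaugeRes hS B R).q a f d t') h1
    simp only [Preadditive.sum_comp, Linear.smul_comp] at h2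
    have h3 : ∑ x, M x ⟨e, (s, t)⟩ • (rightVec S B a b c d x ≫
        (S a ◁ (gaugeRes hS B R).q b c f s') ≫ (gaugeRes hS B R).q a f d t') =
        M ⟨f, (s', t')⟩ ⟨e, (s, t)⟩ • 𝟙 (S d) := by
      rw [Finset.sum_eq_single (⟨f, (s', t')⟩ : RightIx S a b c d)]
      · rw [right_orth hS B R a b c d ⟨f, (s', t')⟩ ⟨f, (s', t')⟩, if_pos rfl]
      · intro x _ hx
        rw [right_orth hS B R a b c d x ⟨f, (s', t')⟩, if_neg hx, smul_zero]
      · simp
    rw [h3] at h2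
    have h4 : Fent (gaugeRes hS B R) a b c d e s t f s' t' =
        scal (M ⟨f, (s', t')⟩ ⟨e, (s, t)⟩ • 𝟙 (S d)) := by
      rw [← h2]
      unfold Fent leftVec
      simp only [Category.assoc]
      rfl
    rw [h4, scal_smul_id hS]
  have hG : Gent (gaugeRes hS B R) a b c d e s t f s' t' = star (M ⟨f, (s', t')⟩ ⟨e, (s, t)⟩) := by
    have h1 : rightVec S B a b c d ⟨f, (s', t')⟩ ≫ (α_ (S a) (S b) (S c)).inv =
        ∑ y, star (M ⟨f, (s', t')⟩ y) • leftVec S B a b c d y := by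
      rw [Iso.comp_inv_eq, Preadditive.sum_comp]
      simp only [Linear.smul_comp, hM _, Finset.smul_sum, smul_smul]
      rw [Finset.sum_comm]
      rw [Finset.sum_eq_single (⟨f, (s', t')⟩ : RightIx S a b c d)]
      · rw [← Finset.sum_smul]
        have : ∑ y, star (M ⟨f, (s', t')⟩ y) * M ⟨f, (s', t')⟩ y = 1 := by
          have h := congrFun (congrFun hM2 ⟨f, (s', t')⟩) ⟨f, (s', t')⟩
          rw [Matrix.mul_apply, Matrix.one_apply_eq] at h
          rw [← h]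
          refine Finset.sum_congr rfl (fun y _ => ?_)
          rw [Matrix.conjTranspose_apply, mul_comm]
        rw [this, one_smul]
      · intro x _ hx
        rw [← Finset.sum_smul]
        have : ∑ y, star (M ⟨f, (s', t')⟩ y) * M x y = 0 := by
          have h := congrFun (congrFun hM2 x) ⟨f, (s', t')⟩
          rw [Matrix.mul_apply, Matrix.one_apply_ne hx] at h
          rw [← h]
          refine Finset.sum_congr rfl (fun y _ => ?_)
          rw [Matrix.conjTranspose_apply, mul_comm]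
        rw [this, zero_smul]
      · simp
    have h2 := congrArg (fun w => w ≫ ((gaugeRes hS B R).q a b e s ▷ S c) ≫
      (gaugeRes hS B R).q e c d t) h1
    simp only [Preadditive.sum_comp, Linear.smul_comp] at h2
    have h3 : ∑ y, star (M ⟨f, (s', t')⟩ y) • (leftVec S B a b c d y ≫
        ((gaugeRes hS B R).q a b e s ▷ S c) ≫ (gaugeRes hS B R).q e c d t) =
        star (M ⟨f, (s', t')⟩ ⟨e, (s, t)⟩) • 𝟙 (S d) := by
      rw [Finset.sum_eq_single (⟨e, (s, t)⟩ : LeftIx S a b c d)]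
      · rw [left_orth hS B R a b c d ⟨e, (s, t)⟩ ⟨e, (s, t)⟩, if_pos rfl]
      · intro x _ hx
        rw [left_orth hS B R a b c d x ⟨e, (s, t)⟩, if_neg hx, smul_zero]
      · simp
    rw [h3] at h2
    have h4 : Gent (gaugeRes hS B R) a b c d e s t f s' t' =
        scal (star (M ⟨f, (s', t')⟩ ⟨e, (s, t)⟩) • 𝟙 (S d)) := by
      rw [← h2]
      unfold Gent rightVec
      simp only [Category.assoc]
      rfl
    rw [h4, scal_smul_id hS]
  rw [hF, hG]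

end FU

section DCat

variable {C : Type u} [Category.{v} C] [Preadditive C] [Linear ℂ C] [MonoidalCategory C]
  [MonoidalPreadditive C] [MonoidalLinear ℂ C] {r : ℕ}

/-- data for the construction of the model -/
structure Dat (S : Fin r → C) (N : Fin r → Fin r → Fin r → ℕ) where
  hS : Sch S
  G : GRes S N
  i0 : Fin r
  θ : S i0 ≅ 𝟙_ C
  z : ℂ
  hz : z ≠ 0

variable {S : Fin r → C} {N : Fin r → Fin r → Fin r → ℕ}

/-- the category of resolved objects -/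
def DD (_ : Dat S N) : Type (max (max 1 u) v) := Res S

variable (δ : Dat S N)

/-- the resolution -/
def toR (X : DD δ) : Res S := X

/-- the underlying object -/
abbrev ob (X : DD δ) : C := (toR δ X).X

instance catDD : Category.{v} (DD δ) where
  Hom X Y := ob δ X ⟶ ob δ Y
  id X := 𝟙 (ob δ X)
  comp f g := CategoryStruct.comp (obj := C) f g
  id_comp f := Category.id_comp (obj := C) f
  comp_id f := Category.comp_id (obj := C) f
  assoc f g h := Category.assoc (obj := C) f g h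

instance preDD : Preadditive (DD δ) where
  homGroup X Y := inferInstanceAs (AddCommGroup (ob δ X ⟶ ob δ Y))
  add_comp P Q R f f' g := Preadditive.add_comp (C := C) _ _ _ f f' g
  comp_add P Q R f g g' := Preadditive.comp_add (C := C) _ _ _ f g g'

instance linDD : Linear ℂ (DD δ) where
  homModule X Y := inferInstanceAs (Module ℂ (ob δ X ⟶ ob δ Y))
  smul_comp X Y Z z f g := Linear.smul_comp (C := C) _ _ _ z f g
  comp_smul X Y Z f z g := Linear.comp_smul (C := C) _ _ _ f z g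

/-- the forgetful functor -/
def FF : DD δ ⥤ C where
  obj X := ob δ X
  map f := f

instance : (FF δ).Faithful where
  map_injective h := h

instance : (FF δ).Full where
  map_surjective f := ⟨f, rfl⟩

instance : (FF δ).Additive where
  map_add := rfl

instance : (FF δ).Linear ℂ where
  map_smul _ _ := rfl

instance strDD : MonoidalCategoryStruct (DD δ) where
  tensorObj X Y := tens δ.hS δ.G (toR δ X) (toR δ Y)
  whiskerLeft X _ _ f := MonoidalCategoryStruct.whiskerLeft (C := C) (ob δ X) f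
  whiskerRight f Y := MonoidalCategoryStruct.whiskerRight (C := C) f (ob δ Y)
  tensorHom f g := MonoidalCategoryStruct.tensorHom (C := C) f g
  tensorUnit := unitRes δ.i0 δ.θ δ.z δ.hz
  associator X Y Z :=
    { hom := (α_ (ob δ X) (ob δ Y) (ob δ Z)).hom
      inv := (α_ (ob δ X) (ob δ Y) (ob δ Z)).inv
      hom_inv_id := (α_ (ob δ X) (ob δ Y) (ob δ Z)).hom_inv_id
      inv_hom_id := (α_ (ob δ X) (ob δ Y) (ob δ Z)).inv_hom_id }
  leftUnitor X :=
    { hom := (λ_ (ob δ X)).hom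
      inv := (λ_ (ob δ X)).inv
      hom_inv_id := (λ_ (ob δ X)).hom_inv_id
      inv_hom_id := (λ_ (ob δ X)).inv_hom_id }
  rightUnitor X :=
    { hom := (ρ_ (ob δ X)).hom
      inv := (ρ_ (ob δ X)).inv
      hom_inv_id := (ρ_ (ob δ X)).hom_inv_id
      inv_hom_id := (ρ_ (ob δ X)).inv_hom_id }

/-- the comparison data -/
def indDD : Monoidal.InducingFunctorData (FF δ) where
  μIso X Y := Iso.refl (ob δ X ⊗ ob δ Y)
  whiskerLeft_eq X Y₁ Y₂ f := by
    change (ob δ X) ◁ ((FF δ).map f) = 𝟙 _ ≫ (ob δ X) ◁ ((FF δ).map f) ≫ 𝟙 _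
    simp
  whiskerRight_eq f Y := by
    change ((FF δ).map f) ▷ (ob δ Y) = 𝟙 _ ≫ ((FF δ).map f) ▷ (ob δ Y) ≫ 𝟙 _
    simp
  tensorHom_eq f g := by
    change ((FF δ).map f ⊗ₘ (FF δ).map g) = 𝟙 _ ≫ ((FF δ).map f ⊗ₘ (FF δ).map g) ≫ 𝟙 _
    simp
  εIso := Iso.refl (𝟙_ C)
  associator_eq X Y Z := by
    change (α_ (ob δ X) (ob δ Y) (ob δ Z)).hom =
      (𝟙 _ ≫ (𝟙 _ ⊗ₘ 𝟙 _)) ≫ (α_ (ob δ X) (ob δ Y) (ob δ Z)).hom ≫ (𝟙 _ ⊗ₘ 𝟙 _) ≫ 𝟙 _
    simp
  leftUnitor_eq X := by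
    change (λ_ (ob δ X)).hom = (𝟙 _ ≫ (𝟙 _ ⊗ₘ 𝟙 _)) ≫ (λ_ (ob δ X)).hom
    simp
  rightUnitor_eq X := by
    change (ρ_ (ob δ X)).hom = (𝟙 _ ≫ (𝟙 _ ⊗ₘ 𝟙 _)) ≫ (ρ_ (ob δ X)).hom
    simp

instance monDD : MonoidalCategory (DD δ) := Monoidal.induced (FF δ) (indDD δ)

/-- the forgetful functor is monoidal -/
def monFF : (FF δ).Monoidal := Monoidal.fromInducedMonoidal (FF δ) (indDD δ)

instance : MonoidalPreadditive (DD δ) where
  whiskerLeft_zero {X Y Z} := MonoidalPreadditive.whiskerLeft_zero (C := C) (X := ob δ X)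
  zero_whiskerRight {X Y Z} := MonoidalPreadditive.zero_whiskerRight (C := C) (X := ob δ X)
  whiskerLeft_add {X Y Z} f g := MonoidalPreadditive.whiskerLeft_add (C := C) (X := ob δ X) f g
  add_whiskerRight {X Y Z} f g := MonoidalPreadditive.add_whiskerRight (C := C) (X := ob δ X) f g

instance : MonoidalLinear ℂ (DD δ) where
  whiskerLeft_smul X {Y Z} z f := MonoidalLinear.whiskerLeft_smul (C := C) (ob δ X) z f
  smul_whiskerRight z {Y Z} f X := MonoidalLinear.smul_whiskerRight (C := C) z f (ob δ X)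

/-- the C*-tensor structure -/
def starDD (hU : FUnit δ.G) (hL : ∀ b t, ‖δ.z * Lent δ.G δ.i0 δ.θ b t‖ = 1)
    (hR : ∀ b t, ‖δ.z * Rent δ.G δ.i0 δ.θ b t‖ = 1) : CStarTensorStructure (DD δ) where
  dag {X Y} f := dag (toR δ X) (toR δ Y) f
  dag_dag {X Y} f := dag_dag δ.hS (toR δ X) (toR δ Y) f
  dag_comp {X Y Z} f g := dag_comp δ.hS (toR δ X) (toR δ Y) (toR δ Z) f g
  dag_add {X Y} f g := dag_add δ.hS (toR δ X) (toR δ Y) f g
  dag_smul {X Y} z f := dag_smul δ.hS (toR δ X) (toR δ Y) z f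
  nrm {X Y} f := nrm (toR δ X) (toR δ Y) f
  nrm_nonneg {X Y} f := nrm_nonneg (toR δ X) (toR δ Y) f
  nrm_eq_zero {X Y} f := nrm_eq_zero δ.hS (toR δ X) (toR δ Y) f
  nrm_add {X Y} f g := nrm_add δ.hS (toR δ X) (toR δ Y) f g
  nrm_smul {X Y} z f := nrm_smul δ.hS (toR δ X) (toR δ Y) z f
  nrm_comp {X Y Z} f g := nrm_comp δ.hS (toR δ X) (toR δ Y) (toR δ Z) f g
  complete {X Y} w hw := nrm_complete δ.hS (toR δ X) (toR δ Y) w hw
  nrm_comp_dag {X Y} f := nrm_sq δ.hS (toR δ X) (toR δ Y) f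
  positive {X Y} f := dag_pos δ.hS (toR δ X) (toR δ Y) f
  dag_tensor {X Y X' Y'} f g := dag_tensor δ.hS δ.G (toR δ X) (toR δ Y) (toR δ X') (toR δ Y') f g
  dag_associator X Y Z := dag_assoc δ.hS δ.G hU (toR δ X) (toR δ Y) (toR δ Z)
  dag_leftUnitor X := dag_left δ.hS δ.G δ.i0 δ.θ δ.z δ.hz hL (toR δ X)
  dag_rightUnitor X := dag_right δ.hS δ.G δ.i0 δ.θ δ.z δ.hz hR (toR δ X)

end DCat

section Main

variable {C : Type u} [Category.{v} C] [Abelian C] [Linear ℂ C] [HasFiniteBiproducts C]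
  [MonoidalCategory C] [MonoidalPreadditive C] [MonoidalLinear ℂ C] [RigidCategory C]

lemma sch_of {r : ℕ} {S : Fin r → C} (hC : IsFusionCategory C) (hS : ListsSimples S) : Sch S where
  hid i f := by
    have := hS.simple i
    have := hC.finiteDimensional_hom (S i) (S i)
    obtain ⟨c, hc⟩ := endomorphism_simple_eq_smul_id ℂ f
    exact ⟨c, hc.symm⟩
  hne i := by
    have := hS.simple i
    exact id_nonzero (S i)
  hor i j hij f := by
    have := hS.simple i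
    have := hS.simple j
    by_contra hf
    have := isIso_of_hom_simple hf
    exact hij (hS.injective i j ⟨asIso f⟩)

lemma res_of {r : ℕ} {S : Fin r → C} (hC : IsFusionCategory C) (hS : ListsSimples S) (X : C) :
    ∃ R : Res S, R.X = X := by
  refine exists_res (fun X => ?_) X
  obtain ⟨m, f, hf, hX⟩ := hC.semisimple X
  choose idx hidx using fun k => hS.complete (f k) (hf k)
  exact ⟨m, f, idx, hidx, hX⟩

end Main

section Unit0

variable {C : Type u} [Category.{v} C] [Preadditive C] [Linear ℂ C] [MonoidalCategory C]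
  [MonoidalPreadditive C] [MonoidalLinear ℂ C] {r : ℕ} {S : Fin r → C}
  {N : Fin r → Fin r → Fin r → ℕ}

lemma exists_t0 (hS : Sch S) (G : GRes S N) (i0 : Fin r) (θ : S i0 ≅ 𝟙_ C) :
    Nonempty (Fin (N i0 i0 i0)) := by
  by_contra hne
  have h0 : ∀ c s, G.e i0 i0 c s = 0 := by
    intro c s
    by_cases hc : c = i0
    · subst hc
      exact absurd ⟨s⟩ hne
    · have h1 := hS.hor c i0 hc (G.e i0 i0 c s ≫ (S i0 ◁ θ.hom) ≫ (ρ_ (S i0)).hom)
      have h2 := congrArg (fun w => w ≫ (ρ_ (S i0)).inv ≫ (S i0 ◁ θ.inv)) h1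
      simp only [Category.assoc, Iso.hom_inv_id_assoc, zero_comp] at h2
      rw [← MonoidalCategory.whiskerLeft_comp, θ.hom_inv_id, MonoidalCategory.whiskerLeft_id,
        Category.comp_id] at h2
      exact h2
  have h1 := G.qe i0 i0
  simp only [h0, comp_zero, Finset.sum_const_zero] at h1
  apply hS.hne i0
  have h2 : 𝟙 (S i0) = ((ρ_ (S i0)).inv ≫ (S i0 ◁ θ.inv)) ≫ 𝟙 (S i0 ⊗ S i0) ≫
      ((S i0 ◁ θ.hom) ≫ (ρ_ (S i0)).hom) := by
    simp only [Category.id_comp, Category.assoc]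
    rw [← MonoidalCategory.whiskerLeft_comp_assoc, θ.inv_hom_id, MonoidalCategory.whiskerLeft_id,
      Category.id_comp, Iso.inv_hom_id]
  rw [h2, ← h1, zero_comp, comp_zero]

lemma exists_z (hS : Sch S) (G : GRes S N) (hU : FUnit G) (i0 : Fin r) (θ : S i0 ≅ 𝟙_ C) :
    ∃ z : ℂ, z ≠ 0 ∧ (∀ b t, ‖z * Lent G i0 θ b t‖ = 1) ∧ (∀ b t, ‖z * Rent G i0 θ b t‖ = 1) := by
  obtain ⟨t0⟩ := exists_t0 hS G i0 θ
  have hL : ∀ b t, ‖Lent G i0 θ b t‖ = ‖Rent G i0 θ i0 t0‖ := fun b t =>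
    (norm_RL hS G i0 θ hU i0 b b t t0 t).symm
  have hR : ∀ b t, ‖Rent G i0 θ b t‖ = ‖Rent G i0 θ i0 t0‖ := fun b t => by
    rw [norm_RL hS G i0 θ hU b i0 b t t t0, hL]
  have hne : Rent G i0 θ i0 t0 ≠ 0 := by
    intro h
    have h1 := Rent_mul hS G i0 θ i0 t0
    rw [h, zero_mul] at h1
    exact zero_ne_one h1
  have hn : ‖Rent G i0 θ i0 t0‖ ≠ 0 := norm_ne_zero_iff.2 hne
  refine ⟨((‖Rent G i0 θ i0 t0‖⁻¹ : ℝ) : ℂ), ?_, fun b t => ?_, fun b t => ?_⟩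
  · exact_mod_cast inv_ne_zero hn
  · rw [norm_mul, hL, Complex.norm_real, Real.norm_of_nonneg (inv_nonneg.2 (norm_nonneg _)),
      inv_mul_cancel₀ hn]
  · rw [norm_mul, hR b t, Complex.norm_real, Real.norm_of_nonneg (inv_nonneg.2 (norm_nonneg _)),
      inv_mul_cancel₀ hn]

end Unit0

section Sanity

variable {C : Type u} [Category.{v} C] [Preadditive C] [Linear ℂ C] [MonoidalCategory C]
  [MonoidalPreadditive C] [MonoidalLinear ℂ C] {r : ℕ}

variable {S : Fin r → C} (hS : Sch S) (B : Gauge S) (R : ∀ Y : C, {X : Res S // X.X = Y})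

include hS in
lemma right_total (a b c d : Fin r) (v : S d ⟶ S a ⊗ (S b ⊗ S c)) :
    v = ∑ x : RightIx S a b c d, scal (v ≫ (S a ◁ (gaugeRes hS B R).q b c x.1 x.2.1) ≫
      (gaugeRes hS B R).q a x.1 d x.2.2) • rightVec S B a b c d x := by
  set G := gaugeRes hS B R with hG
  have h1 : v = ∑ f, ∑ s, (v ≫ (S a ◁ G.q b c f s)) ≫ (S a ◁ G.e b c f s) := by
    have h0 := G.qe b c
    have h2 := congrArg (fun w => v ≫ (S a ◁ w)) h0
    simp only [MonoidalCategory.whiskerLeft_id, Category.comp_id, whiskerLeft_sum,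
      MonoidalCategory.whiskerLeft_comp, Preadditive.comp_sum] at h2
    simp only [Category.assoc]
    exact h2.symm
  have h2 : ∀ f s, v ≫ (S a ◁ G.q b c f s) = ∑ t, scal (v ≫ (S a ◁ G.q b c f s) ≫
      G.q a f d t) • G.e a f d t := by
    intro f s
    have h3 : v ≫ (S a ◁ G.q b c f s) = ∑ d', ∑ t, ((v ≫ (S a ◁ G.q b c f s)) ≫ G.q a f d' t) ≫
        G.e a f d' t := by
      have h0 := congrArg (fun w => (v ≫ (S a ◁ G.q b c f s)) ≫ w) (G.qe a f)
      simp only [Category.comp_id, Preadditive.comp_sum] at h0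
      refine h0.symm.trans ?_
      simp only [Category.assoc]
    rw [Finset.sum_eq_single d] at h3
    · conv_lhs => rw [h3]
      refine Finset.sum_congr rfl (fun t _ => ?_)
      conv_lhs => rw [scal_spec hS ((v ≫ (S a ◁ G.q b c f s)) ≫ G.q a f d t)]
      rw [Linear.smul_comp, Category.id_comp, Category.assoc]
    · intro d' _ hd'
      refine Finset.sum_eq_zero (fun t _ => ?_)
      rw [hS.hor d d' (Ne.symm hd') ((v ≫ (S a ◁ G.q b c f s)) ≫ G.q a f d' t), zero_comp]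
    · simp
  conv_lhs => rw [h1]
  rw [Fintype.sum_sigma]
  refine Finset.sum_congr rfl (fun f _ => ?_)
  rw [Fintype.sum_prod_type]
  refine Finset.sum_congr rfl (fun s _ => ?_)
  rw [h2 f s, Preadditive.sum_comp]
  refine Finset.sum_congr rfl (fun t _ => ?_)
  rw [Linear.smul_comp]
  rfl

include hS R in
/-- every F-matrix exists and is unique -/
theorem existsUnique_fMatrix_aux (a b c d : Fin r) :
    ∃! M : Matrix (RightIx S a b c d) (LeftIx S a b c d) ℂ, IsFMatrix S B a b c d M := by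
  refine ⟨fun x y => scal ((leftVec S B a b c d y ≫ (α_ (S a) (S b) (S c)).hom) ≫
    (S a ◁ (gaugeRes hS B R).q b c x.1 x.2.1) ≫ (gaugeRes hS B R).q a x.1 d x.2.2), ?_, ?_⟩
  · intro y
    exact right_total hS B R a b c d _
  · intro M hM
    ext x y
    rw [hM y]
    simp only [Preadditive.sum_comp, Linear.smul_comp]
    rw [Finset.sum_eq_single x]
    · rw [right_orth hS B R a b c d x x, if_pos rfl, scal_smul_id hS]
    · intro x' _ hx'
      rw [right_orth hS B R a b c d x' x, if_neg hx', smul_zero]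
    · simp

end Sanity

section SanityFinal

variable {C : Type u} [Category.{v} C] [Abelian C] [Linear ℂ C] [HasFiniteBiproducts C]
  [MonoidalCategory C] [MonoidalPreadditive C] [MonoidalLinear ℂ C] [RigidCategory C]

/-- Sanity check: in every gauge, each F-matrix exists and is unique. -/
theorem existsUnique_fMatrix (hC : IsFusionCategory C) {r : ℕ} (S : Fin r → C)
    (hS : ListsSimples S) (B : Gauge S) (a b c d : Fin r) :
    ∃! M : Matrix (RightIx S a b c d) (LeftIx S a b c d) ℂ, IsFMatrix S B a b c d M := by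
  choose R hR using res_of hC hS
  exact existsUnique_fMatrix_aux (sch_of hC hS) B (fun Y => ⟨R Y, hR Y⟩) a b c d

end SanityFinal

section Final

/-- A fusion category having a gauge in which all F-matrices are unitary is unitary. -/
theorem result (C : Type u) [Category.{v} C] [Abelian C] [Linear ℂ C] [HasFiniteBiproducts C]
    [MonoidalCategory C] [MonoidalPreadditive C] [MonoidalLinear ℂ C] [RigidCategory C]
    (hC : IsFusionCategory C) {r : ℕ} (S : Fin r → C) (hS : ListsSimples S)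
    (B : Gauge S) (hB : UnitaryFMatrices S B) : IsUnitary C := by
  have hSch := sch_of hC hS
  choose R hR using res_of hC hS
  obtain ⟨i0, ⟨θ'⟩⟩ := hS.complete (𝟙_ C) hC.simple_unit
  have hU := funit_of hSch B (fun Y => ⟨R Y, hR Y⟩) hB
  obtain ⟨z, hz, hL, hR'⟩ := exists_z hSch (gaugeRes hSch B (fun Y => ⟨R Y, hR Y⟩)) hU i0 θ'.symm
  let δ : Dat S (fun a b c => Module.finrank ℂ (S c ⟶ S a ⊗ S b)) :=
    { hS := hSch
      G := gaugeRes hSch B (fun Y => ⟨R Y, hR Y⟩)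
      i0 := i0
      θ := θ'.symm
      z := z
      hz := hz }
  refine ⟨DD δ, inferInstance, inferInstance, inferInstance, inferInstance, inferInstance,
    inferInstance, starDD δ hU hL hR', FF δ, monFF δ, inferInstance, inferInstance, ?_⟩
  have : (FF δ).EssSurj := ⟨fun X => ⟨(show DD δ from R X), ⟨eqToIso (hR X)⟩⟩⟩
  exact { }

end Final

end

end Pool.Agent.Results.MP_7857a6_al.UnitaryOfGauge
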